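import Pool.Agent.Work.MP_308fa9_nt.BF.Defs

set_option autoImplicit false

/-!
The curves `w_j² = ∏_{i ∈ R_j} g_i(t)`, `j < r`, with `s` polynomials `g_i` of even degrees `n_i` and
arbitrary integral coefficients: definitions of the statement.
-/

namespace Stoll308.EA

open Polynomial Finset Stoll308.BF

/-- The curve with the affine equations `w_j² = ∏_{i ∈ R_j} g_i(t)` (all `g_i` of even degree) has a
point over the field `K`: an affine one, or one of the points with `t = ∞`, which are defined over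
`K` if and only if the products of the leading coefficients are squares in `K`. -/
def HasPoint {r s : ℕ} {n : Fin s → ℕ} (R : Fin r → Finset (Fin s))
    (a : ∀ i, Fin (n i + 1) → ℤ) (K : Type*) [Field K] : Prop :=
  (∃ t : K, ∀ j, IsSquare (∏ i ∈ R j, (GZ K (a i)).eval t)) ∨
    ∀ j, IsSquare (∏ i ∈ R j, ((a i 0 : ℤ) : K))

/-- `t` is the coordinate of an affine `K`-point of the curve, and no root of the `g_i`. -/
def Pt {r s : ℕ} {n : Fin s → ℕ} (R : Fin r → Finset (Fin s)) (a : ∀ i, Fin (n i + 1) → ℤ)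
    (K : Type*) [Field K] (t : K) : Prop :=
  (∀ i, (GZ K (a i)).eval t ≠ 0) ∧ ∀ j, IsSquare (∏ i ∈ R j, (GZ K (a i)).eval t)

/-- The curve has points, and even affine ones where no `g_i` is `0`, over all completions
of `ℚ`. -/
def ELS {r s : ℕ} {n : Fin s → ℕ} (R : Fin r → Finset (Fin s)) (a : ∀ i, Fin (n i + 1) → ℤ) :
    Prop :=
  (∀ (p : ℕ) [Fact p.Prime], ∃ t, Pt R a ℚ_[p] t) ∧ ∃ t, Pt R a ℝ t

/-- The polynomials `g_i` have the degrees `n_i`, and their product has no multiple factor. -/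
def Smooth {s : ℕ} {n : Fin s → ℕ} (a : ∀ i, Fin (n i + 1) → ℤ) : Prop :=
  (∀ i, a i 0 ≠ 0) ∧ Squarefree (∏ i, GZ ℚ (a i))

/-- The `δ_i` are the classes of `t - θ_i` in `K[θ_i]ˣ`, `K[θ_i] = K[T]/(g_i)`, modulo squares and
modulo a common scalar `c`, for a `K`-point of the curve with coordinate `t`. -/
def LocImage {r s : ℕ} {n : Fin s → ℕ} (R : Fin r → Finset (Fin s)) (a : ∀ i, Fin (n i + 1) → ℤ)
    (δ : Fin s → ℚ[X]) (K : Type*) [Field K] [Algebra ℚ K] : Prop :=
  ∃ (t c : K) (u : Fin s → K[X]), Pt R a K t ∧ c ≠ 0 ∧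
    ∀ i, GZ K (a i) ∣ (C t - X) - C c * (δ i).map (algebraMap ℚ K) * u i ^ 2

/-- The Selmer set of the curve is nonempty: some `δ_i ∈ ℚ[θ_i]ˣ` are at every odd prime the classes
of a local point. -/
def Sel {r s : ℕ} {n : Fin s → ℕ} (R : Fin r → Finset (Fin s)) (a : ∀ i, Fin (n i + 1) → ℤ) :
    Prop :=
  ∃ δ : Fin s → ℚ[X], (∀ i, IsCoprime (δ i) (GZ ℚ (a i))) ∧
    ∀ (p : ℕ) [Fact p.Prime], p ≠ 2 → LocImage R a δ ℚ_[p]

/-- The inertia groups of the `g_i` are nontrivial and distinct: every `i` is in some `R_j`, and for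
`i ≠ i'` some `R_j` contains exactly one of them. -/
def Sep {r s : ℕ} (R : Fin r → Finset (Fin s)) : Prop :=
  (∀ i, ∃ j, i ∈ R j) ∧ ∀ i i', i ≠ i' → ∃ j, ¬ (i ∈ R j ↔ i' ∈ R j)

open Classical in
/-- The number of tuples of vectors of integers `a_i = (a_i0, ..., a_i(n_i))` with `|a_ik| ≤ H`
which have the property `P`. -/
noncomputable def cnt {s : ℕ} (n : Fin s → ℕ) (P : (∀ i, Fin (n i + 1) → ℤ) → Prop) (H : ℕ) : ℕ :=
  ((Fintype.piFinset fun i => Fintype.piFinset fun _ : Fin (n i + 1) =>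
    Icc (-(H : ℤ)) (H : ℤ)).filter P).card

end Stoll308.EA
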