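import Pool.Agent.Work.MP_308fa9_nt.DQ.ElsA
import Pool.Agent.Work.MP_308fa9_nt.DQ.ElsC
import Pool.Agent.Work.MP_308fa9_nt.DQ.ElsD
import Pool.Agent.Work.MP_308fa9_nt.DQ.Smooth

set_option autoImplicit false

/-!
One or two polynomials modulo the primes `p > h`.
-/

namespace Stoll308.EA

open Polynomial Finset BF

open Classical in
theorem single_large (n : ℕ) (hn : 4 ≤ n) (he : Even n) (M : ℕ) (hM : 0 < M) :
    ∃ h₀ : ℕ, ∀ h : ℕ, h₀ ≤ h →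
      (((BF.Els.box (n + 1) h).filter fun t => ∃ (p : ℕ) (_ : Fact p.Prime), h < p ∧ p ≠ 2 ∧
        ¬ p ∣ M ∧ BF.Els.SqK (AlgebraicClosure (ZMod p)) (BF.Els.co (M : ℤ) t)).card : ℝ) ≤
        (n + 1) * (h : ℝ) ^ n := by
  obtain ⟨C, hC0, hC⟩ := BF.Els.RR_bound n hn he
  have hMz : (0 : ℤ) < (M : ℤ) := by exact_mod_cast hM
  have hM0 : (0 : ℝ) < M := by exact_mod_cast hM
  obtain ⟨C', hC'⟩ : ∃ C' : ℕ, C' = ⌈C * (2 * M) ^ (n - 1)⌉₊ := ⟨_, rfl⟩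
  refine ⟨C' + 2, fun h hH => ?_⟩
  have hhC : C' < h := by omega
  have hh1 : 1 ≤ h := by omega
  have hh1' : (1 : ℝ) ≤ h := by exact_mod_cast hh1
  have hRR : ∀ t ∈ BF.Els.box (n + 1) h,
      (BF.Els.RR (BF.Els.co (M : ℤ) t)).natAbs < h ^ n := by
    intro t ht
    have h1 := hC (M * (h + 1)) (by positivity) (BF.Els.co (M : ℤ) t) (by
      intro i
      have h2 := DQ.co_size hM ht i
      rw [abs_of_pos (by exact_mod_cast h2.1)]
      exact_mod_cast h2.2)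
    have h2 : C * ((M : ℝ) * (h + 1)) ^ (n - 1) < (h : ℝ) ^ n := by
      have h3 : (M : ℝ) * (h + 1) ≤ (2 * M) * h := by nlinarith
      have h4 : ((M : ℝ) * (h + 1)) ^ (n - 1) ≤ ((2 * M) * h) ^ (n - 1) :=
        pow_le_pow_left₀ (by positivity) h3 _
      have h5 : C * (2 * M) ^ (n - 1) ≤ C' := by
        rw [hC']
        exact Nat.le_ceil _
      have h6 : (C' : ℝ) < h := by exact_mod_cast hhC
      have h7 : (0 : ℝ) < (h : ℝ) ^ (n - 1) := by positivity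
      have h8 : (h : ℝ) ^ n = h * (h : ℝ) ^ (n - 1) := by
        rw [← pow_succ']
        congr 1
        omega
      calc C * ((M : ℝ) * (h + 1)) ^ (n - 1) ≤ C * ((2 * M) * h) ^ (n - 1) :=
            mul_le_mul_of_nonneg_left h4 hC0
        _ = (C * (2 * M) ^ (n - 1)) * (h : ℝ) ^ (n - 1) := by
            rw [mul_pow]
            ring
        _ < h * (h : ℝ) ^ (n - 1) := mul_lt_mul_of_pos_right (by linarith) h7
        _ = (h : ℝ) ^ n := h8.symm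
    have h3 : (((BF.Els.RR (BF.Els.co (M : ℤ) t)).natAbs : ℕ) : ℝ) < (h : ℝ) ^ n := by
      rw [Nat.cast_natAbs]
      push_cast
      exact lt_of_le_of_lt h1 h2
    exact_mod_cast h3
  have hsub : ((BF.Els.box (n + 1) h).filter fun t => ∃ (p : ℕ) (_ : Fact p.Prime), h < p ∧
      p ≠ 2 ∧ ¬ p ∣ M ∧ BF.Els.SqK (AlgebraicClosure (ZMod p)) (BF.Els.co (M : ℤ) t)) ⊆
      BF.Els.E1 n M h ∪ BF.Els.E2 n M h := by
    intro t ht
    rw [mem_filter] at ht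
    obtain ⟨hb, p, hp, hph, hp2, hpM, hcon⟩ := ht
    have hpp : p.Prime := hp.out
    have hpMz : ¬ (p : ℤ) ∣ (M : ℤ) := by
      intro h1
      exact hpM (by exact_mod_cast h1)
    have h2K : (2 : AlgebraicClosure (ZMod p)) ≠ 0 := by
      intro h0
      apply BG.Els.two_ne (p := p) hp2
      apply (algebraMap (ZMod p) (AlgebraicClosure (ZMod p))).injective
      rw [map_ofNat, map_zero]
      exact h0
    have ha0 : (BF.Els.co (M : ℤ) t 0 : AlgebraicClosure (ZMod p)) ≠ 0 := by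
      intro h0
      rw [BG.PEls.cast_eq_zero (p := p), BF.Els.co_lt _ t (by rw [Fin.val_zero]; omega)] at h0
      rcases (Nat.prime_iff_prime_int.1 hpp).dvd_or_dvd h0 with h4 | h4
      · exact hpMz h4
      · have h5 := BF.Els.pos_of_box hb 0
        have h6 := Int.le_of_dvd (by linarith [h5.1]) h4
        have h7 : (h : ℤ) < p := by exact_mod_cast hph
        linarith [h5.2]
    have hrel : (p : ℤ) ∣ BF.Els.RR (BF.Els.co (M : ℤ) t) ∧
        (p : ℤ) ∣ BF.Els.NN (BF.Els.co (M : ℤ) t) := by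
      obtain ⟨m, hm⟩ := he
      have hm2 : n = 2 * m := by omega
      subst hm2
      exact BF.Els.rel (K := AlgebraicClosure (ZMod p)) (by omega) h2K ha0 hcon
    rw [mem_union]
    by_cases hR0 : BF.Els.RR (BF.Els.co (M : ℤ) t) = 0
    · left
      rw [BF.Els.E1, mem_filter]
      exact ⟨hb, hR0⟩
    · right
      rw [BF.Els.E2, mem_filter]
      exact ⟨hb, hR0, p, hpp, hph, hp2, hpMz, hrel.1, hrel.2⟩
  have hE1 := BF.Els.card_E1 hn hMz h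
  have hE2 := BF.Els.card_E2 hn (M := (M : ℤ)) hRR
  have h1 : (((BF.Els.box (n + 1) h).filter fun t => ∃ (p : ℕ) (_ : Fact p.Prime), h < p ∧
      p ≠ 2 ∧ ¬ p ∣ M ∧ BF.Els.SqK (AlgebraicClosure (ZMod p)) (BF.Els.co (M : ℤ) t)).card : ℝ) ≤
      ((BF.Els.E1 n M h).card : ℝ) + ((BF.Els.E2 n M h).card : ℝ) := by
    exact_mod_cast (card_le_card hsub).trans (card_union_le _ _)
  linarith

open Classical in
theorem pair_large (n m : ℕ) (hn : 4 ≤ n) (hm : 4 ≤ m) (M : ℕ) (hM : 0 < M) (ε : ℝ)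
    (hε : 0 < ε) :
    ∃ h₀ : ℕ, ∀ h : ℕ, h₀ ≤ h →
      (((BF.Els.box (n + 1) h ×ˢ BF.Els.box (m + 1) h).filter fun x =>
        ∃ (p : ℕ) (_ : Fact p.Prime), h < p ∧ p ≠ 2 ∧ ¬ p ∣ M ∧
          DQ.Sq2 (AlgebraicClosure (ZMod p)) (BF.Els.co (M : ℤ) x.1)
            (BF.Els.co (M : ℤ) x.2)).card : ℝ) ≤ ε * (h : ℝ) ^ (n + m + 2) := by
  obtain ⟨h₁, hh₁⟩ := DQ.irr_box n hn M hM (ε / 3) (by positivity)
  obtain ⟨h₂, hh₂⟩ := DQ.card_E4 n m hn hm M hM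
  obtain ⟨h₃, hh₃⟩ := DQ.card_E5 n m hn hm M hM
  obtain ⟨h₄, hh₄⟩ := exists_nat_ge ((3 * (8 * n + m + 5) / ε : ℝ))
  refine ⟨h₁ + h₂ + h₃ + h₄ + 1, fun h hh => ?_⟩
  have g1 := hh₁ h (by omega)
  have g2 := hh₂ h (by omega)
  have g3 := hh₃ h (by omega)
  have hh1 : (1 : ℝ) ≤ h := by exact_mod_cast (by omega : 1 ≤ h)
  have g4 : (3 * (8 * n + m + 5) / ε : ℝ) ≤ h := hh₄.trans (by exact_mod_cast (by omega : h₄ ≤ h))
  set E4 := (BF.Els.box (n + 1) h ×ˢ BF.Els.box (m + 1) h).filter fun x =>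
        Irreducible (GZ ℚ (BF.Els.co (M : ℤ) x.1)) ∧
        ∃ (p : ℕ) (_ : Fact p.Prime), h < p ∧ p ≠ 2 ∧ ¬ p ∣ M ∧
          ¬ Squarefree (GZ (AlgebraicClosure (ZMod p)) (BF.Els.co (M : ℤ) x.1)) ∧
          DQ.Sq2 (AlgebraicClosure (ZMod p)) (BF.Els.co (M : ℤ) x.1)
            (BF.Els.co (M : ℤ) x.2) with hE4
  set E5 := (BF.Els.box (n + 1) h ×ˢ BF.Els.box (m + 1) h).filter fun x =>
        ∃ (p : ℕ) (_ : Fact p.Prime), h < p ∧ p ≠ 2 ∧ ¬ p ∣ M ∧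
          Squarefree (GZ (AlgebraicClosure (ZMod p)) (BF.Els.co (M : ℤ) x.1)) ∧
          DQ.Sq2 (AlgebraicClosure (ZMod p)) (BF.Els.co (M : ℤ) x.1)
            (BF.Els.co (M : ℤ) x.2) with hE5
  set E0 := (BF.Els.box (n + 1) h).filter fun t =>
      ¬ Irreducible (GZ ℚ (BF.Els.co (M : ℤ) t)) with hE0
  have hsub : ((BF.Els.box (n + 1) h ×ˢ BF.Els.box (m + 1) h).filter fun x =>
        ∃ (p : ℕ) (_ : Fact p.Prime), h < p ∧ p ≠ 2 ∧ ¬ p ∣ M ∧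
          DQ.Sq2 (AlgebraicClosure (ZMod p)) (BF.Els.co (M : ℤ) x.1)
            (BF.Els.co (M : ℤ) x.2)) ⊆ (E0 ×ˢ BF.Els.box (m + 1) h) ∪ (E4 ∪ E5) := by
    intro x hx
    rw [mem_filter] at hx
    obtain ⟨hb, p, hp, hph, hp2, hpM, hcon⟩ := hx
    have hb' := mem_product.1 hb
    rw [mem_union, mem_union]
    by_cases hirr : Irreducible (GZ ℚ (BF.Els.co (M : ℤ) x.1))
    · right
      by_cases hsq : Squarefree (GZ (AlgebraicClosure (ZMod p)) (BF.Els.co (M : ℤ) x.1))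
      · right
        rw [hE5, mem_filter]
        exact ⟨hb, p, hp, hph, hp2, hpM, hsq, hcon⟩
      · left
        rw [hE4, mem_filter]
        exact ⟨hb, hirr, p, hp, hph, hp2, hpM, hsq, hcon⟩
    · left
      rw [mem_product, hE0, mem_filter]
      exact ⟨⟨hb'.1, hirr⟩, hb'.2⟩
  have h1 := (card_le_card hsub).trans ((card_union_le _ _).trans
    (Nat.add_le_add_left (card_union_le _ _) _))
  rw [card_product, BF.Els.card_box] at h1
  have h2 : (((BF.Els.box (n + 1) h ×ˢ BF.Els.box (m + 1) h).filter fun x =>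
        ∃ (p : ℕ) (_ : Fact p.Prime), h < p ∧ p ≠ 2 ∧ ¬ p ∣ M ∧
          DQ.Sq2 (AlgebraicClosure (ZMod p)) (BF.Els.co (M : ℤ) x.1)
            (BF.Els.co (M : ℤ) x.2)).card : ℝ) ≤
        (E0.card : ℝ) * (h : ℝ) ^ (m + 1) + ((E4.card : ℝ) + (E5.card : ℝ)) := by
    exact_mod_cast h1
  have e1 : (E0.card : ℝ) * (h : ℝ) ^ (m + 1) ≤ ε / 3 * (h : ℝ) ^ (n + m + 2) := by
    calc (E0.card : ℝ) * (h : ℝ) ^ (m + 1) ≤ (ε / 3 * (h : ℝ) ^ (n + 1)) * (h : ℝ) ^ (m + 1) :=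
          mul_le_mul_of_nonneg_right g1 (by positivity)
      _ = ε / 3 * (h : ℝ) ^ (n + m + 2) := by
          rw [mul_assoc, ← pow_add]
          congr 2
          ring
  have e2 : (h : ℝ) ^ (n + m) ≤ (h : ℝ) ^ (n + m + 1) := pow_le_pow_right₀ hh1 (by omega)
  have e3 : (3 * (8 * n + m + 5) : ℝ) ≤ ε * h := by
    rw [div_le_iff₀ hε] at g4
    linarith
  have e4 : (h : ℝ) ^ (n + m + 2) = h * (h : ℝ) ^ (n + m + 1) := pow_succ' _ _
  have e5 : (0 : ℝ) ≤ (h : ℝ) ^ (n + m + 1) := by positivity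
  have e6 : (E4.card : ℝ) ≤ 8 * n * (h : ℝ) ^ (n + m + 1) :=
    g2.trans (mul_le_mul_of_nonneg_left e2 (by positivity))
  have e7 := mul_le_mul_of_nonneg_right e3 e5
  have e8 : ε / 3 * (h : ℝ) ^ (n + m + 2) = (ε * h * (h : ℝ) ^ (n + m + 1)) / 3 := by
    rw [e4]
    ring
  have e9 : (0 : ℝ) ≤ ε / 3 * (h : ℝ) ^ (n + m + 2) := by positivity
  have e10 : (E4.card : ℝ) + (E5.card : ℝ) ≤ (8 * n + m + 5) * (h : ℝ) ^ (n + m + 1) := by
    linarith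
  have e11 : (8 * n + m + 5 : ℝ) * (h : ℝ) ^ (n + m + 1) ≤ ε / 3 * (h : ℝ) ^ (n + m + 2) := by
    rw [e8]
    linarith
  linarith

open Classical in
theorem coprime_box (n m : ℕ) (hn : 4 ≤ n) (hm : 4 ≤ m) (M : ℕ) (hM : 0 < M) (ε : ℝ)
    (hε : 0 < ε) :
    ∃ h₀ : ℕ, ∀ h : ℕ, h₀ ≤ h →
      (((BF.Els.box (n + 1) h ×ˢ BF.Els.box (m + 1) h).filter fun x =>
        ¬ IsCoprime (GZ ℚ (BF.Els.co (M : ℤ) x.1)) (GZ ℚ (BF.Els.co (M : ℤ) x.2))).card : ℝ) ≤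
        ε * (h : ℝ) ^ (n + m + 2) := by
  have hMz : (0 : ℤ) < (M : ℤ) := by exact_mod_cast hM
  have hM0 : (0 : ℝ) < M := by exact_mod_cast hM
  obtain ⟨H₀, hH⟩ := DQ.smooth_small n m hn hm (ε / (2 * M) ^ (n + m + 2)) (by positivity)
  refine ⟨H₀ + 1, fun h hh => ?_⟩
  have h1 := hH (M * (h + 1)) (by nlinarith)
  have hh1 : (1 : ℝ) ≤ h := by exact_mod_cast (by omega : 1 ≤ h)
  have hmem : ∀ {N : ℕ} (t : Fin (N + 1) → ℤ), t ∈ BF.Els.box (N + 1) h →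
      BF.Els.co (M : ℤ) t ∈ Fintype.piFinset fun _ : Fin (N + 1) =>
        Icc (-(((M * (h + 1) : ℕ)) : ℤ)) (((M * (h + 1) : ℕ)) : ℤ) := by
    intro N t ht
    rw [Fintype.mem_piFinset]
    intro i
    have h2 := DQ.co_size hM ht i
    rw [mem_Icc]
    push_cast
    constructor
    · have : (0 : ℤ) ≤ (M : ℤ) * (h + 1) := by positivity
      linarith [h2.1]
    · exact h2.2
  have hinj : ((BF.Els.box (n + 1) h ×ˢ BF.Els.box (m + 1) h).filter fun x =>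
      ¬ IsCoprime (GZ ℚ (BF.Els.co (M : ℤ) x.1)) (GZ ℚ (BF.Els.co (M : ℤ) x.2))).card ≤
      DQ.cnt n m (fun a b => ¬ DQ.Smooth a b) (M * (h + 1)) := by
    unfold DQ.cnt
    apply card_le_card_of_injOn
      (fun x => ((BF.Els.co (M : ℤ) x.1 : Fin (n + 1) → ℤ), (BF.Els.co (M : ℤ) x.2 : Fin (m + 1) → ℤ)))
    · intro x hx
      rw [mem_coe, mem_filter] at hx
      have hx' := mem_product.1 hx.1
      refine mem_coe.2 ((@mem_filter _ _ (fun a => Classical.propDecidable _) _ _).2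
        ⟨mem_product.2 ⟨hmem _ hx'.1, hmem _ hx'.2⟩, ?_⟩)
      intro hs
      apply hx.2
      exact (squarefree_mul_iff.1 hs.2.2).1.isCoprime
    · intro x _ y _ hxy
      rw [Prod.ext_iff] at hxy ⊢
      refine ⟨?_, ?_⟩
      · funext i
        exact BF.Els.co_inj hMz.ne' (congrFun hxy.1 i)
      · funext i
        exact BF.Els.co_inj hMz.ne' (congrFun hxy.2 i)
  have h3 : (((BF.Els.box (n + 1) h ×ˢ BF.Els.box (m + 1) h).filter fun x =>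
      ¬ IsCoprime (GZ ℚ (BF.Els.co (M : ℤ) x.1)) (GZ ℚ (BF.Els.co (M : ℤ) x.2))).card : ℝ) ≤
      ε / (2 * M) ^ (n + m + 2) * ((M * (h + 1) : ℕ) : ℝ) ^ (n + m + 2) :=
    le_trans (by exact_mod_cast hinj) h1
  refine h3.trans ?_
  have h4 : ((M * (h + 1) : ℕ) : ℝ) ≤ 2 * M * h := by
    push_cast
    nlinarith
  have h5 : ((M * (h + 1) : ℕ) : ℝ) ^ (n + m + 2) ≤ (2 * M * h) ^ (n + m + 2) :=
    pow_le_pow_left₀ (by positivity) h4 _
  calc ε / (2 * M) ^ (n + m + 2) * ((M * (h + 1) : ℕ) : ℝ) ^ (n + m + 2)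
      ≤ ε / (2 * M) ^ (n + m + 2) * (2 * M * h) ^ (n + m + 2) :=
        mul_le_mul_of_nonneg_left h5 (by positivity)
    _ = ε * (h : ℝ) ^ (n + m + 2) := by
        rw [mul_pow (2 * (M : ℝ)) h]
        field_simp

end Stoll308.EA
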