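import Pool.Agent.Work.MP_308fa9_nt.EA.Multi
import Pool.Agent.Work.MP_308fa9_nt.EA.Single

set_option autoImplicit false

/-!
All subsets, modulo the primes `p > h`.
-/

namespace Stoll308.EA

open Polynomial Finset BF

variable {s : ℕ} {n : Fin s → ℕ}

open Classical in
/-- Few tuples of parameters have the property. -/
def TSm (n : Fin s → ℕ) (P : ℕ → (∀ i, Fin (n i + 1) → ℤ) → Prop) : Prop :=
  ∀ ε : ℝ, 0 < ε → ∃ h₀ : ℕ, ∀ h : ℕ, h₀ ≤ h →
    (((tbox n h).filter (P h)).card : ℝ) ≤ ε * (h : ℝ) ^ ∑ i, (n i + 1)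

lemma TSm.mono {P Q : ℕ → (∀ i, Fin (n i + 1) → ℤ) → Prop} (hQ : TSm n Q)
    (hPQ : ∀ h, ∀ x ∈ tbox n h, P h x → Q h x) : TSm n P := by
  classical
  intro ε hε
  obtain ⟨h₀, h1⟩ := hQ ε hε
  refine ⟨h₀, fun h hh => le_trans ?_ (h1 h hh)⟩
  rw [Nat.cast_le]
  apply card_le_card
  intro x hx
  rw [mem_filter] at hx ⊢
  exact ⟨hx.1, hPQ h x hx.1 hx.2⟩

lemma TSm.or {P Q : ℕ → (∀ i, Fin (n i + 1) → ℤ) → Prop} (hP : TSm n P) (hQ : TSm n Q) :
    TSm n (fun h x => P h x ∨ Q h x) := by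
  classical
  intro ε hε
  obtain ⟨h₁, h1⟩ := hP (ε / 2) (half_pos hε)
  obtain ⟨h₂, h2⟩ := hQ (ε / 2) (half_pos hε)
  refine ⟨max h₁ h₂, fun h hh => ?_⟩
  have e1 := h1 h ((le_max_left _ _).trans hh)
  have e2 := h2 h ((le_max_right _ _).trans hh)
  have e3 : ((tbox n h).filter fun x => P h x ∨ Q h x).card ≤
      ((tbox n h).filter (P h)).card + ((tbox n h).filter (Q h)).card := by
    refine le_trans (card_le_card ?_) (card_union_le _ _)
    intro x hx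
    rw [mem_filter] at hx
    rw [mem_union, mem_filter, mem_filter]
    rcases hx.2 with h | h
    · exact Or.inl ⟨hx.1, h⟩
    · exact Or.inr ⟨hx.1, h⟩
  have e4 : (((tbox n h).filter fun x => P h x ∨ Q h x).card : ℝ) ≤
      ((tbox n h).filter (P h)).card + ((tbox n h).filter (Q h)).card := by exact_mod_cast e3
  have e5 : ε * (h : ℝ) ^ ∑ i, (n i + 1) =
      ε / 2 * (h : ℝ) ^ ∑ i, (n i + 1) + ε / 2 * (h : ℝ) ^ ∑ i, (n i + 1) := by ring
  rw [e5]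
  refine le_trans (le_of_eq ?_) (e4.trans (add_le_add e1 e2))
  congr!

lemma tsm_false : TSm n (fun _ _ => False) := by
  classical
  intro ε hε
  refine ⟨0, fun h _ => ?_⟩
  rw [filter_false, card_empty, Nat.cast_zero]
  positivity

lemma TSm.exists {κ : Type*} (J : Finset κ) (P : κ → ℕ → (∀ i, Fin (n i + 1) → ℤ) → Prop)
    (h : ∀ k ∈ J, TSm n (P k)) : TSm n (fun h x => ∃ k ∈ J, P k h x) := by
  classical
  induction J using Finset.induction_on with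
  | empty => exact tsm_false.mono fun h x _ hx => by simp at hx
  | insert k J hk ih =>
    refine ((h k (mem_insert_self _ _)).or
      (ih fun k' hk' => h k' (mem_insert_of_mem hk'))).mono ?_
    intro h x _ hx
    obtain ⟨k', hk', hx⟩ := hx
    rcases mem_insert.1 hk' with rfl | h1
    · exact Or.inl hx
    · exact Or.inr ⟨k', h1, hx⟩

open Classical in
/-- A property of one of the vectors. -/
lemma tsm_one (i : Fin s) (P : ℕ → (Fin (n i + 1) → ℤ) → Prop)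
    (h : ∀ ε : ℝ, 0 < ε → ∃ h₀ : ℕ, ∀ h : ℕ, h₀ ≤ h →
      (((BF.Els.box (n i + 1) h).filter (P h)).card : ℝ) ≤ ε * (h : ℝ) ^ (n i + 1)) :
    TSm n (fun h x => P h (x i)) := by
  intro ε hε
  obtain ⟨h₀, h1⟩ := h ε hε
  refine ⟨h₀, fun h hh => ?_⟩
  have e1 := h1 h hh
  have e2 := card_pi_le (fun i => BF.Els.box (n i + 1) h) {i} (fun a => a i)
    (by
      intro a b hab k hk
      rw [mem_singleton] at hk
      subst hk
      exact hab)
    ((tbox n h).filter fun a => P h (a i)) (filter_subset _ _)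
    ((BF.Els.box (n i + 1) h).filter (P h)) (by
      intro a ha
      rw [mem_filter] at ha ⊢
      exact ⟨Fintype.mem_piFinset.1 ha.1 i, ha.2⟩)
  rw [prod_congr rfl fun k _ => BF.Els.card_box (n k + 1) h, prod_pow_eq_pow_sum] at e2
  have e3 : ((((tbox n h).filter fun a => P h (a i)).card : ℕ) : ℝ) ≤
      ((BF.Els.box (n i + 1) h).filter (P h)).card * (h : ℝ) ^ ∑ k ∈ {i}ᶜ, (n k + 1) := by
    exact_mod_cast e2
  calc _ ≤ (((BF.Els.box (n i + 1) h).filter (P h)).card : ℝ) *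
        (h : ℝ) ^ ∑ k ∈ {i}ᶜ, (n k + 1) := e3
    _ ≤ (ε * (h : ℝ) ^ (n i + 1)) * (h : ℝ) ^ ∑ k ∈ {i}ᶜ, (n k + 1) :=
        mul_le_mul_of_nonneg_right e1 (by positivity)
    _ = _ := by
        rw [Fintype.sum_eq_add_sum_compl i, mul_assoc, ← pow_add]

open Classical in
/-- A property of two of the vectors. -/
lemma tsm_two (i j : Fin s) (hij : i ≠ j)
    (P : ℕ → (Fin (n i + 1) → ℤ) → (Fin (n j + 1) → ℤ) → Prop)
    (h : ∀ ε : ℝ, 0 < ε → ∃ h₀ : ℕ, ∀ h : ℕ, h₀ ≤ h →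
      (((BF.Els.box (n i + 1) h ×ˢ BF.Els.box (n j + 1) h).filter fun x =>
        P h x.1 x.2).card : ℝ) ≤ ε * (h : ℝ) ^ (n i + n j + 2)) :
    TSm n (fun h x => P h (x i) (x j)) := by
  intro ε hε
  obtain ⟨h₀, h1⟩ := h ε hε
  refine ⟨h₀, fun h hh => ?_⟩
  have e1 := h1 h hh
  have e2 := card_pi_le (fun i => BF.Els.box (n i + 1) h) {i, j} (fun a => (a i, a j))
    (by
      intro a b hab k hk
      rw [mem_insert, mem_singleton] at hk
      rw [Prod.ext_iff] at hab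
      rcases hk with rfl | rfl
      · exact hab.1
      · exact hab.2)
    ((tbox n h).filter fun a => P h (a i) (a j)) (filter_subset _ _)
    ((BF.Els.box (n i + 1) h ×ˢ BF.Els.box (n j + 1) h).filter fun x => P h x.1 x.2) (by
      intro a ha
      rw [mem_filter] at ha ⊢
      exact ⟨mem_product.2 ⟨Fintype.mem_piFinset.1 ha.1 i, Fintype.mem_piFinset.1 ha.1 j⟩, ha.2⟩)
  rw [prod_congr rfl fun k _ => BF.Els.card_box (n k + 1) h, prod_pow_eq_pow_sum] at e2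
  have e3 : ((((tbox n h).filter fun a => P h (a i) (a j)).card : ℕ) : ℝ) ≤
      ((BF.Els.box (n i + 1) h ×ˢ BF.Els.box (n j + 1) h).filter fun x => P h x.1 x.2).card *
        (h : ℝ) ^ ∑ k ∈ {i, j}ᶜ, (n k + 1) := by
    exact_mod_cast e2
  calc _ ≤ (((BF.Els.box (n i + 1) h ×ˢ BF.Els.box (n j + 1) h).filter fun x =>
          P h x.1 x.2).card : ℝ) * (h : ℝ) ^ ∑ k ∈ {i, j}ᶜ, (n k + 1) := e3
    _ ≤ (ε * (h : ℝ) ^ (n i + n j + 2)) * (h : ℝ) ^ ∑ k ∈ {i, j}ᶜ, (n k + 1) :=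
        mul_le_mul_of_nonneg_right e1 (by positivity)
    _ = _ := by
        rw [mul_assoc, ← pow_add, ← Finset.sum_add_sum_compl {i, j}, sum_pair hij]
        congr 2
        ring

/-- A product over one element. -/
lemma sqK_of_single {K : Type*} [Field K] (a : ∀ i, Fin (n i + 1) → ℤ) (i : Fin s)
    (h : SqS K a {i}) : BF.Els.SqK K (a i) := by
  obtain ⟨c, u, h⟩ := h
  rw [prod_singleton] at h
  exact ⟨c, expand K (2 * 1) u, by rw [h, map_mul, map_pow, expand_C]⟩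

/-- A product over two elements. -/
lemma sq2_of_pair {K : Type*} [Field K] (a : ∀ i, Fin (n i + 1) → ℤ) (i j : Fin s) (hij : i ≠ j)
    (h : SqS K a {i, j}) : DQ.Sq2 K (a i) (a j) := by
  obtain ⟨c, u, h⟩ := h
  rw [prod_pair hij] at h
  exact ⟨c, u, h⟩

open Classical in
theorem large_primes (hn : ∀ i, 4 ≤ n i) (he : ∀ i, Even (n i)) (M : ℕ) (hM : 0 < M) (ε : ℝ)
    (hε : 0 < ε) :
    ∃ h₀ : ℕ, ∀ h : ℕ, h₀ ≤ h →
      (((tbox n h).filter fun x => ∃ S : Finset (Fin s), S.Nonempty ∧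
        ∃ (p : ℕ) (_ : Fact p.Prime), h < p ∧ p ≠ 2 ∧ ¬ p ∣ M ∧
          SqS (AlgebraicClosure (ZMod p)) (coT (M : ℤ) x) S).card : ℝ) ≤
        ε * (h : ℝ) ^ ∑ i, (n i + 1) := by
  -- the reducible ones
  have hirr : TSm n (fun _ x => ∃ i ∈ (univ : Finset (Fin s)),
      ¬ Irreducible (GZ ℚ (BF.Els.co (M : ℤ) (x i)))) :=
    TSm.exists univ _ fun i _ => tsm_one i (fun _ y => ¬ Irreducible (GZ ℚ (BF.Els.co (M : ℤ) y)))
      fun ε hε => by convert DQ.irr_box (n i) (hn i) M hM ε hε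
  -- the ones with common factors
  have hcop : TSm n (fun _ x => ∃ q ∈ (univ : Finset (Fin s × Fin s)).filter fun q => q.1 ≠ q.2,
      ¬ IsCoprime (GZ ℚ (BF.Els.co (M : ℤ) (x q.1))) (GZ ℚ (BF.Els.co (M : ℤ) (x q.2)))) := by
    refine TSm.exists _ (fun (q : Fin s × Fin s) (_ : ℕ) (x : ∀ i, Fin (n i + 1) → ℤ) =>
      ¬ IsCoprime (GZ ℚ (BF.Els.co (M : ℤ) (x q.1))) (GZ ℚ (BF.Els.co (M : ℤ) (x q.2))))
      fun q hq => ?_
    rw [mem_filter] at hq
    exact tsm_two q.1 q.2 hq.2 (fun _ y z =>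
      ¬ IsCoprime (GZ ℚ (BF.Els.co (M : ℤ) y)) (GZ ℚ (BF.Els.co (M : ℤ) z)))
      fun ε hε => by convert coprime_box (n q.1) (n q.2) (hn _) (hn _) M hM ε hε
  have key : TSm n (fun h x => ∃ S ∈ (univ : Finset (Finset (Fin s))).filter fun S => S.Nonempty,
      ∃ (p : ℕ) (_ : Fact p.Prime), h < p ∧ p ≠ 2 ∧ ¬ p ∣ M ∧
        SqS (AlgebraicClosure (ZMod p)) (coT (M : ℤ) x) S) := by
    refine TSm.exists _ (fun (S : Finset (Fin s)) (h : ℕ) (x : ∀ i, Fin (n i + 1) → ℤ) =>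
      ∃ (p : ℕ) (_ : Fact p.Prime), h < p ∧ p ≠ 2 ∧ ¬ p ∣ M ∧
        SqS (AlgebraicClosure (ZMod p)) (coT (M : ℤ) x) S) fun S hS => ?_
    rw [mem_filter] at hS
    have hS1 : 0 < S.card := hS.2.card_pos
    rcases (by omega : S.card = 1 ∨ S.card = 2 ∨ 3 ≤ S.card) with h1 | h2 | h3
    · obtain ⟨i, rfl⟩ := card_eq_one.1 h1
      refine (tsm_one i (fun h y => ∃ (p : ℕ) (_ : Fact p.Prime), h < p ∧ p ≠ 2 ∧
        ¬ p ∣ M ∧ BF.Els.SqK (AlgebraicClosure (ZMod p)) (BF.Els.co (M : ℤ) y)) ?_).mono ?_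
      · intro ε hε
        obtain ⟨h₀, h4⟩ := single_large (n i) (hn i) (he i) M hM
        refine ⟨max h₀ ⌈((n i : ℝ) + 1) / ε⌉₊, fun h hh => (h4 h ((le_max_left _ _).trans hh)).trans ?_⟩
        have h5 : ((n i : ℝ) + 1) / ε ≤ h := by
          refine (Nat.le_ceil _).trans ?_
          exact_mod_cast (le_max_right _ _).trans hh
        have h6 : (n i : ℝ) + 1 ≤ ε * h := by
          rw [mul_comm]
          exact (div_le_iff₀ hε).1 h5
        calc ((n i : ℝ) + 1) * (h : ℝ) ^ n i ≤ (ε * h) * (h : ℝ) ^ n i :=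
              mul_le_mul_of_nonneg_right h6 (by positivity)
          _ = _ := by rw [pow_succ]; ring
      · rintro h x _ ⟨p, hp, h5, h6, h7, h8⟩
        exact ⟨p, hp, h5, h6, h7, sqK_of_single (coT (M : ℤ) x) i h8⟩
    · obtain ⟨i, j, hij, rfl⟩ := card_eq_two.1 h2
      refine (tsm_two i j hij (fun h y z => ∃ (p : ℕ) (_ : Fact p.Prime), h < p ∧ p ≠ 2 ∧
        ¬ p ∣ M ∧ DQ.Sq2 (AlgebraicClosure (ZMod p)) (BF.Els.co (M : ℤ) y)
          (BF.Els.co (M : ℤ) z)) ?_).mono ?_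
      · intro ε hε
        exact pair_large (n i) (n j) (hn i) (hn j) M hM ε hε
      · rintro h x _ ⟨p, hp, h5, h6, h7, h8⟩
        exact ⟨p, hp, h5, h6, h7, sq2_of_pair (coT (M : ℤ) x) i j hij h8⟩
    · refine ((hirr.or hcop).or (Q := fun h x =>
        (∀ i, Irreducible (GZ ℚ (BF.Els.co (M : ℤ) (x i)))) ∧
        (∀ i j, i ≠ j → IsCoprime (GZ ℚ (BF.Els.co (M : ℤ) (x i)))
          (GZ ℚ (BF.Els.co (M : ℤ) (x j)))) ∧
        ∃ (p : ℕ) (_ : Fact p.Prime), h < p ∧ p ≠ 2 ∧ ¬ p ∣ M ∧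
          SqS (AlgebraicClosure (ZMod p)) (coT (M : ℤ) x) S) ?_).mono ?_
      · intro ε hε
        convert multi_large hn M hM S h3 ε hε
      · intro h x _ hx
        by_cases hi : ∀ i, Irreducible (GZ ℚ (BF.Els.co (M : ℤ) (x i)))
        · by_cases hc : ∀ i j, i ≠ j → IsCoprime (GZ ℚ (BF.Els.co (M : ℤ) (x i)))
              (GZ ℚ (BF.Els.co (M : ℤ) (x j)))
          · exact Or.inr ⟨hi, hc, hx⟩
          · push Not at hc
            obtain ⟨i, j, hij, h4⟩ := hc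
            exact Or.inl (Or.inr ⟨(i, j), mem_filter.2 ⟨mem_univ _, hij⟩, h4⟩)
        · push Not at hi
          obtain ⟨i, h4⟩ := hi
          exact Or.inl (Or.inl ⟨i, mem_univ _, h4⟩)
  obtain ⟨h₀, h1⟩ := key ε hε
  refine ⟨h₀, fun h hh => le_trans ?_ (h1 h hh)⟩
  rw [Nat.cast_le]
  apply card_le_card
  intro x hx
  rw [mem_filter] at hx
  obtain ⟨hx1, S, hS, hx2⟩ := hx
  exact (@mem_filter _ _ (_) _ _).2 ⟨hx1, S, mem_filter.2 ⟨mem_univ _, hS⟩, hx2⟩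

end Stoll308.EA
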