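import Pool.Agent.Work.MP_308fa9_nt.EA.Defs
import Pool.Agent.Work.MP_308fa9_nt.DQ.Cnt

set_option autoImplicit false

/-!
Counting tuples.
-/

namespace Stoll308.EA

open Finset BF

/-- The number of elements of a product in terms of a projection which determines the coordinates
in `A`. -/
theorem card_pi_le {s : ℕ} {α : Fin s → Type*} [∀ i, DecidableEq (α i)] (B : ∀ i, Finset (α i))
    (A : Finset (Fin s)) {X : Type*} [DecidableEq X] (π : (∀ i, α i) → X)
    (hπ : ∀ a b, π a = π b → ∀ i ∈ A, a i = b i) (S : Finset (∀ i, α i))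
    (hS : S ⊆ Fintype.piFinset B) (T : Finset X) (hT : ∀ a ∈ S, π a ∈ T) :
    S.card ≤ T.card * ∏ i ∈ Aᶜ, (B i).card := by
  classical
  rw [mul_comm]
  apply card_le_mul_card_image_of_maps_to hT
  intro x hx
  rcases (S.filter fun a => π a = x).eq_empty_or_nonempty with h0 | ⟨a₀, ha₀⟩
  · rw [h0, card_empty]
    exact Nat.zero_le _
  · rw [mem_filter] at ha₀
    have h1 : (S.filter fun a => π a = x) ⊆
        Fintype.piFinset fun i => if i ∈ A then {a₀ i} else B i := by
      intro a ha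
      rw [mem_filter] at ha
      rw [Fintype.mem_piFinset]
      intro i
      split_ifs with hi
      · rw [mem_singleton]
        exact hπ a a₀ (ha.2.trans ha₀.2.symm) i hi
      · exact Fintype.mem_piFinset.1 (hS ha.1) i
    refine (card_le_card h1).trans (le_of_eq ?_)
    have e1 : ∀ i ∈ Aᶜ, (if i ∈ A then {a₀ i} else B i).card = (B i).card := by
      intro i hi
      rw [mem_compl] at hi
      rw [if_neg hi]
    have e2 : ∀ i ∈ A, (if i ∈ A then {a₀ i} else B i).card = 1 := by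
      intro i hi
      rw [if_pos hi, card_singleton]
    rw [Fintype.card_piFinset, ← Finset.prod_compl_mul_prod A, prod_congr rfl e1,
      prod_congr rfl e2, prod_const_one, mul_one]

/-- Fibres over all the coordinates but one. -/
theorem card_pi_fib {s : ℕ} {α : Fin s → Type*} [∀ i, DecidableEq (α i)] (B : ∀ i, Finset (α i))
    (l : Fin s) (S : Finset (∀ i, α i)) (hS : S ⊆ Fintype.piFinset B) (F : ℝ) (hF0 : 0 ≤ F)
    (hF : ∀ a ∈ S, (((B l).filter fun y => Function.update a l y ∈ S).card : ℝ) ≤ F) :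
    (S.card : ℝ) ≤ F * ∏ i ∈ {l}ᶜ, ((B i).card : ℝ) := by
  classical
  rcases S.eq_empty_or_nonempty with h0 | ⟨a₁, ha₁⟩
  · rw [h0, card_empty, Nat.cast_zero]
    positivity
  set T : Finset (∀ i, α i) := Fintype.piFinset fun i => if i = l then {a₁ i} else B i with hT
  have hTc : (T.card : ℝ) = ∏ i ∈ {l}ᶜ, ((B i).card : ℝ) := by
    rw [hT, Fintype.card_piFinset, Fintype.prod_eq_mul_prod_compl l, if_pos rfl, card_singleton,
      one_mul]
    push_cast
    apply prod_congr rfl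
    intro i hi
    rw [mem_compl, mem_singleton] at hi
    rw [if_neg hi]
  have h2 := BG.Els.card_le_fiber S T (fun a => Function.update a l (a₁ l)) (by
    intro a ha
    rw [hT, Fintype.mem_piFinset]
    intro i
    by_cases hi : i = l
    · subst hi
      rw [if_pos rfl, Function.update_self]
      exact mem_singleton_self _
    · rw [if_neg hi, Function.update_of_ne hi]
      exact Fintype.mem_piFinset.1 (hS ha) i) F (by
    intro c _
    rcases (S.filter fun a => Function.update a l (a₁ l) = c).eq_empty_or_nonempty with h3 |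
      ⟨a₀, ha₀⟩
    · rw [h3]
      simpa using hF0
    · rw [mem_filter] at ha₀
      refine le_trans ?_ (hF a₀ ha₀.1)
      rw [Nat.cast_le]
      have key : ∀ a, Function.update a l (a₁ l) = c → Function.update a₀ l (a l) = a := by
        intro a ha
        funext i
        by_cases hi : i = l
        · subst hi
          rw [Function.update_self]
        · rw [Function.update_of_ne hi]
          have h4 := congrFun (ha.trans ha₀.2.symm) i
          rw [Function.update_of_ne hi, Function.update_of_ne hi] at h4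
          exact h4.symm
      apply card_le_card_of_injOn (fun a => a l)
      · intro a ha
        rw [mem_coe, mem_filter] at ha ⊢
        refine ⟨Fintype.mem_piFinset.1 (hS ha.1) l, ?_⟩
        rw [key a ha.2]
        exact ha.1
      · intro a ha b hb hab
        rw [mem_coe, mem_filter] at ha hb
        rw [← key a ha.2, ← key b hb.2]
        simp only at hab
        rw [hab])
  rw [hTc, mul_comm] at h2
  exact h2

variable {s : ℕ} {n : Fin s → ℕ}

/-- The box of the coefficients. -/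
noncomputable abbrev hbox (n H : ℕ) : Finset (Fin (n + 1) → ℤ) :=
  Fintype.piFinset fun _ : Fin (n + 1) => Icc (-(H : ℤ)) (H : ℤ)

lemma card_hbox (n H : ℕ) : (hbox n H).card = (2 * H + 1) ^ (n + 1) := by
  have h := DQ.card_box n H
  exact_mod_cast h

lemma mem_hbox {n H : ℕ} {a : Fin (n + 1) → ℤ} : a ∈ hbox n H ↔ ∀ i, |a i| ≤ (H : ℤ) := by
  rw [hbox, Fintype.mem_piFinset]
  exact forall_congr' fun i => by rw [mem_Icc, abs_le]

lemma cnt_mono {P Q : (∀ i, Fin (n i + 1) → ℤ) → Prop} (H : ℕ)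
    (h : ∀ a : ∀ i, Fin (n i + 1) → ℤ, (∀ i k, |a i k| ≤ (H : ℤ)) → P a → Q a) :
    cnt n P H ≤ cnt n Q H := by
  classical
  unfold cnt
  apply card_le_card
  intro x hx
  simp only [mem_filter, Fintype.mem_piFinset, mem_Icc] at hx ⊢
  exact ⟨hx.1, h x (fun i k => abs_le.2 (hx.1 i k)) hx.2⟩

lemma cnt_or (P Q : (∀ i, Fin (n i + 1) → ℤ) → Prop) (H : ℕ) :
    cnt n (fun a => P a ∨ Q a) H ≤ cnt n P H + cnt n Q H := by
  classical
  unfold cnt
  refine le_trans (card_le_card ?_) (card_union_le _ _)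
  intro t ht
  simp only [mem_filter, mem_union] at ht ⊢
  rcases ht.2 with h | h
  · exact Or.inl ⟨ht.1, h⟩
  · exact Or.inr ⟨ht.1, h⟩

lemma cnt_exists {κ : Type*} (J : Finset κ) (P : κ → (∀ i, Fin (n i + 1) → ℤ) → Prop) (H : ℕ) :
    cnt n (fun a => ∃ k ∈ J, P k a) H ≤ ∑ k ∈ J, cnt n (P k) H := by
  classical
  unfold cnt
  refine le_trans (card_le_card ?_) (card_biUnion_le (s := J))
  intro a ha
  simp only [mem_filter, mem_biUnion] at ha ⊢
  obtain ⟨h1, k, hk, h2⟩ := ha
  exact ⟨k, hk, h1, h2⟩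

/-- The number of all the tuples is `(2H+1)^N`. -/
lemma prod_hbox (H : ℕ) : ∏ i, (hbox (n i) H).card = (2 * H + 1) ^ ∑ i, (n i + 1) := by
  rw [prod_congr rfl fun i _ => card_hbox (n i) H, prod_pow_eq_pow_sum]

/-- A property of one of the vectors. -/
lemma cnt_one (i : Fin s) (P : (Fin (n i + 1) → ℤ) → Prop) (H : ℕ) :
    cnt n (fun a => P (a i)) H ≤ BF.cnt (n i) P H * (2 * H + 1) ^ ∑ k ∈ {i}ᶜ, (n k + 1) := by
  classical
  have h1 := card_pi_le (fun i => hbox (n i) H) {i} (fun a => a i)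
    (by
      intro a b hab k hk
      rw [mem_singleton] at hk
      subst hk
      exact hab)
    ((Fintype.piFinset fun i => hbox (n i) H).filter fun a => P (a i)) (filter_subset _ _)
    ((hbox (n i) H).filter P) (by
      intro a ha
      rw [mem_filter] at ha ⊢
      exact ⟨Fintype.mem_piFinset.1 ha.1 i, ha.2⟩)
  rw [prod_congr rfl fun k _ => card_hbox (n k) H, prod_pow_eq_pow_sum] at h1
  unfold cnt BF.cnt
  convert h1

/-- A property of two of the vectors. -/
lemma cnt_two (i j : Fin s) (hij : i ≠ j)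
    (P : (Fin (n i + 1) → ℤ) → (Fin (n j + 1) → ℤ) → Prop) (H : ℕ) :
    cnt n (fun a => P (a i) (a j)) H ≤
      DQ.cnt (n i) (n j) P H * (2 * H + 1) ^ ∑ k ∈ {i, j}ᶜ, (n k + 1) := by
  classical
  have h1 := card_pi_le (fun i => hbox (n i) H) {i, j} (fun a => (a i, a j))
    (by
      intro a b hab k hk
      rw [mem_insert, mem_singleton] at hk
      rw [Prod.ext_iff] at hab
      rcases hk with rfl | rfl
      · exact hab.1
      · exact hab.2)
    ((Fintype.piFinset fun i => hbox (n i) H).filter fun a => P (a i) (a j)) (filter_subset _ _)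
    ((hbox (n i) H ×ˢ hbox (n j) H).filter fun x => P x.1 x.2) (by
      intro a ha
      rw [mem_filter] at ha ⊢
      exact ⟨mem_product.2 ⟨Fintype.mem_piFinset.1 ha.1 i, Fintype.mem_piFinset.1 ha.1 j⟩, ha.2⟩)
  rw [prod_congr rfl fun k _ => card_hbox (n k) H, prod_pow_eq_pow_sum] at h1
  unfold cnt DQ.cnt
  convert h1

open Classical in
/-- The number of triples. -/
noncomputable def cnt3 (n m k : ℕ)
    (P : (Fin (n + 1) → ℤ) → (Fin (m + 1) → ℤ) → (Fin (k + 1) → ℤ) → Prop) (H : ℕ) : ℕ :=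
  ((hbox n H ×ˢ hbox m H ×ˢ hbox k H).filter fun x => P x.1 x.2.1 x.2.2).card

/-- A property of three of the vectors. -/
lemma cnt_three (i j l : Fin s) (hij : i ≠ j) (hil : i ≠ l) (hjl : j ≠ l)
    (P : (Fin (n i + 1) → ℤ) → (Fin (n j + 1) → ℤ) → (Fin (n l + 1) → ℤ) → Prop) (H : ℕ) :
    cnt n (fun a => P (a i) (a j) (a l)) H ≤
      cnt3 (n i) (n j) (n l) P H * (2 * H + 1) ^ ∑ k ∈ {i, j, l}ᶜ, (n k + 1) := by
  classical
  have h1 := card_pi_le (fun i => hbox (n i) H) {i, j, l} (fun a => (a i, a j, a l))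
    (by
      intro a b hab k hk
      rw [mem_insert, mem_insert, mem_singleton] at hk
      rw [Prod.ext_iff, Prod.ext_iff] at hab
      rcases hk with rfl | rfl | rfl
      · exact hab.1
      · exact hab.2.1
      · exact hab.2.2)
    ((Fintype.piFinset fun i => hbox (n i) H).filter fun a => P (a i) (a j) (a l))
    (filter_subset _ _)
    ((hbox (n i) H ×ˢ hbox (n j) H ×ˢ hbox (n l) H).filter fun x => P x.1 x.2.1 x.2.2) (by
      intro a ha
      rw [mem_filter] at ha ⊢
      exact ⟨mem_product.2 ⟨Fintype.mem_piFinset.1 ha.1 i,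
        mem_product.2 ⟨Fintype.mem_piFinset.1 ha.1 j, Fintype.mem_piFinset.1 ha.1 l⟩⟩, ha.2⟩)
  rw [prod_congr rfl fun k _ => card_hbox (n k) H, prod_pow_eq_pow_sum] at h1
  unfold cnt cnt3
  convert h1

/-- The property holds for few tuples. -/
def Small (n : Fin s → ℕ) (P : (∀ i, Fin (n i + 1) → ℤ) → Prop) : Prop :=
  ∀ ε : ℝ, 0 < ε → ∃ H₀ : ℕ, ∀ H : ℕ, H₀ ≤ H → (cnt n P H : ℝ) ≤ ε * H ^ ∑ i, (n i + 1)

lemma Small.mono {P Q : (∀ i, Fin (n i + 1) → ℤ) → Prop} (h : Small n Q) (hPQ : ∀ a, P a → Q a) :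
    Small n P := by
  intro ε hε
  obtain ⟨H₀, h1⟩ := h ε hε
  refine ⟨H₀, fun H hH => le_trans ?_ (h1 H hH)⟩
  exact_mod_cast cnt_mono H fun a _ => hPQ a

lemma Small.or {P Q : (∀ i, Fin (n i + 1) → ℤ) → Prop} (hP : Small n P) (hQ : Small n Q) :
    Small n (fun a => P a ∨ Q a) := by
  intro ε hε
  obtain ⟨H₁, h1⟩ := hP (ε / 2) (half_pos hε)
  obtain ⟨H₂, h2⟩ := hQ (ε / 2) (half_pos hε)
  refine ⟨max H₁ H₂, fun H hH => ?_⟩
  have e1 := h1 H ((le_max_left _ _).trans hH)
  have e2 := h2 H ((le_max_right _ _).trans hH)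
  have e3 : (cnt n (fun a => P a ∨ Q a) H : ℝ) ≤ cnt n P H + cnt n Q H := by
    exact_mod_cast cnt_or P Q H
  linarith

lemma small_false : Small n (fun _ => False) := by
  classical
  intro ε hε
  refine ⟨0, fun H _ => ?_⟩
  have h1 : cnt n (fun _ => False) H = 0 := by
    unfold cnt
    exact card_eq_zero.2 (eq_empty_of_forall_notMem fun x hx =>
      ((@mem_filter _ _ (_) _ _).1 hx).2)
  rw [h1, Nat.cast_zero]
  positivity

lemma Small.exists {κ : Type*} (J : Finset κ) (P : κ → (∀ i, Fin (n i + 1) → ℤ) → Prop)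
    (h : ∀ k ∈ J, Small n (P k)) : Small n (fun a => ∃ k ∈ J, P k a) := by
  classical
  induction J using Finset.induction_on with
  | empty => exact small_false.mono fun a ha => by simp at ha
  | insert k J hk ih =>
    refine ((h k (mem_insert_self _ _)).or (ih fun k' hk' => h k' (mem_insert_of_mem hk'))).mono ?_
    intro a ha
    obtain ⟨k', hk', ha⟩ := ha
    rcases mem_insert.1 hk' with rfl | h1
    · exact Or.inl ha
    · exact Or.inr ⟨k', h1, ha⟩

lemma pow_le_three {H : ℕ} (hH : 1 ≤ H) (N : ℕ) : (2 * (H : ℝ) + 1) ^ N ≤ (3 * H) ^ N := by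
  have : (1 : ℝ) ≤ H := by exact_mod_cast hH
  exact pow_le_pow_left₀ (by positivity) (by linarith) _

/-- Few vectors, so few tuples. -/
lemma small_one (i : Fin s) (P : (Fin (n i + 1) → ℤ) → Prop)
    (h : ∀ ε : ℝ, 0 < ε → ∃ H₀ : ℕ, ∀ H : ℕ, H₀ ≤ H →
      (BF.cnt (n i) P H : ℝ) ≤ ε * H ^ (n i + 1)) : Small n (fun a => P (a i)) := by
  intro ε hε
  set N : ℕ := ∑ k ∈ {i}ᶜ, (n k + 1) with hN
  obtain ⟨H₀, h1⟩ := h (ε / 3 ^ N) (by positivity)
  refine ⟨max H₀ 1, fun H hH => ?_⟩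
  have e1 := h1 H ((le_max_left _ _).trans hH)
  have hH1 : 1 ≤ H := (le_max_right _ _).trans hH
  have e2 : (cnt n (fun a => P (a i)) H : ℝ) ≤ BF.cnt (n i) P H * (2 * H + 1) ^ N := by
    exact_mod_cast cnt_one i P H
  have e3 : ∑ i, (n i + 1) = (n i + 1) + N := by
    rw [hN]
    exact Fintype.sum_eq_add_sum_compl i _
  calc (cnt n (fun a => P (a i)) H : ℝ) ≤ BF.cnt (n i) P H * (2 * H + 1) ^ N := e2
    _ ≤ (ε / 3 ^ N * H ^ (n i + 1)) * (3 * H) ^ N :=
        mul_le_mul e1 (pow_le_three hH1 N) (by positivity) (by positivity)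
    _ = ε * H ^ ∑ i, (n i + 1) := by
        rw [e3, pow_add (H : ℝ) (n i + 1) N, mul_pow]
        field_simp

/-- Few pairs, so few tuples. -/
lemma small_two (i j : Fin s) (hij : i ≠ j)
    (P : (Fin (n i + 1) → ℤ) → (Fin (n j + 1) → ℤ) → Prop)
    (h : ∀ ε : ℝ, 0 < ε → ∃ H₀ : ℕ, ∀ H : ℕ, H₀ ≤ H →
      (DQ.cnt (n i) (n j) P H : ℝ) ≤ ε * H ^ (n i + n j + 2)) :
    Small n (fun a => P (a i) (a j)) := by
  intro ε hε
  set N : ℕ := ∑ k ∈ {i, j}ᶜ, (n k + 1) with hN
  obtain ⟨H₀, h1⟩ := h (ε / 3 ^ N) (by positivity)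
  refine ⟨max H₀ 1, fun H hH => ?_⟩
  have e1 := h1 H ((le_max_left _ _).trans hH)
  have hH1 : 1 ≤ H := (le_max_right _ _).trans hH
  have e2 : (cnt n (fun a => P (a i) (a j)) H : ℝ) ≤
      DQ.cnt (n i) (n j) P H * (2 * H + 1) ^ N := by
    exact_mod_cast cnt_two i j hij P H
  have e3 : ∑ i, (n i + 1) = (n i + n j + 2) + N := by
    rw [hN, ← Finset.sum_add_sum_compl {i, j}, sum_pair hij]
    ring
  calc (cnt n (fun a => P (a i) (a j)) H : ℝ) ≤ DQ.cnt (n i) (n j) P H * (2 * H + 1) ^ N := e2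
    _ ≤ (ε / 3 ^ N * H ^ (n i + n j + 2)) * (3 * H) ^ N :=
        mul_le_mul e1 (pow_le_three hH1 N) (by positivity) (by positivity)
    _ = ε * H ^ ∑ i, (n i + 1) := by
        rw [e3, pow_add (H : ℝ) (n i + n j + 2) N, mul_pow]
        field_simp

end Stoll308.EA
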