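import Pool.Agent.Work.MP_308fa9_nt.EA.Fib

set_option autoImplicit false

/-!
All subsets, modulo the primes `Q < p ≤ h`.
-/

namespace Stoll308.EA

open Polynomial Finset BF

variable {s : ℕ} {n : Fin s → ℕ}

open Classical in
theorem mid_primes (hn : ∀ i, 4 ≤ n i) (M Q h : ℕ) (hQ : 2 ≤ Q)
    (hQM : ∀ p : ℕ, p.Prime → Q < p → ¬ p ∣ M) :
    (((tbox n h).filter fun x => ∃ S : Finset (Fin s), S.Nonempty ∧
      ∃ (p : ℕ) (_ : Fact p.Prime), Q < p ∧ p ≤ h ∧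
        SqS (AlgebraicClosure (ZMod p)) (coT (M : ℤ) x) S).card : ℝ) ≤
      4 * (s + 2 ^ s) / Q * (h : ℝ) ^ ∑ i, (n i + 1) := by
  set N : ℕ := ∑ i, (n i + 1) with hN
  have hQM' : ∀ p : ℕ, p.Prime → Q < p → ¬ (p : ℤ) ∣ (M : ℤ) := by
    intro p hp hQp h
    exact hQM p hp hQp (Int.natCast_dvd_natCast.1 h)
  set U : ℕ → Finset (∀ i, Fin (n i + 1) → ℤ) := fun p =>
    (univ : Finset (Fin s)).biUnion (fun i => (tbox n h).filter fun x =>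
      (p : ℤ) ∣ BF.Els.co (M : ℤ) (x i) 0 ∧ (p : ℤ) ∣ BF.Els.co (M : ℤ) (x i) 1) with hU
  set V : ℕ → Finset (∀ i, Fin (n i + 1) → ℤ) := fun p =>
    ((univ : Finset (Finset (Fin s))).filter fun S => S.Nonempty).biUnion
      fun S => SB n (M : ℤ) h p S with hV
  have hsub : ((tbox n h).filter fun x => ∃ S : Finset (Fin s), S.Nonempty ∧
      ∃ (p : ℕ) (_ : Fact p.Prime), Q < p ∧ p ≤ h ∧
        SqS (AlgebraicClosure (ZMod p)) (coT (M : ℤ) x) S) ⊆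
      ((Ioc Q h).filter Nat.Prime).biUnion fun p => U p ∪ V p := by
    intro x hx
    rw [mem_filter] at hx
    obtain ⟨hx1, S, hS, p, hp, hpQ, hph, hsq⟩ := hx
    rw [mem_biUnion]
    refine ⟨p, mem_filter.2 ⟨mem_Ioc.2 ⟨hpQ, hph⟩, hp.out⟩, ?_⟩
    rw [mem_union]
    by_cases h1 : ∀ i ∈ S, ¬ ((p : ℤ) ∣ BF.Els.co (M : ℤ) (x i) 0 ∧
        (p : ℤ) ∣ BF.Els.co (M : ℤ) (x i) 1)
    · right
      rw [hV, mem_biUnion]
      refine ⟨S, mem_filter.2 ⟨mem_univ _, hS⟩, ?_⟩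
      rw [SB, mem_filter]
      exact ⟨hx1, h1, hp, hsq⟩
    · left
      push Not at h1
      obtain ⟨i, -, h2⟩ := h1
      rw [hU, mem_biUnion]
      exact ⟨i, mem_univ _, mem_filter.2 ⟨hx1, h2⟩⟩
  have hpt : ∀ p ∈ (Ioc Q h).filter Nat.Prime,
      (((U p ∪ V p).card : ℕ) : ℝ) ≤ (4 * (s + 2 ^ s) * (h : ℝ) ^ N) * ((p : ℝ) ^ 2)⁻¹ := by
    intro p hp
    rw [mem_filter, mem_Ioc] at hp
    have hp2 : p ≠ 2 := by omega
    have e1 : ((U p).card : ℝ) ≤ s * (4 / (p : ℝ) ^ 2 * (h : ℝ) ^ N) := by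
      have h1 : (U p).card ≤ ∑ i : Fin s, ((tbox n h).filter fun x =>
          (p : ℤ) ∣ BF.Els.co (M : ℤ) (x i) 0 ∧ (p : ℤ) ∣ BF.Els.co (M : ℤ) (x i) 1).card :=
        card_biUnion_le
      have h2 : ((U p).card : ℝ) ≤ ∑ i : Fin s, (((tbox n h).filter fun x =>
          (p : ℤ) ∣ BF.Els.co (M : ℤ) (x i) 0 ∧ (p : ℤ) ∣ BF.Els.co (M : ℤ) (x i) 1).card : ℝ) := by
        exact_mod_cast h1
      refine h2.trans ((sum_le_sum fun i _ =>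
        card_two_lead hn hp.2 (hQM' p hp.2 hp.1.1) hp.1.2 i).trans (le_of_eq ?_))
      rw [sum_const, card_univ, Fintype.card_fin, nsmul_eq_mul]
    have e2 : ((V p).card : ℝ) ≤ 2 ^ s * (4 / (p : ℝ) ^ 2 * (h : ℝ) ^ N) := by
      have h1 : (V p).card ≤ ∑ S ∈ (univ : Finset (Finset (Fin s))).filter fun S => S.Nonempty,
          (SB n (M : ℤ) h p S).card := card_biUnion_le
      have h2 : ((V p).card : ℝ) ≤ ∑ S ∈ (univ : Finset (Finset (Fin s))).filter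
          fun S => S.Nonempty, ((SB n (M : ℤ) h p S).card : ℝ) := by
        exact_mod_cast h1
      refine h2.trans ((sum_le_sum fun S hS => card_SB hn hp.2 hp2 (hQM' p hp.2 hp.1.1) hp.1.2 S
        (mem_filter.1 hS).2).trans ?_)
      rw [sum_const, nsmul_eq_mul]
      refine mul_le_mul_of_nonneg_right ?_ (by positivity)
      have h3 : ((univ : Finset (Finset (Fin s))).filter fun S => S.Nonempty).card ≤ 2 ^ s := by
        refine (card_filter_le _ _).trans (le_of_eq ?_)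
        rw [card_univ, Fintype.card_finset, Fintype.card_fin]
      exact_mod_cast h3
    have e3 : (((U p ∪ V p).card : ℕ) : ℝ) ≤ ((U p).card : ℝ) + ((V p).card : ℝ) := by
      exact_mod_cast card_union_le _ _
    calc (((U p ∪ V p).card : ℕ) : ℝ) ≤ ((U p).card : ℝ) + ((V p).card : ℝ) := e3
      _ ≤ s * (4 / (p : ℝ) ^ 2 * (h : ℝ) ^ N) + 2 ^ s * (4 / (p : ℝ) ^ 2 * (h : ℝ) ^ N) :=
          add_le_add e1 e2
      _ = (4 * (s + 2 ^ s) * (h : ℝ) ^ N) * ((p : ℝ) ^ 2)⁻¹ := by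
          rw [div_eq_mul_inv]
          ring
  have hsum : ∑ p ∈ Ioc Q h, (((p : ℕ) : ℝ) ^ 2)⁻¹ ≤ (Q : ℝ)⁻¹ := by
    rcases le_total Q h with hQh | hQh
    · have h1 := sum_Ioc_inv_sq_le_sub (α := ℝ) (k := Q) (n := h) (by omega) hQh
      have h2 : (0 : ℝ) ≤ (((h : ℕ) : ℕ) : ℝ)⁻¹ := by positivity
      linarith
    · rw [Ioc_eq_empty_of_le hQh, sum_empty]
      positivity
  have hcard : (((tbox n h).filter fun x => ∃ S : Finset (Fin s), S.Nonempty ∧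
      ∃ (p : ℕ) (_ : Fact p.Prime), Q < p ∧ p ≤ h ∧
        SqS (AlgebraicClosure (ZMod p)) (coT (M : ℤ) x) S).card : ℝ) ≤
      ∑ p ∈ (Ioc Q h).filter Nat.Prime, (((U p ∪ V p).card : ℕ) : ℝ) := by
    exact_mod_cast (card_le_card hsub).trans card_biUnion_le
  calc _ ≤ ∑ p ∈ (Ioc Q h).filter Nat.Prime, (((U p ∪ V p).card : ℕ) : ℝ) := hcard
    _ ≤ ∑ p ∈ (Ioc Q h).filter Nat.Prime, (4 * (s + 2 ^ s) * (h : ℝ) ^ N) * ((p : ℝ) ^ 2)⁻¹ :=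
        sum_le_sum hpt
    _ ≤ ∑ p ∈ Ioc Q h, (4 * (s + 2 ^ s) * (h : ℝ) ^ N) * ((p : ℝ) ^ 2)⁻¹ :=
        sum_le_sum_of_subset_of_nonneg (filter_subset _ _) fun p _ _ => by positivity
    _ = (4 * (s + 2 ^ s) * (h : ℝ) ^ N) * ∑ p ∈ Ioc Q h, (((p : ℕ) : ℝ) ^ 2)⁻¹ := by
        rw [mul_sum]
    _ ≤ (4 * (s + 2 ^ s) * (h : ℝ) ^ N) * (Q : ℝ)⁻¹ :=
        mul_le_mul_of_nonneg_left hsum (by positivity)
    _ = 4 * (s + 2 ^ s) / Q * (h : ℝ) ^ N := by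
        rw [div_eq_mul_inv]
        ring

end Stoll308.EA
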