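import Pool.Agent.Work.MP_308fa9_nt.EA.Cnt
import Pool.Agent.Work.MP_308fa9_nt.DQ.Smooth

set_option autoImplicit false

/-!
Most tuples are smooth.
-/

namespace Stoll308.EA

open Polynomial Finset BF

theorem smooth_small {s : ℕ} (hs : 2 ≤ s) {n : Fin s → ℕ} (hn : ∀ i, 4 ≤ n i) :
    Small n (fun a => ¬ Smooth a) := by
  classical
  have h1 := Small.exists (n := n) ((univ : Finset (Fin s × Fin s)).filter fun p => p.1 ≠ p.2)
    (fun p a => ¬ DQ.Smooth (a p.1) (a p.2)) (by
      intro p hp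
      rw [mem_filter] at hp
      exact small_two p.1 p.2 hp.2 (fun x y => ¬ DQ.Smooth x y)
        fun ε hε => DQ.smooth_small (n p.1) (n p.2) (hn _) (hn _) ε hε)
  refine h1.mono fun a ha => ?_
  by_contra hc
  push Not at hc
  have h2 : ∀ i j, i ≠ j → DQ.Smooth (a i) (a j) := fun i j hij =>
    hc (i, j) (mem_filter.2 ⟨mem_univ _, hij⟩)
  have hnt : Nontrivial (Fin s) := Fin.nontrivial_iff_two_le.2 hs
  apply ha
  refine ⟨fun i => ?_, ?_⟩
  · obtain ⟨j, hj⟩ := exists_ne i
    exact (h2 i j hj.symm).1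
  · refine Finset.squarefree_prod_of_pairwise_isCoprime ?_ ?_
    · intro i _ j _ hij
      exact (squarefree_mul_iff.1 (h2 i j hij).2.2).1
    · intro i _
      obtain ⟨j, hj⟩ := exists_ne i
      exact (squarefree_mul_iff.1 (h2 i j hj.symm).2.2).2.1

end Stoll308.EA
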