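import Pool.Agent.Work.MP_308fa9_nt.EA.BigP
import Pool.Agent.Work.MP_308fa9_nt.EA.MidP
import Pool.Agent.Work.MP_308fa9_nt.EA.Smooth

set_option autoImplicit false

/-!
A positive proportion of the curves is smooth and everywhere locally soluble.
-/

namespace Stoll308.EA

open Polynomial Finset BF

variable {s : ℕ} {n : Fin s → ℕ}

lemma card_tbox (h : ℕ) : ((tbox n h).card : ℝ) = (h : ℝ) ^ ∑ i, (n i + 1) := by
  rw [tbox, Fintype.card_piFinset, prod_congr rfl fun i _ => BF.Els.card_box (n i + 1) h,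
    prod_pow_eq_pow_sum]
  push_cast
  rfl

lemma coT_inj {M : ℤ} (hM : M ≠ 0) : Function.Injective (coT (n := n) M) := by
  intro x y hxy
  funext i k
  have h1 := congrFun (congrFun hxy i) k
  exact BF.Els.co_inj hM h1

theorem els_half (hs : 2 ≤ s) (hn : ∀ i, 4 ≤ n i) (he : ∀ i, Even (n i)) :
    ∃ c₀ : ℝ, 0 < c₀ ∧ ∃ H₀ : ℕ, ∀ H : ℕ, H₀ ≤ H →
      c₀ * H ^ ∑ i, (n i + 1) ≤
        (cnt n (fun a => Smooth a ∧ (∀ (p : ℕ) [Fact p.Prime], Full a ℚ_[p]) ∧ Full a ℝ) H : ℝ) := by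
  classical
  obtain ⟨N, hN⟩ : ∃ N : ℕ, N = ∑ i, (n i + 1) := ⟨_, rfl⟩
  obtain ⟨Q, hQ⟩ : ∃ Q : ℕ, Q = (2 ^ s * (∑ i, n i + 1)) ^ 2 + 16 * (s + 2 ^ s) + 2 := ⟨_, rfl⟩
  have hQ2 : 2 ≤ Q := by omega
  obtain ⟨M, hM⟩ : ∃ M : ℕ, M = 8 * Q.factorial := ⟨_, rfl⟩
  have hM0 : 0 < M := by
    rw [hM]
    exact Nat.mul_pos (by norm_num) (Nat.factorial_pos _)
  have hMz : (0 : ℤ) < (M : ℤ) := by exact_mod_cast hM0
  have hMr : (0 : ℝ) < M := by exact_mod_cast hM0
  have hQM : ∀ p : ℕ, p.Prime → Q < p → ¬ p ∣ M := by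
    intro p hp hQp h
    rw [hM] at h
    rcases (hp.dvd_mul).1 h with h | h
    · have h2 : p ∣ 2 ^ 3 := by norm_num; exact h
      have := Nat.le_of_dvd (by norm_num) (hp.dvd_of_dvd_pow h2)
      omega
    · have := (hp.dvd_factorial).1 h
      omega
  obtain ⟨h₁, hL⟩ := large_primes hn he M hM0 (1 / 4) (by norm_num)
  obtain ⟨H₂, hS⟩ := smooth_small hs hn (1 / (4 * (4 * M) ^ N)) (by positivity)
  refine ⟨1 / (4 * (4 * M) ^ N), by positivity, max H₂ (4 * M * (h₁ + 2)), ?_⟩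
  intro H hH
  have hH2 : H₂ ≤ H := (le_max_left _ _).trans hH
  have hH1 : 4 * M * (h₁ + 2) ≤ H := (le_max_right _ _).trans hH
  obtain ⟨h, hh⟩ : ∃ h : ℕ, h = H / M - 1 := ⟨_, rfl⟩
  have hHM : 4 * (h₁ + 2) ≤ H / M := by
    rw [Nat.le_div_iff_mul_le hM0]
    calc _ = 4 * M * (h₁ + 2) := by ring
      _ ≤ H := hH1
  have hh1 : h₁ ≤ h := by omega
  have hh0 : 1 ≤ h := by omega
  have hMh : M * (h + 1) ≤ H := by
    have : h + 1 = H / M := by omega
    rw [this]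
    exact Nat.mul_div_le H M
  have hhH : (H : ℝ) / (4 * M) ≤ h := by
    have h1 : H < M * (H / M + 1) := Nat.lt_mul_div_succ H hM0
    have h2 : H / M + 1 ≤ 4 * h := by omega
    have h3 : H ≤ M * (4 * h) := h1.le.trans (Nat.mul_le_mul_left _ h2)
    rw [div_le_iff₀ (by positivity)]
    have h4 : (H : ℝ) ≤ M * (4 * h) := by exact_mod_cast h3
    linarith
  set b1 := (tbox n h).filter fun x => ∃ S : Finset (Fin s), S.Nonempty ∧
      ∃ (p : ℕ) (_ : Fact p.Prime), Q < p ∧ p ≤ h ∧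
        SqS (AlgebraicClosure (ZMod p)) (coT (M : ℤ) x) S with hb1
  set b2 := (tbox n h).filter fun x => ∃ S : Finset (Fin s), S.Nonempty ∧
        ∃ (p : ℕ) (_ : Fact p.Prime), h < p ∧ p ≠ 2 ∧ ¬ p ∣ M ∧
          SqS (AlgebraicClosure (ZMod p)) (coT (M : ℤ) x) S with hb2
  have c1 : (b1.card : ℝ) ≤ 1 / 4 * (h : ℝ) ^ N := by
    have h1 := mid_primes hn M Q h hQ2 hQM
    rw [← hN] at h1
    refine h1.trans (mul_le_mul_of_nonneg_right ?_ (by positivity))
    have hQr : (16 * (s + 2 ^ s) : ℝ) ≤ Q := by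
      have : 16 * (s + 2 ^ s) ≤ Q := by omega
      exact_mod_cast this
    have hQ0 : (0 : ℝ) < Q := by
      have : 0 < Q := by omega
      exact_mod_cast this
    rw [div_le_iff₀ hQ0]
    linarith
  have c2 : (b2.card : ℝ) ≤ 1 / 4 * (h : ℝ) ^ N := by
    have h1 := hL h hh1
    rw [← hN] at h1
    exact h1
  set G := tbox n h \ (b1 ∪ b2) with hG
  have cG : 1 / 2 * (h : ℝ) ^ N ≤ G.card := by
    have h1 : (tbox n h).card ≤ G.card + (b1.card + b2.card) := by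
      have h2 : (tbox n h).card ≤ G.card + (b1 ∪ b2).card := by
        rw [hG]
        exact card_le_card_sdiff_add_card
      have h3 : (b1 ∪ b2).card ≤ b1.card + b2.card := card_union_le b1 b2
      omega
    have h2 : ((tbox n h).card : ℝ) ≤ G.card + (b1.card + b2.card) := by exact_mod_cast h1
    rw [card_tbox, ← hN] at h2
    linarith
  have hpos : ∀ x ∈ tbox n h, ∀ i k, 1 ≤ x i k ∧ x i k ≤ h := by
    intro x hx i k
    exact BF.Els.pos_of_box (Fintype.mem_piFinset.1 hx i) k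
  have hbox : ∀ x ∈ tbox n h, ∀ i k, |coT (M : ℤ) x i k| ≤ (H : ℤ) := by
    intro x hx i k
    have h1 := DQ.co_size hM0 (Fintype.mem_piFinset.1 hx i) k
    have h2 : ((M * (h + 1) : ℕ) : ℤ) ≤ (H : ℤ) := by exact_mod_cast hMh
    push_cast at h2
    rw [coT, abs_of_pos h1.1]
    exact h1.2.trans h2
  have hlast : ∀ x ∈ tbox n h, ∀ i, (M : ℤ) ∣ coT (M : ℤ) x i (Fin.last (n i)) - 1 ∧
      0 < coT (M : ℤ) x i (Fin.last (n i)) := by
    intro x hx i
    have h1 := hpos x hx i (Fin.last (n i))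
    unfold coT BF.Els.co
    rw [if_pos (Fin.val_last _), add_sub_cancel_right]
    refine ⟨dvd_mul_right _ _, ?_⟩
    have : 0 ≤ (M : ℤ) * x i (Fin.last (n i)) := mul_nonneg hMz.le (by linarith [h1.1])
    linarith
  set F : (∀ i, Fin (n i + 1) → ℤ) → Prop := fun a =>
    (∀ (p : ℕ) [Fact p.Prime], Full a ℚ_[p]) ∧ Full a ℝ with hF
  have hfull : ∀ x ∈ G, F (coT (M : ℤ) x) := by
    intro x hx
    rw [hG, mem_sdiff, mem_union, not_or] at hx
    obtain ⟨hx, hx1, hx2⟩ := hx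
    rw [hb1, mem_filter, not_and] at hx1
    rw [hb2, mem_filter, not_and] at hx2
    have hx1' := hx1 hx
    have hx2' := hx2 hx
    refine ⟨fun p hp => ?_, full_real _ fun i => (hlast x hx i).2⟩
    by_cases hpQ : p ≤ Q
    · refine full_small _ fun i => dvd_trans ?_ (hlast x hx i).1
      rw [Int.natCast_dvd_natCast, hM]
      exact Nat.mul_dvd_mul_left 8 (Nat.dvd_factorial hp.out.pos hpQ)
    · push Not at hpQ
      refine full_good (by omega) (by omega) _ fun S hS hsq => ?_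
      by_cases hph : p ≤ h
      · exact hx1' ⟨S, hS, p, hp, hpQ, hph, hsq⟩
      · exact hx2' ⟨S, hS, p, hp, by omega, by omega, hQM p hp.out hpQ, hsq⟩
  have hcF : (G.card : ℝ) ≤ cnt n F H := by
    have h1 : G.card ≤ cnt n F H := by
      unfold cnt
      apply card_le_card_of_injOn (coT (M : ℤ))
      · intro x hx
        have hxt := (mem_sdiff.1 hx).1
        rw [mem_coe]
        refine (@mem_filter _ _ (_) _ _).2 ⟨?_, hfull x hx⟩
        rw [Fintype.mem_piFinset]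
        exact fun i => mem_hbox.2 fun k => hbox x hxt i k
      · exact (coT_inj hMz.ne').injOn
    exact_mod_cast h1
  have hsplit : (cnt n F H : ℝ) ≤ cnt n (fun a => Smooth a ∧ F a) H +
      cnt n (fun a => ¬ Smooth a) H := by
    have h1 : cnt n F H ≤ cnt n (fun a => Smooth a ∧ F a) H + cnt n (fun a => ¬ Smooth a) H := by
      refine (cnt_mono H ?_).trans (cnt_or _ _ H)
      intro a _ ha
      by_cases hsm : Smooth a
      · exact Or.inl ⟨hsm, ha⟩
      · exact Or.inr hsm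
    exact_mod_cast h1
  have hSm := hS H hH2
  rw [← hN] at hSm ⊢
  have hpow : ((H : ℝ) / (4 * M)) ^ N ≤ (h : ℝ) ^ N := pow_le_pow_left₀ (by positivity) hhH N
  rw [div_pow] at hpow
  have e1 : 1 / (4 * (4 * (M : ℝ)) ^ N) * H ^ N = 1 / 4 * ((H : ℝ) ^ N / (4 * M) ^ N) := by
    field_simp
  rw [e1] at hSm ⊢
  linarith

end Stoll308.EA
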