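import Pool.Agent.Work.MP_308fa9_nt.EA.Defs
import Pool.Agent.Work.MP_308fa9_nt.BF.ElsA

set_option autoImplicit false

/-!
The primes which divide one of the twists: three of the polynomials have a common zero.
-/

namespace Stoll308.EA

open Polynomial Finset BF

/-- The three polynomials have a common zero modulo `p` (or they all have smaller degree). -/
def Three (p : ℕ) {n m k : ℕ} (a : Fin (n + 1) → ℤ) (b : Fin (m + 1) → ℤ)
    (c : Fin (k + 1) → ℤ) : Prop :=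
  ((p : ℤ) ∣ a 0 ∧ (p : ℤ) ∣ b 0 ∧ (p : ℤ) ∣ c 0) ∨
    ∃ x : ℤ, (p : ℤ) ∣ (GZ ℤ a).eval x ∧ (p : ℤ) ∣ (GZ ℤ b).eval x ∧ (p : ℤ) ∣ (GZ ℤ c).eval x

lemma val_sq {p : ℕ} [Fact p.Prime] {x : ℚ_[p]} (hx : x ≠ 0) (h : IsSquare x) :
    Even x.valuation := by
  obtain ⟨y, rfl⟩ := h
  have hy : y ≠ 0 := fun h0 => hx (by rw [h0, mul_zero])
  rw [Padic.valuation_mul hy hy]
  exact ⟨_, rfl⟩

lemma val_prod {p : ℕ} [Fact p.Prime] {ι : Type*} (S : Finset ι) (f : ι → ℚ_[p])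
    (hf : ∀ i ∈ S, f i ≠ 0) : (∏ i ∈ S, f i).valuation = ∑ i ∈ S, (f i).valuation := by
  classical
  induction S using Finset.induction_on with
  | empty => simp
  | insert a S ha ih =>
    rw [prod_insert ha, sum_insert ha, Padic.valuation_mul (hf a (mem_insert_self _ _))
      (prod_ne_zero_iff.2 fun i hi => hf i (mem_insert_of_mem hi)),
      ih fun i hi => hf i (mem_insert_of_mem hi)]

lemma val_sqfree {p : ℕ} [hp : Fact p.Prime] {m : ℤ} (hm : Squarefree m) :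
    ((m : ℤ) : ℚ_[p]).valuation = if (p : ℤ) ∣ m then 1 else 0 := by
  rw [Padic.valuation_intCast]
  split_ifs with h
  · obtain ⟨q, rfl⟩ := h
    have hq : q ≠ 0 := fun h0 => hm.ne_zero (by rw [h0, mul_zero])
    have hpq : ¬ (p : ℤ) ∣ q := by
      rintro ⟨z, rfl⟩
      have h1 := hm (p : ℤ) ⟨z, by ring⟩
      have h2 := Nat.prime_iff_prime_int.1 hp.out
      exact h2.not_isUnit h1
    rw [padicValInt.mul (by exact_mod_cast hp.out.ne_zero) hq, padicValInt.self hp.out.one_lt,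
      padicValInt.eq_zero_of_not_dvd hpq]
    norm_num
  · rw [padicValInt.eq_zero_of_not_dvd h]
    norm_num

/-- The norm of a value with a pole. -/
lemma norm_large {n : ℕ} {p : ℕ} [hp : Fact p.Prime] (a : Fin (n + 1) → ℤ) (t : ℚ_[p])
    (ht : 1 < ‖t‖) (ha : ¬ (p : ℤ) ∣ a 0) : ‖(GZ ℚ_[p] a).eval t‖ = ‖t‖ ^ n := by
  rw [BF.Els.gz_eval, Fin.sum_univ_succ]
  have h0 : ‖((a 0 : ℤ) : ℚ_[p]) * t ^ (n - ((0 : Fin (n + 1)) : ℕ))‖ = ‖t‖ ^ n := by
    rw [norm_mul, norm_pow]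
    have h1 : ‖((a 0 : ℤ) : ℚ_[p])‖ = 1 := by
      refine le_antisymm (Padic.norm_int_le_one _) (not_lt.1 fun h => ha ?_)
      rwa [Padic.norm_intCast_lt_one_iff] at h
    rw [h1, one_mul]
    simp
  rcases Nat.eq_zero_or_pos n with hn | hn
  · subst hn
    simpa using h0
  have h1 : ‖∑ i : Fin n, ((a i.succ : ℤ) : ℚ_[p]) * t ^ (n - ((i.succ : Fin (n + 1)) : ℕ))‖ ≤
      ‖t‖ ^ (n - 1) := by
    refine IsUltrametricDist.norm_sum_le_of_forall_le_of_nonneg (by positivity) fun i _ => ?_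
    rw [norm_mul, norm_pow]
    calc ‖((a i.succ : ℤ) : ℚ_[p])‖ * ‖t‖ ^ (n - ((i.succ : Fin (n + 1)) : ℕ))
        ≤ 1 * ‖t‖ ^ (n - 1) := by
          refine mul_le_mul (Padic.norm_int_le_one _) ?_ (by positivity) zero_le_one
          refine pow_le_pow_right₀ ht.le ?_
          rw [Fin.val_succ]
          omega
      _ = _ := one_mul _
  have h2 : ‖t‖ ^ (n - 1) < ‖t‖ ^ n := pow_lt_pow_right₀ ht (by omega)
  rw [Padic.add_eq_max_of_ne (by rw [h0]; exact (h1.trans_lt h2).ne'), h0,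
    max_eq_left (h1.trans h2.le)]

lemma even_large {n : ℕ} (hn : Even n) {p : ℕ} [hp : Fact p.Prime] (a : Fin (n + 1) → ℤ)
    (t : ℚ_[p]) (ht : 1 < ‖t‖) (ha : ¬ (p : ℤ) ∣ a 0) (h0 : (GZ ℚ_[p] a).eval t ≠ 0) :
    Even ((GZ ℚ_[p] a).eval t).valuation := by
  have ht0 : t ≠ 0 := fun h => by
    rw [h, norm_zero] at ht
    linarith
  have h1 := norm_large a t ht ha
  rw [← norm_pow, Padic.norm_eq_zpow_neg_valuation h0,
    Padic.norm_eq_zpow_neg_valuation (pow_ne_zero _ ht0), Padic.valuation_pow] at h1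
  have h2 : (1 : ℝ) < p := by exact_mod_cast hp.out.one_lt
  have h3 := zpow_right_injective₀ (by linarith) h2.ne' h1
  have h4 : ((GZ ℚ_[p] a).eval t).valuation = n * t.valuation := by
    have h5 : -((GZ ℚ_[p] a).eval t).valuation = -(n * t.valuation) := h3
    linarith
  rw [h4]
  obtain ⟨k, rfl⟩ := hn
  exact ⟨k * t.valuation, by push_cast; ring⟩

lemma dvd_small {n : ℕ} {p : ℕ} [hp : Fact p.Prime] (a : Fin (n + 1) → ℤ) (u : ℤ_[p]) (x : ℤ)
    (hx : PadicInt.toZMod u = (x : ZMod p))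
    (h0 : ¬ Even ((GZ ℚ_[p] a).eval (u : ℚ_[p])).valuation) : (p : ℤ) ∣ (GZ ℤ a).eval x := by
  set V : ℤ_[p] := ∑ i : Fin (n + 1), (a i : ℤ_[p]) * u ^ (n - (i : ℕ)) with hV
  have hVc : (V : ℚ_[p]) = (GZ ℚ_[p] a).eval (u : ℚ_[p]) := by
    rw [BF.Els.gz_eval, hV]
    push_cast [PadicInt.coe_sum]
    rfl
  have hVz : PadicInt.toZMod V = 0 := by
    by_contra h
    apply h0
    rw [← hVc]
    have h1 : ‖V‖ = 1 := norm_eq_one_iff_toZMod.2 h
    have h2 : V ≠ 0 := fun h => by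
      rw [h, norm_zero] at h1
      exact zero_ne_one h1
    have h3 : ‖(V : ℚ_[p])‖ = 1 := h1
    rw [Padic.norm_eq_zpow_neg_valuation (PadicInt.coe_ne_zero.2 h2)] at h3
    have h4 : (1 : ℝ) < p := by exact_mod_cast hp.out.one_lt
    have h5 := (zpow_eq_one_iff_right₀ (by linarith) h4.ne').1 h3
    rw [neg_eq_zero] at h5
    rw [h5]
    exact ⟨0, rfl⟩
  have h1 : (((GZ ℤ a).eval x : ℤ) : ZMod p) = 0 := by
    rw [← hVz, hV, GZ, gpol, eval_finsetSum]
    push_cast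
    rw [map_sum]
    refine sum_congr rfl fun i _ => ?_
    rw [map_mul, map_pow, map_intCast, hx]
    simp
  exact (ZMod.intCast_zmod_eq_zero_iff_dvd _ _).1 h1

theorem three_of_dvd {r s : ℕ} {n : Fin s → ℕ} (he : ∀ i, Even (n i))
    {R : Fin r → Finset (Fin s)} (hR : Sep R) (a : ∀ i, Fin (n i + 1) → ℤ) (p : ℕ)
    [Fact p.Prime] (t : ℚ_[p]) (ht : Pt R a ℚ_[p] t) (m : Fin s → ℤ)
    (hm : ∀ i, Squarefree (m i))
    (hmt : ∀ i, IsSquare (((m i : ℤ) : ℚ_[p]) * (GZ ℚ_[p] (a i)).eval t)) (i : Fin s)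
    (hi : (p : ℤ) ∣ m i) :
    ∃ i₁ i₂ i₃, i₁ ≠ i₂ ∧ i₁ ≠ i₃ ∧ i₂ ≠ i₃ ∧ Three p (a i₁) (a i₂) (a i₃) := by
  classical
  have hpar : ∀ k, Even ((if (p : ℤ) ∣ m k then (1 : ℤ) else 0) +
      ((GZ ℚ_[p] (a k)).eval t).valuation) := by
    intro k
    have h1 : ((m k : ℤ) : ℚ_[p]) ≠ 0 := Int.cast_ne_zero.2 (hm k).ne_zero
    have h2 := val_sq (mul_ne_zero h1 (ht.1 k)) (hmt k)
    rwa [Padic.valuation_mul h1 (ht.1 k), val_sqfree (hm k)] at h2
  have hodd : ∀ k, (p : ℤ) ∣ m k → ¬ Even ((GZ ℚ_[p] (a k)).eval t).valuation := by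
    intro k hk he'
    have h1 := hpar k
    rw [if_pos hk] at h1
    have h2 := (Int.even_add.1 h1).2 he'
    exact absurd h2 (by decide)
  have hcard : ∀ j, Even ((R j).filter fun k => (p : ℤ) ∣ m k).card := by
    intro j
    have h1 := val_sq (prod_ne_zero_iff.2 fun i _ => ht.1 i) (ht.2 j)
    rw [val_prod _ _ fun i _ => ht.1 i] at h1
    have h2 : Even (∑ k ∈ R j, ((if (p : ℤ) ∣ m k then (1 : ℤ) else 0) +
        ((GZ ℚ_[p] (a k)).eval t).valuation)) := Finset.even_sum _ fun k _ => hpar k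
    rw [sum_add_distrib, Int.even_add] at h2
    have h3 := h2.2 h1
    rw [sum_boole] at h3
    exact_mod_cast h3
  set S : Finset (Fin s) := univ.filter fun k => (p : ℤ) ∣ m k with hS
  have hmem : ∀ k, k ∈ S ↔ (p : ℤ) ∣ m k := fun k => by simp [hS]
  have hfil : ∀ j, ((R j).filter fun k => (p : ℤ) ∣ m k) = S.filter fun k => k ∈ R j := by
    intro j
    ext k
    simp [hS, and_comm]
  have h3 : 2 < S.card := by
    by_contra hcon
    have h0 : 0 < S.card := card_pos.2 ⟨i, (hmem i).2 hi⟩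
    rcases (by omega : S.card = 1 ∨ S.card = 2) with h1 | h2
    · obtain ⟨k, hk⟩ := card_eq_one.1 h1
      obtain ⟨j, hj⟩ := hR.1 k
      have := hcard j
      rw [hfil, hk, filter_singleton, if_pos hj, card_singleton] at this
      exact absurd this (by decide)
    · obtain ⟨k, l, hkl, hk⟩ := card_eq_two.1 h2
      obtain ⟨j, hj⟩ := hR.2 k l hkl
      have := hcard j
      rw [hfil, hk, filter_insert, filter_singleton] at this
      by_cases hkj : k ∈ R j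
      · have hlj : l ∉ R j := fun h => hj ⟨fun _ => h, fun _ => hkj⟩
        rw [if_pos hkj, if_neg hlj] at this
        simp at this
      · have hlj : l ∈ R j := by
          by_contra h
          exact hj ⟨fun h' => absurd h' hkj, fun h' => absurd h' h⟩
        rw [if_neg hkj, if_pos hlj] at this
        simp at this
  obtain ⟨i₁, h1, i₂, h2, i₃, h3, h12, h13, h23⟩ := two_lt_card.1 h3
  rw [hmem] at h1 h2 h3
  refine ⟨i₁, i₂, i₃, h12, h13, h23, ?_⟩
  rcases le_or_gt ‖t‖ 1 with htn | htn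
  · right
    obtain ⟨x, hx⟩ := ZMod.intCast_surjective (PadicInt.toZMod (⟨t, htn⟩ : ℤ_[p]))
    exact ⟨x, dvd_small _ ⟨t, htn⟩ x hx.symm (hodd _ h1), dvd_small _ ⟨t, htn⟩ x hx.symm
      (hodd _ h2), dvd_small _ ⟨t, htn⟩ x hx.symm (hodd _ h3)⟩
  · left
    refine ⟨?_, ?_, ?_⟩
    · by_contra h
      exact hodd _ h1 (even_large (he _) _ t htn h (ht.1 _))
    · by_contra h
      exact hodd _ h2 (even_large (he _) _ t htn h (ht.1 _))
    · by_contra h
      exact hodd _ h3 (even_large (he _) _ t htn h (ht.1 _))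

end Stoll308.EA
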