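import Pool.Agent.Work.MP_308fa9_nt.EA.Full
import Pool.Agent.Work.MP_308fa9_nt.EA.Cnt
import Pool.Agent.Work.MP_308fa9_nt.DQ.ElsB

set_option autoImplicit false

/-!
The parameters for which a product of some of the polynomials is a constant times a square
modulo `p`.
-/

namespace Stoll308.EA

open Polynomial Finset BF

/-- The box of the parameters. -/
noncomputable abbrev tbox {s : ℕ} (n : Fin s → ℕ) (h : ℕ) : Finset (∀ i, Fin (n i + 1) → ℤ) :=
  Fintype.piFinset fun i => BF.Els.box (n i + 1) h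

/-- The coefficients. -/
def coT {s : ℕ} {n : Fin s → ℕ} (M : ℤ) (x : ∀ i, Fin (n i + 1) → ℤ) :
    ∀ i, Fin (n i + 1) → ℤ :=
  fun i => BF.Els.co M (x i)

open Classical in
/-- The parameters with `∏_{i ∈ S} g_i` a constant times a square modulo `p`. -/
noncomputable def SB {s : ℕ} (n : Fin s → ℕ) (M : ℤ) (h p : ℕ) (S : Finset (Fin s)) :
    Finset (∀ i, Fin (n i + 1) → ℤ) :=
  (tbox n h).filter fun x =>
    (∀ i ∈ S, ¬ ((p : ℤ) ∣ BF.Els.co M (x i) 0 ∧ (p : ℤ) ∣ BF.Els.co M (x i) 1)) ∧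
      ∃ _ : Fact p.Prime, SqS (AlgebraicClosure (ZMod p)) (coT M x) S

variable {s : ℕ} {n : Fin s → ℕ}

/-- Two members of a fibre over a product of polynomials. -/
private lemma fib_unique {m : ℕ} (hm : 4 ≤ m) {p : ℕ} [Fact p.Prime] (hp2 : p ≠ 2)
    {φ : (AlgebraicClosure (ZMod p))[X]} {b b' : Fin (m + 1) → ℤ} (hφ : φ ≠ 0)
    (hb : ∃ (c : AlgebraicClosure (ZMod p)) (u : (AlgebraicClosure (ZMod p))[X]),
      φ * GZ (AlgebraicClosure (ZMod p)) b = C c * u ^ 2)
    (hb' : ∃ (c : AlgebraicClosure (ZMod p)) (u : (AlgebraicClosure (ZMod p))[X]),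
      φ * GZ (AlgebraicClosure (ZMod p)) b' = C c * u ^ 2)
    (hbb : ∀ i : Fin (m + 1), (i : ℕ) + 1 < m → b i = b' i)
    (h01 : ¬ ((p : ℤ) ∣ b 0 ∧ (p : ℤ) ∣ b 1)) (i : Fin (m + 1)) : (p : ℤ) ∣ b i - b' i := by
  have h2K : (2 : AlgebraicClosure (ZMod p)) ≠ 0 := by
    intro h0
    apply BG.Els.two_ne (p := p) hp2
    apply (algebraMap (ZMod p) (AlgebraicClosure (ZMod p))).injective
    rw [map_ofNat, map_zero]
    exact h0
  have hdiff : (GZ (AlgebraicClosure (ZMod p)) b - GZ (AlgebraicClosure (ZMod p)) b').natDegree ≤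
      1 := by
    rw [natDegree_le_iff_coeff_eq_zero]
    intro N hN
    rw [coeff_sub, sub_eq_zero]
    by_cases hNn : N ≤ m
    · rw [BF.Els.gz_coeff _ hNn, BF.Els.gz_coeff _ hNn, hbb _ (by simp only; omega)]
    · rw [BF.Els.gz_coeff_gt _ (by omega), BF.Els.gz_coeff_gt _ (by omega)]
  have hdeg := DQ.three_le_deg (K := AlgebraicClosure (ZMod p)) hm (b := b) (by
    rw [BG.PEls.cast_eq_zero (p := p), BG.PEls.cast_eq_zero (p := p)]
    exact h01)
  have key := DQ.uniq h2K φ _ _ hφ hdeg hdiff hb hb'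
  have hi := i.2
  have h3 := congrArg (fun g : (AlgebraicClosure (ZMod p))[X] => g.coeff (m - i)) key
  rw [BF.Els.gz_coeff _ (Nat.sub_le _ _), BF.Els.gz_coeff _ (Nat.sub_le _ _)] at h3
  have h4 : (⟨m - (m - (i : ℕ)), by omega⟩ : Fin (m + 1)) = i := by
    apply Fin.ext
    simp only
    omega
  rw [h4] at h3
  rw [← BG.PEls.cast_eq_zero (K := AlgebraicClosure (ZMod p))]
  push_cast
  rw [h3, sub_self]

/-- All the vectors fixed but the one of index `l ∈ S`. -/
theorem card_upd (hn : ∀ i, 4 ≤ n i) {M : ℤ} {h p : ℕ} (hp : p.Prime) (hp2 : p ≠ 2)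
    (hpM : ¬ (p : ℤ) ∣ M) (S : Finset (Fin s)) (l : Fin s) (hl : l ∈ S)
    (x : ∀ i, Fin (n i + 1) → ℤ) :
    (((BF.Els.box (n l + 1) h).filter fun y => Function.update x l y ∈ SB n M h p S).card : ℝ) ≤
      (h : ℝ) ^ (n l - 1) * ((h : ℝ) / p + 1) ^ 2 := by
  classical
  have hF := Fact.mk hp
  set T : Finset (Fin (n l + 1) → ℤ) :=
    (BF.Els.box (n l + 1) h).filter fun y => Function.update x l y ∈ SB n M h p S with hT
  have hm := hn l
  set u : Fin (n l + 1) := ⟨n l - 1, by omega⟩ with hu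
  set w : Fin (n l + 1) := ⟨n l, by omega⟩ with hw
  have huw : u ≠ w := by
    intro h0
    have := congrArg Fin.val h0
    simp only [hu, hw] at this
    omega
  have hc : ({u, w} : Finset (Fin (n l + 1))).card = 2 := card_pair huw
  have hmem : ∀ y ∈ T, (∀ i ∈ S, ¬ ((p : ℤ) ∣ BF.Els.co M (Function.update x l y i) 0 ∧
      (p : ℤ) ∣ BF.Els.co M (Function.update x l y i) 1)) ∧
      SqS (AlgebraicClosure (ZMod p)) (coT M (Function.update x l y)) S := by
    intro y hy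
    rw [hT, mem_filter] at hy
    have h2 := hy.2
    rw [SB, mem_filter] at h2
    obtain ⟨-, h3, _, h4⟩ := h2
    exact ⟨h3, h4⟩
  set φ : (AlgebraicClosure (ZMod p))[X] :=
    ∏ i ∈ S.erase l, GZ (AlgebraicClosure (ZMod p)) (BF.Els.co M (x i)) with hφdef
  have hprod : ∀ y, ∏ i ∈ S, GZ (AlgebraicClosure (ZMod p)) (coT M (Function.update x l y) i) =
      φ * GZ (AlgebraicClosure (ZMod p)) (BF.Els.co M y) := by
    intro y
    rw [← Finset.prod_erase_mul S _ hl]
    congr 1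
    · apply prod_congr rfl
      intro i hi
      unfold coT
      rw [Function.update_of_ne (ne_of_mem_erase hi)]
    · unfold coT
      rw [Function.update_self]
  have h1 := BF.Els.card_le_mod hp.pos {u, w} T (by rw [hT]; exact filter_subset _ _) (by
    intro b hb b' hb' hbb i _
    obtain ⟨h2, c, v, h3⟩ := hmem b hb
    obtain ⟨-, c', v', h3'⟩ := hmem b' hb'
    rw [hprod] at h3 h3'
    apply BF.Els.dvd_of_co hp hpM
    have hφ : φ ≠ 0 := by
      rw [hφdef, prod_ne_zero_iff]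
      intro j hj
      have hjl := ne_of_mem_erase hj
      have h5 := h2 j (mem_of_mem_erase hj)
      rw [Function.update_of_ne hjl] at h5
      intro h0
      have h6 := DQ.three_le_deg (K := AlgebraicClosure (ZMod p)) (hn j)
        (b := BF.Els.co M (x j)) (by
          rw [BG.PEls.cast_eq_zero (p := p), BG.PEls.cast_eq_zero (p := p)]
          exact h5)
      rw [h0, natDegree_zero] at h6
      omega
    have h01 := h2 l hl
    rw [Function.update_self] at h01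
    apply fib_unique hm hp2 hφ ⟨c, v, h3⟩ ⟨c', v', h3'⟩ _ h01
    intro j hj
    have h4 : b j = b' j := by
      apply hbb
      rw [mem_insert, mem_singleton, not_or]
      constructor
      · intro h0
        have := congrArg Fin.val h0
        simp only [hu] at this
        omega
      · intro h0
        have := congrArg Fin.val h0
        simp only [hw] at this
        omega
    simp only [BF.Els.co, h4])
  rw [hc] at h1
  exact h1

/-- The fibre bound and the volume of the other coordinates. -/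
private lemma vol_bound (hn : ∀ i, 4 ≤ n i) {h p : ℕ} (hp : p.Prime) (hph : p ≤ h) (l : Fin s) :
    (h : ℝ) ^ (n l - 1) * ((h : ℝ) / p + 1) ^ 2 *
      ∏ i ∈ {l}ᶜ, ((BF.Els.box (n i + 1) h).card : ℝ) ≤
    4 / (p : ℝ) ^ 2 * (h : ℝ) ^ ∑ i, (n i + 1) := by
  have hp0 : (0 : ℝ) < p := by exact_mod_cast hp.pos
  have hph' : (p : ℝ) ≤ h := by exact_mod_cast hph
  have h1 : ∏ i ∈ {l}ᶜ, ((BF.Els.box (n i + 1) h).card : ℝ) =
      (h : ℝ) ^ ∑ i ∈ {l}ᶜ, (n i + 1) := by
    rw [← prod_pow_eq_pow_sum]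
    apply prod_congr rfl
    intro i _
    rw [BF.Els.card_box]
    push_cast
    rfl
  have h2 : ∑ i, (n i + 1) = (n l - 1) + 2 + ∑ i ∈ {l}ᶜ, (n i + 1) := by
    rw [Fintype.sum_eq_add_sum_compl l]
    have := hn l
    omega
  have h3 : (h : ℝ) / p + 1 ≤ 2 * h / p := by
    rw [two_mul, add_div]
    have : (1 : ℝ) ≤ (h : ℝ) / p := by rwa [le_div_iff₀ hp0, one_mul]
    linarith
  rw [h1, h2, pow_add (h : ℝ) (n l - 1 + 2), pow_add (h : ℝ) (n l - 1) 2]
  calc (h : ℝ) ^ (n l - 1) * ((h : ℝ) / p + 1) ^ 2 * (h : ℝ) ^ ∑ i ∈ {l}ᶜ, (n i + 1)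
      ≤ (h : ℝ) ^ (n l - 1) * (2 * h / p) ^ 2 * (h : ℝ) ^ ∑ i ∈ {l}ᶜ, (n i + 1) := by
        gcongr
    _ = _ := by
        field_simp
        ring

theorem card_SB (hn : ∀ i, 4 ≤ n i) {M : ℤ} {h p : ℕ} (hp : p.Prime) (hp2 : p ≠ 2)
    (hpM : ¬ (p : ℤ) ∣ M) (hph : p ≤ h) (S : Finset (Fin s)) (hS : S.Nonempty) :
    ((SB n M h p S).card : ℝ) ≤ 4 / (p : ℝ) ^ 2 * (h : ℝ) ^ ∑ i, (n i + 1) := by
  classical
  obtain ⟨l, hl⟩ := hS
  refine le_trans (card_pi_fib (fun i => BF.Els.box (n i + 1) h) l (SB n M h p S) ?_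
    ((h : ℝ) ^ (n l - 1) * ((h : ℝ) / p + 1) ^ 2) (by positivity) ?_) (vol_bound hn hp hph l)
  · unfold SB
    exact filter_subset _ _
  · intro a _
    exact card_upd hn hp hp2 hpM S l hl a

/-- The first two coefficients are divisible by `p`. -/
theorem card_two_lead (hn : ∀ i, 4 ≤ n i) {M : ℤ} {h p : ℕ} (hp : p.Prime)
    (hpM : ¬ (p : ℤ) ∣ M) (hph : p ≤ h) (i : Fin s) :
    (((tbox n h).filter fun x => (p : ℤ) ∣ BF.Els.co M (x i) 0 ∧
      (p : ℤ) ∣ BF.Els.co M (x i) 1).card : ℝ) ≤ 4 / (p : ℝ) ^ 2 * (h : ℝ) ^ ∑ i, (n i + 1) := by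
  classical
  refine le_trans (card_pi_fib (fun i => BF.Els.box (n i + 1) h) i _ (filter_subset _ _)
    ((h : ℝ) ^ (n i - 1) * ((h : ℝ) / p + 1) ^ 2) (by positivity) ?_) (vol_bound hn hp hph i)
  intro a _
  refine le_trans ?_ (BF.Els.card_S1 (hn i) hp hpM)
  rw [Nat.cast_le]
  apply card_le_card
  intro y hy
  rw [mem_filter, mem_filter] at hy
  rw [BF.Els.S1, mem_filter]
  obtain ⟨h1, -, h2⟩ := hy
  rw [Function.update_self] at h2
  exact ⟨h1, h2⟩

end Stoll308.EA
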