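import Pool.Agent.Work.MP_308fa9_nt.EA.Weil
import Pool.Agent.Work.MP_308fa9_nt.EA.Defs
import Pool.Agent.Work.MP_308fa9_nt.DQ.ElsPt

set_option autoImplicit false

/-!
Local points: all the polynomials have nonzero square values.
-/

namespace Stoll308.EA

open Polynomial Finset BF

/-- There is `t` such that all `g_i(t)` are nonzero squares. -/
def Full {s : ℕ} {n : Fin s → ℕ} (a : ∀ i, Fin (n i + 1) → ℤ) (K : Type*) [Field K] : Prop :=
  ∃ t : K, ∀ i, (GZ K (a i)).eval t ≠ 0 ∧ IsSquare ((GZ K (a i)).eval t)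

/-- The product of the `g_i`, `i ∈ S`, is a constant times a square over `K`. -/
def SqS {s : ℕ} {n : Fin s → ℕ} (K : Type*) [Field K] (a : ∀ i, Fin (n i + 1) → ℤ)
    (S : Finset (Fin s)) : Prop :=
  ∃ (c : K) (u : K[X]), ∏ i ∈ S, GZ K (a i) = C c * u ^ 2

lemma Full.pt {r s : ℕ} {n : Fin s → ℕ} {a : ∀ i, Fin (n i + 1) → ℤ} {K : Type*} [Field K]
    (h : Full a K) (R : Fin r → Finset (Fin s)) : ∃ t, Pt R a K t := by
  obtain ⟨t, ht⟩ := h
  refine ⟨t, fun i => (ht i).1, fun j => ?_⟩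
  choose y hy using fun i => (ht i).2
  refine ⟨∏ i ∈ R j, y i, ?_⟩
  rw [← prod_mul_distrib]
  exact prod_congr rfl fun i _ => hy i

lemma full_lift {n : ℕ} {p : ℕ} [hp : Fact p.Prime] (hp2 : p ≠ 2) (a : Fin (n + 1) → ℤ)
    {x y : ZMod p} (u : ℤ_[p]) (hu : PadicInt.toZMod u = x) (hy : y ≠ 0)
    (hxy : y ^ 2 = (GZ (ZMod p) a).eval x) :
    (GZ ℚ_[p] a).eval (u : ℚ_[p]) ≠ 0 ∧ IsSquare ((GZ ℚ_[p] a).eval (u : ℚ_[p])) := by
  obtain ⟨w, hw⟩ := DQ.ElsPtAux.lift hp2 a u hu hy hxy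
  refine ⟨?_, w, by rw [← hw, sq]⟩
  intro h0
  rw [BF.Els.gz_eval] at hxy h0
  have hVm : PadicInt.toZMod (∑ i : Fin (n + 1), (a i : ℤ_[p]) * u ^ (n - (i : ℕ))) = y ^ 2 := by
    rw [hxy]
    simp only [map_mul, map_pow, map_intCast, hu, map_sum]
  have hV0 : (∑ i : Fin (n + 1), (a i : ℤ_[p]) * u ^ (n - (i : ℕ))) = 0 := by
    apply Subtype.coe_injective
    push_cast [PadicInt.coe_sum]
    exact h0
  rw [hV0, map_zero] at hVm
  exact pow_ne_zero 2 hy hVm.symm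

theorem full_good {s : ℕ} {n : Fin s → ℕ} {p : ℕ} [hp : Fact p.Prime] (hp2 : p ≠ 2)
    (hbig : (2 ^ s * (∑ i, n i + 1)) ^ 2 ≤ p) (a : ∀ i, Fin (n i + 1) → ℤ)
    (h : ∀ S : Finset (Fin s), S.Nonempty → ¬ SqS (AlgebraicClosure (ZMod p)) a S) :
    Full a ℚ_[p] := by
  obtain ⟨x, hx⟩ := exists_all_sq hp2 (fun i => GZ (ZMod p) (a i)) (by
      refine le_trans ?_ hbig
      have d1 : ∑ i, (GZ (ZMod p) (a i)).natDegree ≤ ∑ i, n i :=
        sum_le_sum fun i _ => BF.Els.gz_natDegree_le _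
      exact Nat.pow_le_pow_left (Nat.mul_le_mul_left _ (by omega)) 2) (by
      intro S hS e u he
      apply h S hS
      have h4 := congrArg
        (Polynomial.map (algebraMap (ZMod p) (AlgebraicClosure (ZMod p)))) he
      rw [Polynomial.map_prod, Polynomial.map_mul, map_C, Polynomial.map_pow] at h4
      simp only [DQ.ElsPtAux.gz_cast] at h4
      exact ⟨_, _, h4⟩)
  obtain ⟨u, hu⟩ := ZMod.ringHom_surjective (PadicInt.toZMod : ℤ_[p] →+* ZMod p) x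
  refine ⟨(u : ℚ_[p]), fun i => ?_⟩
  obtain ⟨y, hy, hxy⟩ := hx i
  exact full_lift hp2 (a i) u hu hy hxy

theorem full_small {s : ℕ} {n : Fin s → ℕ} {p : ℕ} [hp : Fact p.Prime]
    (a : ∀ i, Fin (n i + 1) → ℤ) (h : ∀ i, ((8 * p : ℕ) : ℤ) ∣ a i (Fin.last (n i)) - 1) :
    Full a ℚ_[p] := by
  refine ⟨0, fun i => ?_⟩
  rw [DQ.ElsPtAux.gz_zero]
  refine ⟨?_, ?_⟩
  · rw [Int.cast_ne_zero]
    intro h0
    have h1 := h i
    rw [h0, zero_sub] at h1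
    have h2 : ((8 * p : ℕ) : ℤ) ∣ ((1 : ℕ) : ℤ) := by simpa using h1
    rw [Int.natCast_dvd_natCast] at h2
    have h3 := Nat.le_of_dvd one_pos h2
    have h4 := hp.out.two_le
    omega
  · obtain ⟨w, hw⟩ := BG.Els.isSquare_padic (p := p) (h i)
    exact ⟨w, by rw [← hw, sq]⟩

theorem full_real {s : ℕ} {n : Fin s → ℕ} (a : ∀ i, Fin (n i + 1) → ℤ)
    (h : ∀ i, 0 < a i (Fin.last (n i))) : Full a ℝ := by
  refine ⟨0, fun i => ?_⟩
  rw [DQ.ElsPtAux.gz_zero]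
  have h1 : (0 : ℝ) < ((a i (Fin.last (n i)) : ℤ) : ℝ) := by exact_mod_cast h i
  exact ⟨h1.ne', _, (Real.mul_self_sqrt h1.le).symm⟩

end Stoll308.EA
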