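import Pool.Agent.Work.MP_308fa9_nt.EA.Cnt
import Pool.Agent.Work.MP_308fa9_nt.SC.SqSmall

set_option autoImplicit false

/-!
Few tuples have a rational point at infinity.
-/

namespace Stoll308.EA

open Polynomial Finset BF

/-- The number of `x` with `|x| ≤ H` such that `m x` is a square is at most `2 √H + 1`. -/
theorem card_sq (m : ℤ) (hm : m ≠ 0) (H : ℕ) :
    (((Icc (-(H : ℤ)) (H : ℤ)).filter fun x => IsSquare (m * x)).card : ℝ) ≤
      2 * Real.sqrt H + 1 := by
  classical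
  obtain ⟨s, hs⟩ := SC.exists_cls (-m) (neg_ne_zero.2 hm)
  have h1 : ((Icc (-(H : ℤ)) (H : ℤ)).filter fun x => IsSquare (m * x)) ⊆
      (range (Nat.sqrt H + 1)).image fun r : ℕ => s * (r : ℤ) ^ 2 := by
    intro x hx
    rw [mem_filter, mem_Icc] at hx
    obtain ⟨t, ht, h5⟩ := hs x (by
      have e : -(-m * x) = m * x := by ring
      rw [e]
      exact hx.2)
    refine mem_image.2 ⟨t, ?_, h5.symm⟩
    rw [mem_range, Nat.lt_succ_iff, Nat.le_sqrt']
    have := ht.trans (abs_le.2 hx.1)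
    exact_mod_cast this
  have h2 : ((Icc (-(H : ℤ)) (H : ℤ)).filter fun x => IsSquare (m * x)).card ≤ Nat.sqrt H + 1 :=
    (card_le_card h1).trans (card_image_le.trans (by rw [card_range]))
  have h3 : (Nat.sqrt H : ℝ) ≤ √(H : ℝ) := Real.nat_sqrt_le_real_sqrt
  have h4 : (((Icc (-(H : ℤ)) (H : ℤ)).filter fun x => IsSquare (m * x)).card : ℝ) ≤
      (Nat.sqrt H : ℝ) + 1 := by exact_mod_cast h2
  have h5 : (0 : ℝ) ≤ √(H : ℝ) := Real.sqrt_nonneg _
  linarith

namespace InfAux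

/-- The vectors with a given property of the leading coefficient. -/
lemma card_lead (n H : ℕ) (P : ℤ → Prop) [DecidablePred P] :
    ((hbox n H).filter fun y => P (y 0)).card ≤
      ((Icc (-(H : ℤ)) (H : ℤ)).filter P).card * (2 * H + 1) ^ n := by
  classical
  have h1 : ((hbox n H).filter fun y => P (y 0)) ⊆
      Fintype.piFinset fun k : Fin (n + 1) =>
        if k = 0 then (Icc (-(H : ℤ)) (H : ℤ)).filter P else Icc (-(H : ℤ)) (H : ℤ) := by
    intro y hy
    rw [mem_filter] at hy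
    rw [Fintype.mem_piFinset]
    intro k
    have hk := Fintype.mem_piFinset.1 hy.1 k
    split_ifs with h
    · subst h
      exact mem_filter.2 ⟨hk, hy.2⟩
    · exact hk
  refine (card_le_card h1).trans (le_of_eq ?_)
  rw [Fintype.card_piFinset, Fin.prod_univ_succ, if_pos rfl]
  congr 1
  have e1 : ∀ k : Fin n, (if (Fin.succ k) = 0 then (Icc (-(H : ℤ)) (H : ℤ)).filter P
      else Icc (-(H : ℤ)) (H : ℤ)).card = 2 * H + 1 := by
    intro k
    rw [if_neg (Fin.succ_ne_zero k), Int.card_Icc]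
    omega
  rw [prod_congr rfl fun k _ => e1 k, prod_const, card_univ, Fintype.card_fin]

/-- One leading coefficient is `0`. -/
lemma zero_small {s : ℕ} (n : Fin s → ℕ) (i : Fin s) : Small n (fun a => a i 0 = 0) := by
  refine small_one i (fun y => y 0 = 0) fun ε hε => ?_
  obtain ⟨H₀, h⟩ := BF.lead_small (n i) ε hε
  refine ⟨H₀, fun H hH => le_trans ?_ (h H hH)⟩
  exact_mod_cast BF.cnt_mono H fun a _ h => Or.inl h

/-- The product of the leading coefficients is a square. -/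
lemma sq_small {s : ℕ} (n : Fin s → ℕ) (T : Finset (Fin s)) (l : Fin s) (hl : l ∉ T) :
    Small n (fun a => (∏ i ∈ T, a i 0) ≠ 0 ∧ IsSquare ((∏ i ∈ T, a i 0) * a l 0)) := by
  classical
  intro ε hε
  set M : ℕ := ∑ k ∈ {l}ᶜ, (n k + 1) with hM
  have hN : ∑ i, (n i + 1) = (n l + 1) + M := by
    rw [hM]
    exact Fintype.sum_eq_add_sum_compl l _
  set c : ℝ := 3 * 3 ^ (n l + M) / ε with hc
  refine ⟨max 1 ⌈c ^ 2⌉₊, fun H hH => ?_⟩
  have hH1 : 1 ≤ H := (le_max_left _ _).trans hH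
  have hH1' : (1 : ℝ) ≤ H := by exact_mod_cast hH1
  have hcH : c ≤ √(H : ℝ) := by
    apply Real.le_sqrt_of_sq_le
    exact (Nat.le_ceil _).trans (by exact_mod_cast (le_max_right _ _).trans hH)
  have hs1 : 1 ≤ √(H : ℝ) := Real.one_le_sqrt.2 hH1'
  have h1 := card_pi_fib (fun i => hbox (n i) H) l
    ((Fintype.piFinset fun i => hbox (n i) H).filter
      fun a => (∏ i ∈ T, a i 0) ≠ 0 ∧ IsSquare ((∏ i ∈ T, a i 0) * a l 0)) (filter_subset _ _)
    ((2 * √(H : ℝ) + 1) * (2 * H + 1) ^ n l) (by positivity) (by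
      intro a ha
      rw [mem_filter] at ha
      obtain ⟨m, hm⟩ : ∃ m : ℤ, m = ∏ i ∈ T, a i 0 := ⟨_, rfl⟩
      have hm0 : m ≠ 0 := by
        rw [hm]
        exact ha.2.1
      have e1 : ((hbox (n l) H).filter fun y => Function.update a l y ∈
          (Fintype.piFinset fun i => hbox (n i) H).filter
            fun a => (∏ i ∈ T, a i 0) ≠ 0 ∧ IsSquare ((∏ i ∈ T, a i 0) * a l 0)) ⊆
          (hbox (n l) H).filter fun y => IsSquare (m * y 0) := by
        intro y hy
        rw [mem_filter] at hy ⊢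
        refine ⟨hy.1, ?_⟩
        have h2 := (mem_filter.1 hy.2).2.2
        have h3 : ∏ i ∈ T, Function.update a l y i 0 = m := by
          rw [hm]
          refine prod_congr rfl fun i hi => ?_
          have hil : i ≠ l := by
            rintro rfl
            exact hl hi
          rw [Function.update_of_ne hil]
        rw [h3, Function.update_self] at h2
        exact h2
      have e2 := (card_le_card e1).trans (card_lead (n l) H fun x => IsSquare (m * x))
      have e3 := card_sq m hm0 H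
      calc _ ≤ (((Icc (-(H : ℤ)) (H : ℤ)).filter fun x => IsSquare (m * x)).card : ℝ) *
            (2 * H + 1) ^ n l := by exact_mod_cast e2
        _ ≤ _ := by gcongr)
  have h2 : ∏ i ∈ {l}ᶜ, ((hbox (n i) H).card : ℝ) = (2 * (H : ℝ) + 1) ^ M := by
    rw [hM, ← prod_pow_eq_pow_sum]
    refine prod_congr rfl fun i _ => ?_
    rw [card_hbox]
    push_cast
    ring
  rw [h2] at h1
  have h3 : (cnt n (fun a => (∏ i ∈ T, a i 0) ≠ 0 ∧ IsSquare ((∏ i ∈ T, a i 0) * a l 0)) H : ℝ) ≤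
      (2 * √(H : ℝ) + 1) * (2 * H + 1) ^ n l * (2 * (H : ℝ) + 1) ^ M := by
    unfold cnt
    convert h1
  refine h3.trans ?_
  have hc2 : 3 * 3 ^ (n l + M) = ε * c := by
    rw [hc]
    field_simp
  calc (2 * √(H : ℝ) + 1) * (2 * H + 1) ^ n l * (2 * (H : ℝ) + 1) ^ M
      = (2 * √(H : ℝ) + 1) * (2 * (H : ℝ) + 1) ^ (n l + M) := by rw [pow_add]; ring
    _ ≤ (3 * √(H : ℝ)) * (3 * H) ^ (n l + M) :=
        mul_le_mul (by linarith) (pow_le_three hH1 _) (by positivity) (by positivity)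
    _ = (3 * 3 ^ (n l + M)) * √(H : ℝ) * H ^ (n l + M) := by rw [mul_pow]; ring
    _ = ε * c * √(H : ℝ) * H ^ (n l + M) := by rw [hc2]
    _ ≤ ε * √(H : ℝ) * √(H : ℝ) * H ^ (n l + M) := by gcongr
    _ = ε * (√(H : ℝ) * √(H : ℝ)) * H ^ (n l + M) := by ring
    _ = ε * H ^ ∑ i, (n i + 1) := by
        rw [Real.mul_self_sqrt (by positivity), hN, show n l + 1 + M = (n l + M) + 1 by ring,
          pow_succ]
        ring

end InfAux

theorem inf_small {r s : ℕ} (n : Fin s → ℕ) (R : Fin r → Finset (Fin s)) (hR : Sep R)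
    (hs : 0 < s) :
    Small n (fun a => ∀ j, IsSquare (∏ i ∈ R j, ((a i 0 : ℤ) : ℚ))) := by
  classical
  obtain ⟨j, hj⟩ := hR.1 ⟨0, hs⟩
  set l : Fin s := ⟨0, hs⟩ with hl
  have h1 := (Small.exists univ (fun k (a : ∀ i, Fin (n i + 1) → ℤ) => a k 0 = 0)
    fun k _ => InfAux.zero_small n k).or
    (InfAux.sq_small n ((R j).erase l) l (notMem_erase _ _))
  refine h1.mono fun a ha => ?_
  by_cases h2 : ∃ k ∈ univ, a k 0 = 0
  · exact Or.inl h2
  right
  push Not at h2
  refine ⟨prod_ne_zero_iff.2 fun k _ => h2 k (mem_univ _), ?_⟩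
  have h3 := ha j
  have h4 : ∏ i ∈ R j, ((a i 0 : ℤ) : ℚ) =
      (((∏ i ∈ (R j).erase l, a i 0) * a l 0 : ℤ) : ℚ) := by
    rw [prod_erase_mul _ _ hj]
    push_cast
    rfl
  rw [h4, Rat.isSquare_intCast_iff] at h3
  exact h3

end Stoll308.EA
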