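import Pool.Agent.Work.MP_308fa9_nt.DQ.ElsC

set_option autoImplicit false

/-!
The number of large primes modulo which two coprime polynomials have a common root is bounded.
-/

namespace Stoll308.EA

open Polynomial Finset BF

namespace ResAux

/-- The resultant of the two polynomials over `ℤ`. -/
noncomputable def res2 {n m : ℕ} (a : Fin (n + 1) → ℤ) (b : Fin (m + 1) → ℤ) : ℤ :=
  resultant (GZ ℤ a) (GZ ℤ b) n m

lemma res2_cast {K : Type*} [Field K] {n m : ℕ} (a : Fin (n + 1) → ℤ) (b : Fin (m + 1) → ℤ)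
    (ha : ((a 0 : ℤ) : K) ≠ 0) (hb : ((b 0 : ℤ) : K) ≠ 0) :
    ((res2 a b : ℤ) : K) = resultant (GZ K a) (GZ K b) := by
  rw [DQ.ElsC.gz_deg a ha, DQ.ElsC.gz_deg b hb, ← DQ.ElsC.gz_map' (R := K) a,
    ← DQ.ElsC.gz_map' (R := K) b, resultant_map_map]
  rfl

lemma res2_ne {n m : ℕ} (a : Fin (n + 1) → ℤ) (b : Fin (m + 1) → ℤ) (ha : a 0 ≠ 0)
    (hb : b 0 ≠ 0) (hc : IsCoprime (GZ ℚ a) (GZ ℚ b)) : res2 a b ≠ 0 := by
  have h1 := res2_cast (K := ℚ) a b (by exact_mod_cast ha) (by exact_mod_cast hb)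
  have h3 := resultant_ne_zero _ _ hc
  rw [← h1] at h3
  exact_mod_cast h3

lemma res2_dvd {p : ℕ} [hp : Fact p.Prime] {n m : ℕ} (hn : 1 ≤ n) (a : Fin (n + 1) → ℤ)
    (b : Fin (m + 1) → ℤ) (ha : ¬ (p : ℤ) ∣ a 0) (hb : ¬ (p : ℤ) ∣ b 0)
    (hc : ¬ IsCoprime (GZ (AlgebraicClosure (ZMod p)) a) (GZ (AlgebraicClosure (ZMod p)) b)) :
    (p : ℤ) ∣ res2 a b := by
  have hC : CharP (AlgebraicClosure (ZMod p)) p := charP_of_injective_algebraMap
    (algebraMap (ZMod p) (AlgebraicClosure (ZMod p))).injective p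
  rw [← CharP.intCast_eq_zero_iff (AlgebraicClosure (ZMod p)) p,
    res2_cast a b ((CharP.intCast_eq_zero_iff _ p _).not.mpr ha)
      ((CharP.intCast_eq_zero_iff _ p _).not.mpr hb), resultant_eq_zero_iff]
  refine ⟨Or.inl ?_, hc⟩
  intro h1
  have h2 := DQ.ElsC.gz_deg (K := AlgebraicClosure (ZMod p)) a
    ((CharP.intCast_eq_zero_iff _ p _).not.mpr ha)
  rw [h1, natDegree_zero] at h2
  omega

lemma gz_coeff_abs {n : ℕ} (a : Fin (n + 1) → ℤ) (B : ℤ) (hB : ∀ i, |a i| ≤ B) (j : ℕ) :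
    |(GZ ℤ a).coeff j| ≤ B := by
  have hB0 : 0 ≤ B := (abs_nonneg _).trans (hB 0)
  by_cases hj : j ≤ n
  · rw [BF.Els.gz_coeff _ hj]
    exact hB _
  · rw [BF.Els.gz_coeff_gt _ (by omega), abs_zero]
    exact hB0

lemma res2_bound {n m : ℕ} (a : Fin (n + 1) → ℤ) (b : Fin (m + 1) → ℤ) (B : ℤ)
    (ha : ∀ i, |a i| ≤ B) (hb : ∀ i, |b i| ≤ B) :
    |res2 a b| ≤ ((n + m).factorial : ℤ) * B ^ (n + m) := by
  have hB0 : 0 ≤ B := (abs_nonneg _).trans (ha 0)
  have h1 : AbsoluteValue.abs (sylvester (GZ ℤ a) (GZ ℤ b) n m).det ≤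
      (Fintype.card (Fin (n + m))).factorial • B ^ (Fintype.card (Fin (n + m))) := by
    apply Matrix.det_le
    intro i j
    rw [AbsoluteValue.abs_apply, sylvester, Matrix.of_apply]
    induction j using Fin.addCases with
    | left j =>
      rw [Fin.addCases_left]
      split_ifs
      · exact gz_coeff_abs b B hb _
      · rw [abs_zero]
        exact hB0
    | right j =>
      rw [Fin.addCases_right]
      split_ifs
      · exact gz_coeff_abs a B ha _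
      · rw [abs_zero]
        exact hB0
  rw [Fintype.card_fin, nsmul_eq_mul, AbsoluteValue.abs_apply] at h1
  exact h1

end ResAux

open ResAux in
theorem res_primes (n m B : ℕ) (hn : 1 ≤ n) (hm : 1 ≤ m) :
    ∃ h₀ : ℕ, ∀ h : ℕ, h₀ ≤ h → ∀ (a : Fin (n + 1) → ℤ) (b : Fin (m + 1) → ℤ),
      (∀ i, |a i| ≤ (B * h : ℕ)) → (∀ i, |b i| ≤ (B * h : ℕ)) → a 0 ≠ 0 → b 0 ≠ 0 →
      IsCoprime (GZ ℚ a) (GZ ℚ b) →
      ∃ T : Finset ℕ, T.card ≤ n + m + 1 ∧ ∀ (p : ℕ) [Fact p.Prime], h < p →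
        ¬ (p : ℤ) ∣ a 0 → ¬ (p : ℤ) ∣ b 0 →
        ¬ IsCoprime (GZ (AlgebraicClosure (ZMod p)) a) (GZ (AlgebraicClosure (ZMod p)) b) →
        p ∈ T := by
  refine ⟨(n + m).factorial * B ^ (n + m) + 1, ?_⟩
  intro h hh a b ha hb ha0 hb0 hc
  have hne := res2_ne a b ha0 hb0 hc
  refine ⟨(res2 a b).natAbs.primeFactors.filter fun p => h < p, ?_, ?_⟩
  · apply BF.Els.card_large (Int.natAbs_pos.mpr hne)
    have h1 := res2_bound a b _ ha hb
    have h2 : ((res2 a b).natAbs : ℤ) < ((h ^ (n + m + 1) : ℕ) : ℤ) := by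
      rw [Int.natCast_natAbs]
      refine lt_of_le_of_lt h1 ?_
      have h3 : (n + m).factorial * (B * h) ^ (n + m) < h ^ (n + m + 1) := by
        rw [mul_pow, ← mul_assoc, pow_succ', mul_comm h]
        rw [mul_comm ((n + m).factorial * B ^ (n + m))]
        have h4 : 0 < h ^ (n + m) := pow_pos (by omega) _
        exact Nat.mul_lt_mul_of_pos_left (by omega) h4
      exact_mod_cast h3
    exact_mod_cast h2
  · intro p hp hhp hpa hpb hcp
    rw [mem_filter, Nat.mem_primeFactors]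
    have h1 := res2_dvd hn a b hpa hpb hcp
    refine ⟨⟨hp.out, ?_, Int.natAbs_ne_zero.2 hne⟩, hhp⟩
    have := Int.natAbs_dvd_natAbs.2 h1
    rwa [Int.natAbs_natCast] at this

end Stoll308.EA
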