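import Pool.Agent.Work.MP_308fa9_nt.EA.ThreeA
import Pool.Agent.Work.MP_308fa9_nt.EA.Res
import Pool.Agent.Work.MP_308fa9_nt.DQ.Smooth

set_option autoImplicit false

/-!
Few triples of polynomials have a common zero modulo a prime `> P`.
-/

namespace Stoll308.EA

open Polynomial Finset BF

namespace ThreeBAux

lemma cast_eval (R : Type*) [CommRing R] {n : ℕ} (a : Fin (n + 1) → ℤ) (x : ℤ) :
    (((GZ ℤ a).eval x : ℤ) : R) = (GZ R a).eval (x : R) := by
  have h := eval_intCast_map (Int.castRingHom R) (GZ ℤ a) x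
  rw [DQ.ElsC.gz_map'] at h
  simpa using h.symm

lemma dvd_eval_mod {p : ℕ} (hp : 0 < p) (f : ℤ[X]) (x : ℤ) (h : (p : ℤ) ∣ f.eval x) :
    (p : ℤ) ∣ f.eval (((x % p).toNat : ℕ) : ℤ) := by
  have hp' : (p : ℤ) ≠ 0 := by exact_mod_cast hp.ne'
  have h1 : (((x % p).toNat : ℕ) : ℤ) = x % p := Int.toNat_of_nonneg (Int.emod_nonneg _ hp')
  have h2 : (p : ℤ) ∣ x - x % p := ⟨x / p, by have := Int.emod_add_mul_ediv x p; linarith⟩
  have h3 := h2.trans (Polynomial.sub_dvd_eval_sub x (x % p) f)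
  rw [h1]
  have h4 := dvd_sub h h3
  simpa using h4

lemma root_count {p : ℕ} [hp : Fact p.Prime] {n : ℕ} (a : Fin (n + 1) → ℤ)
    (h : ¬ (p : ℤ) ∣ a 0) :
    ((range p).filter fun x : ℕ => (p : ℤ) ∣ (GZ ℤ a).eval (x : ℤ)).card ≤ n := by
  classical
  have hne : GZ (ZMod p) a ≠ 0 := by
    intro h0
    have h1 : (GZ (ZMod p) a).coeff n = ((a 0 : ℤ) : ZMod p) := by
      rw [BF.Els.gz_coeff _ le_rfl]
      have : (⟨n - n, by omega⟩ : Fin (n + 1)) = 0 := by
        apply Fin.ext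
        simp
      rw [this]
    rw [h0, coeff_zero] at h1
    exact h ((ZMod.intCast_zmod_eq_zero_iff_dvd _ _).1 h1.symm)
  have h1 : ((range p).filter fun x : ℕ => (p : ℤ) ∣ (GZ ℤ a).eval (x : ℤ)).card ≤
      (GZ (ZMod p) a).roots.toFinset.card := by
    apply card_le_card_of_injOn (fun x : ℕ => (x : ZMod p))
    · intro x hx
      rw [mem_coe, mem_filter] at hx
      rw [mem_coe, Multiset.mem_toFinset, mem_roots hne, IsRoot]
      have h2 := (ZMod.intCast_zmod_eq_zero_iff_dvd _ _).2 hx.2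
      rw [cast_eval] at h2
      simpa using h2
    · intro x hx y hy hxy
      rw [mem_coe, mem_filter, mem_range] at hx hy
      have h2 := (ZMod.natCast_eq_natCast_iff' _ _ _).1 hxy
      rwa [Nat.mod_eq_of_lt hx.1, Nat.mod_eq_of_lt hy.1] at h2
  refine h1.trans ((Multiset.toFinset_card_le _).trans ((card_roots' _).trans ?_))
  exact BF.Els.gz_natDegree_le _

lemma not_dvd {H p : ℕ} (hHp : H < p) {z : ℤ} (h0 : z ≠ 0) (h : |z| ≤ (H : ℤ)) :
    ¬ (p : ℤ) ∣ z := by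
  intro h1
  have h2 := Int.le_of_dvd (abs_pos.2 h0) ((dvd_abs _ _).2 h1)
  have h3 : (H : ℤ) < p := by exact_mod_cast hHp
  linarith

open Classical in
lemma fibre_card {n m : ℕ} (k H : ℕ) (a : Fin (n + 1) → ℤ) (b : Fin (m + 1) → ℤ)
    (ha : ∀ i, |a i| ≤ (H : ℤ)) (hb : ∀ i, |b i| ≤ (H : ℤ)) (ha0 : a 0 ≠ 0) (hb0 : b 0 ≠ 0)
    (T : Finset ℕ) (hT : ∀ (p : ℕ) [Fact p.Prime], H < p → ¬ (p : ℤ) ∣ a 0 → ¬ (p : ℤ) ∣ b 0 →
      ¬ IsCoprime (GZ (AlgebraicClosure (ZMod p)) a) (GZ (AlgebraicClosure (ZMod p)) b) → p ∈ T) :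
    (((hbox k H).filter fun c => ∃ p : ℕ, p.Prime ∧ H < p ∧ Three p a b c).card : ℝ) ≤
      T.card * (n * (3 * (2 * (H : ℝ) + 1) ^ k)) := by
  set T' := T.filter fun p => p.Prime ∧ H < p with hT'
  have hsub : ((hbox k H).filter fun c => ∃ p : ℕ, p.Prime ∧ H < p ∧ Three p a b c) ⊆
      T'.biUnion fun p => ((range p).filter fun x : ℕ => (p : ℤ) ∣ (GZ ℤ a).eval (x : ℤ)).biUnion
        fun x => (hbox k H).filter fun c => (p : ℤ) ∣ (GZ ℤ c).eval (x : ℤ) := by
    intro c hc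
    rw [mem_filter] at hc
    obtain ⟨hcb, p, hp, hHp, h3⟩ := hc
    have : Fact p.Prime := ⟨hp⟩
    have hna := not_dvd hHp ha0 (ha 0)
    have hnb := not_dvd hHp hb0 (hb 0)
    rcases h3 with ⟨h4, -⟩ | ⟨x, hxa, hxb, hxc⟩
    · exact absurd h4 hna
    · rw [mem_biUnion]
      refine ⟨p, ?_, ?_⟩
      · rw [hT', mem_filter]
        refine ⟨hT p hHp hna hnb ?_, hp, hHp⟩
        intro hco
        have hC : CharP (AlgebraicClosure (ZMod p)) p := charP_of_injective_algebraMap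
          (algebraMap (ZMod p) (AlgebraicClosure (ZMod p))).injective p
        obtain ⟨u, v, huv⟩ := hco
        have h5 := congrArg (eval ((x : ℤ) : AlgebraicClosure (ZMod p))) huv
        rw [eval_add, eval_mul, eval_mul, ← cast_eval, ← cast_eval,
          (CharP.intCast_eq_zero_iff _ p _).2 hxa, (CharP.intCast_eq_zero_iff _ p _).2 hxb,
          mul_zero, mul_zero, add_zero, eval_one] at h5
        exact zero_ne_one h5
      · rw [mem_biUnion]
        refine ⟨(x % p).toNat, ?_, ?_⟩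
        · rw [mem_filter, mem_range]
          refine ⟨?_, dvd_eval_mod hp.pos _ _ hxa⟩
          have hp' : (p : ℤ) ≠ 0 := by exact_mod_cast hp.pos.ne'
          have h6 := Int.emod_nonneg x hp'
          have h7 := Int.emod_lt_of_pos x (by exact_mod_cast hp.pos : (0 : ℤ) < p)
          omega
        · rw [mem_filter]
          exact ⟨hcb, dvd_eval_mod hp.pos _ _ hxc⟩
  have h1 := (card_le_card hsub).trans card_biUnion_le
  have h2 : ∀ p ∈ T', ((((range p).filter fun x : ℕ => (p : ℤ) ∣ (GZ ℤ a).eval (x : ℤ)).biUnion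
        fun x => (hbox k H).filter fun c => (p : ℤ) ∣ (GZ ℤ c).eval (x : ℤ)).card : ℝ) ≤
      n * (3 * (2 * (H : ℝ) + 1) ^ k) := by
    intro p hp
    rw [hT', mem_filter] at hp
    obtain ⟨-, hpp, hHp⟩ := hp
    have : Fact p.Prime := ⟨hpp⟩
    have hpR : (0 : ℝ) < p := by exact_mod_cast hpp.pos
    have hHp' : (H : ℝ) + 1 ≤ p := by exact_mod_cast hHp
    have h3 : ∀ x : ℕ, (((hbox k H).filter fun c => (p : ℤ) ∣ (GZ ℤ c).eval (x : ℤ)).card : ℝ) ≤
        3 * (2 * (H : ℝ) + 1) ^ k := by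
      intro x
      refine (card_root H p hpp (x : ℤ)).trans ?_
      have h4 : (2 * (H : ℝ) + 1) / p ≤ 2 := by
        rw [div_le_iff₀ hpR]
        linarith
      have h5 : (0 : ℝ) ≤ (2 * (H : ℝ) + 1) ^ k := by positivity
      nlinarith
    have h6 : ((((range p).filter fun x : ℕ => (p : ℤ) ∣ (GZ ℤ a).eval (x : ℤ)).biUnion
        fun x => (hbox k H).filter fun c => (p : ℤ) ∣ (GZ ℤ c).eval (x : ℤ)).card : ℝ) ≤
        ∑ x ∈ (range p).filter fun x : ℕ => (p : ℤ) ∣ (GZ ℤ a).eval (x : ℤ),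
          (((hbox k H).filter fun c => (p : ℤ) ∣ (GZ ℤ c).eval (x : ℤ)).card : ℝ) := by
      exact_mod_cast card_biUnion_le
    refine h6.trans ((sum_le_sum fun x _ => h3 x).trans ?_)
    rw [sum_const, nsmul_eq_mul]
    apply mul_le_mul_of_nonneg_right _ (by positivity)
    exact_mod_cast root_count a (not_dvd hHp ha0 (ha 0))
  calc _ ≤ ((∑ p ∈ T', (((range p).filter fun x : ℕ => (p : ℤ) ∣ (GZ ℤ a).eval (x : ℤ)).biUnion
        fun x => (hbox k H).filter fun c => (p : ℤ) ∣ (GZ ℤ c).eval (x : ℤ)).card : ℕ) : ℝ) := by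
        exact_mod_cast h1
    _ = ∑ p ∈ T', ((((range p).filter fun x : ℕ => (p : ℤ) ∣ (GZ ℤ a).eval (x : ℤ)).biUnion
        fun x => (hbox k H).filter fun c => (p : ℤ) ∣ (GZ ℤ c).eval (x : ℤ)).card : ℝ) := by
        push_cast
        rfl
    _ ≤ ∑ p ∈ T', (n : ℝ) * (3 * (2 * (H : ℝ) + 1) ^ k) := sum_le_sum h2
    _ = T'.card * (n * (3 * (2 * (H : ℝ) + 1) ^ k)) := by rw [sum_const, nsmul_eq_mul]
    _ ≤ T.card * (n * (3 * (2 * (H : ℝ) + 1) ^ k)) := by
        apply mul_le_mul_of_nonneg_right _ (by positivity)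
        exact_mod_cast card_le_card (filter_subset _ _)

end ThreeBAux

open ThreeBAux

theorem three_large (n m k : ℕ) (hn : 4 ≤ n) (hm : 4 ≤ m) (hk : 4 ≤ k) (ε : ℝ) (hε : 0 < ε) :
    ∃ H₀ : ℕ, ∀ H : ℕ, H₀ ≤ H →
      (cnt3 n m k (fun a b c => ∃ p : ℕ, p.Prime ∧ H < p ∧ Three p a b c) H : ℝ) ≤
        ε * H ^ (n + m + k + 3) := by
  classical
  obtain ⟨H₁, h₁⟩ := DQ.smooth_small n m hn hm (ε / 2 / 3 ^ (k + 1)) (by positivity)
  obtain ⟨H₂, h₂⟩ := res_primes n m 1 (by omega) (by omega)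
  set K : ℝ := (n + m + 1 : ℕ) * (n * 3) * 3 ^ (n + m + k + 2) with hK
  obtain ⟨H₃, h₃⟩ := exists_nat_ge (2 * K / ε)
  refine ⟨H₁ + H₂ + H₃ + 1, fun H hH => ?_⟩
  have g1 := h₁ H (by omega)
  have g2 := h₂ H (by omega)
  have hH1 : (1 : ℝ) ≤ H := by exact_mod_cast (by omega : 1 ≤ H)
  have hH0 : (0 : ℝ) < H := by linarith
  have g3 : 2 * K / ε ≤ (H : ℝ) := h₃.trans (by exact_mod_cast (by omega : H₃ ≤ H))
  have hp3 : ∀ N : ℕ, (2 * (H : ℝ) + 1) ^ N ≤ 3 ^ N * (H : ℝ) ^ N := by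
    intro N
    rw [← mul_pow]
    exact pow_le_three (by omega) N
  set B := hbox n H ×ˢ hbox m H ×ˢ hbox k H with hB
  set S1 := B.filter fun x => ¬ DQ.Smooth x.1 x.2.1 with hS1
  set S2 := B.filter fun x => DQ.Smooth x.1 x.2.1 ∧
    ∃ p : ℕ, p.Prime ∧ H < p ∧ Three p x.1 x.2.1 x.2.2 with hS2
  have hcov : cnt3 n m k (fun a b c => ∃ p : ℕ, p.Prime ∧ H < p ∧ Three p a b c) H ≤
      S1.card + S2.card := by
    unfold cnt3
    refine le_trans (card_le_card ?_) (card_union_le _ _)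
    intro x hx
    rw [mem_filter] at hx
    rw [mem_union, hS1, hS2, mem_filter, mem_filter]
    by_cases hs : DQ.Smooth x.1 x.2.1
    · exact Or.inr ⟨hx.1, hs, hx.2⟩
    · exact Or.inl ⟨hx.1, hs⟩
  have hS1c : (S1.card : ℝ) ≤
      (DQ.cnt n m (fun a b => ¬ DQ.Smooth a b) H : ℝ) * (2 * (H : ℝ) + 1) ^ (k + 1) := by
    have h1 : S1.card ≤ (((hbox n H ×ˢ hbox m H).filter fun x => ¬ DQ.Smooth x.1 x.2) ×ˢ
        hbox k H).card := by
      apply card_le_card_of_injOn (fun x => ((x.1, x.2.1), x.2.2))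
      · intro x hx
        rw [mem_coe, hS1, mem_filter, hB, mem_product, mem_product] at hx
        rw [mem_coe, mem_product, mem_filter, mem_product]
        exact ⟨⟨⟨hx.1.1, hx.1.2.1⟩, hx.2⟩, hx.1.2.2⟩
      · intro x _ y _ hxy
        simp only [Prod.mk.injEq] at hxy
        exact Prod.ext hxy.1.1 (Prod.ext hxy.1.2 hxy.2)
    rw [card_product, card_hbox] at h1
    have h2 : ((hbox n H ×ˢ hbox m H).filter fun x => ¬ DQ.Smooth x.1 x.2).card =
        DQ.cnt n m (fun a b => ¬ DQ.Smooth a b) H := by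
      unfold DQ.cnt
      convert rfl
    rw [h2] at h1
    exact_mod_cast h1
  have hS2c : (S2.card : ℝ) ≤ ((hbox n H ×ˢ hbox m H).card : ℝ) *
      ((n + m + 1 : ℕ) * (n * (3 * (2 * (H : ℝ) + 1) ^ k))) := by
    apply BG.Els.card_le_fiber S2 (hbox n H ×ˢ hbox m H) (fun x => (x.1, x.2.1))
    · intro x hx
      rw [hS2, mem_filter, hB, mem_product, mem_product] at hx
      rw [mem_product]
      exact ⟨hx.1.1, hx.1.2.1⟩
    · rintro ⟨a, b⟩ hab
      rw [mem_product] at hab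
      have ha := mem_hbox.1 hab.1
      have hb := mem_hbox.1 hab.2
      by_cases hs : DQ.Smooth a b
      · obtain ⟨ha0, hb0, hsq⟩ := hs
        have hco : IsCoprime (GZ ℚ a) (GZ ℚ b) := by
          rw [← EuclideanDomain.gcd_isUnit_iff]
          exact hsq _ (mul_dvd_mul (EuclideanDomain.gcd_dvd_left _ _)
            (EuclideanDomain.gcd_dvd_right _ _))
        obtain ⟨T, hTc, hT⟩ := g2 a b (by simpa using ha) (by simpa using hb) ha0 hb0 hco
        have h1 := fibre_card k H a b ha hb ha0 hb0 T hT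
        have h2 : ((S2.filter fun x => (x.1, x.2.1) = (a, b)).card : ℝ) ≤
            (((hbox k H).filter fun c => ∃ p : ℕ, p.Prime ∧ H < p ∧ Three p a b c).card : ℝ) := by
          rw [Nat.cast_le]
          apply card_le_card_of_injOn (fun x => x.2.2)
          · intro x hx
            rw [mem_coe, mem_filter, hS2, mem_filter, hB, mem_product, mem_product,
              Prod.mk.injEq] at hx
            obtain ⟨⟨⟨-, -, h3⟩, -, h4⟩, h5, h6⟩ := hx
            rw [mem_coe, mem_filter]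
            refine ⟨h3, ?_⟩
            rw [h5, h6] at h4
            exact h4
          · intro x hx y hy hxy
            rw [mem_coe, mem_filter, Prod.mk.injEq] at hx hy
            exact Prod.ext (hx.2.1.trans hy.2.1.symm)
              (Prod.ext (hx.2.2.trans hy.2.2.symm) hxy)
        refine h2.trans (h1.trans ?_)
        apply mul_le_mul_of_nonneg_right _ (by positivity)
        exact_mod_cast hTc
      · rw [filter_false_of_mem]
        · rw [card_empty, Nat.cast_zero]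
          positivity
        · intro x hx hxab
          rw [Prod.mk.injEq] at hxab
          rw [hS2, mem_filter, hxab.1, hxab.2] at hx
          exact hs hx.2.1
  have e1 : (S1.card : ℝ) ≤ ε / 2 * H ^ (n + m + k + 3) := by
    refine hS1c.trans ?_
    calc _ ≤ (ε / 2 / 3 ^ (k + 1) * H ^ (n + m + 2)) * (3 ^ (k + 1) * (H : ℝ) ^ (k + 1)) :=
          mul_le_mul g1 (hp3 _) (by positivity) (by positivity)
      _ = ε / 2 * H ^ (n + m + k + 3) := by
          have : (H : ℝ) ^ (n + m + k + 3) = H ^ (n + m + 2) * H ^ (k + 1) := by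
            rw [← pow_add]
            congr 1
            omega
          rw [this]
          field_simp
  have e2 : (S2.card : ℝ) ≤ ε / 2 * H ^ (n + m + k + 3) := by
    refine hS2c.trans ?_
    rw [card_product, card_hbox, card_hbox]
    push_cast
    have h5 : (2 * (H : ℝ) + 1) ^ (n + 1) * (2 * (H : ℝ) + 1) ^ (m + 1) *
        (((n : ℝ) + m + 1) * (n * (3 * (2 * (H : ℝ) + 1) ^ k))) =
        ((n : ℝ) + m + 1) * (n * 3) * (2 * (H : ℝ) + 1) ^ (n + m + k + 2) := by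
      have : (2 * (H : ℝ) + 1) ^ (n + m + k + 2) = (2 * (H : ℝ) + 1) ^ (n + 1) *
          (2 * (H : ℝ) + 1) ^ (m + 1) * (2 * (H : ℝ) + 1) ^ k := by
        rw [← pow_add, ← pow_add]
        congr 1
        omega
      rw [this]
      ring
    rw [h5]
    have h6 : ((n : ℝ) + m + 1) * (n * 3) * (2 * (H : ℝ) + 1) ^ (n + m + k + 2) ≤
        K * H ^ (n + m + k + 2) := by
      rw [hK]
      push_cast
      rw [mul_assoc (((n : ℝ) + m + 1) * (n * 3))]
      exact mul_le_mul_of_nonneg_left (hp3 _) (by positivity)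
    refine h6.trans ?_
    have h7 : K ≤ ε / 2 * H := by
      rw [div_le_iff₀ hε] at g3
      linarith
    calc K * (H : ℝ) ^ (n + m + k + 2) ≤ (ε / 2 * H) * H ^ (n + m + k + 2) :=
          mul_le_mul_of_nonneg_right h7 (by positivity)
      _ = ε / 2 * H ^ (n + m + k + 3) := by
          rw [pow_succ (H : ℝ) (n + m + k + 2)]
          ring
  have e3 : (cnt3 n m k (fun a b c => ∃ p : ℕ, p.Prime ∧ H < p ∧ Three p a b c) H : ℝ) ≤
      S1.card + S2.card := by exact_mod_cast hcov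
  linarith

theorem three_small (n m k : ℕ) (hn : 4 ≤ n) (hm : 4 ≤ m) (hk : 4 ≤ k) (ε : ℝ) (hε : 0 < ε) :
    ∃ P H₀ : ℕ, ∀ P' : ℕ, P ≤ P' → ∀ H : ℕ, H₀ ≤ H →
      (cnt3 n m k (fun a b c => ∃ p : ℕ, p.Prime ∧ P' < p ∧ Three p a b c) H : ℝ) ≤
        ε * H ^ (n + m + k + 3) := by
  classical
  obtain ⟨P, h1⟩ := three_mid n m k (ε / 2) (half_pos hε)
  obtain ⟨H₀, h2⟩ := three_large n m k hn hm hk (ε / 2) (half_pos hε)
  refine ⟨P, max H₀ 1, fun P' hP' H hH => ?_⟩
  have g1 := h1 P' hP' H ((le_max_right _ _).trans hH)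
  have g2 := h2 H ((le_max_left _ _).trans hH)
  have h3 : cnt3 n m k (fun a b c => ∃ p : ℕ, p.Prime ∧ P' < p ∧ Three p a b c) H ≤
      cnt3 n m k (fun a b c => ∃ p : ℕ, p.Prime ∧ P' < p ∧ p ≤ H ∧ Three p a b c) H +
      cnt3 n m k (fun a b c => ∃ p : ℕ, p.Prime ∧ H < p ∧ Three p a b c) H := by
    unfold cnt3
    refine le_trans (card_le_card ?_) (card_union_le _ _)
    intro x hx
    rw [mem_filter] at hx
    obtain ⟨hx1, p, hp, hp', h3⟩ := hx
    rw [mem_union, mem_filter, mem_filter]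
    by_cases hpH : p ≤ H
    · exact Or.inl ⟨hx1, p, hp, hp', hpH, h3⟩
    · exact Or.inr ⟨hx1, p, hp, by omega, h3⟩
  have h4 : (cnt3 n m k (fun a b c => ∃ p : ℕ, p.Prime ∧ P' < p ∧ Three p a b c) H : ℝ) ≤
      cnt3 n m k (fun a b c => ∃ p : ℕ, p.Prime ∧ P' < p ∧ p ≤ H ∧ Three p a b c) H +
      cnt3 n m k (fun a b c => ∃ p : ℕ, p.Prime ∧ H < p ∧ Three p a b c) H := by
    exact_mod_cast h3
  linarith

end Stoll308.EA
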