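import Pool.Agent.Work.MP_308fa9_nt.EA.Defs
import Pool.Agent.Work.MP_308fa9_nt.DQ.Upper

set_option autoImplicit false

/-!
Two of the polynomials, twisted.
-/

namespace Stoll308.EA

open Polynomial Finset BF

/-- The coefficients multiplied by `m`. -/
def tw {n : ℕ} (m : ℤ) (a : Fin (n + 1) → ℤ) : Fin (n + 1) → ℤ := fun i => m * a i

lemma GZ_tw (R : Type*) [CommRing R] {n : ℕ} (m : ℤ) (a : Fin (n + 1) → ℤ) :
    GZ R (tw m a) = C (m : R) * GZ R a := by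
  rw [GZ, GZ, gpol, gpol, Finset.mul_sum]
  refine Finset.sum_congr rfl fun i _ => ?_
  rw [tw, Int.cast_mul, C_mul, mul_assoc]

lemma charpoly_self (K : Type*) [Field K] (t : K) :
    (LinearMap.mulLeft K t).charpoly = X - C t := by
  rw [← LinearMap.charpoly_toMatrix (LinearMap.mulLeft K t) (Module.Basis.singleton Unit K)]
  unfold Matrix.charpoly
  rw [Matrix.det_unique, Matrix.charmatrix_apply_eq, LinearMap.toMatrix_apply]
  simp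

/-- One of the two polynomials. -/
lemma one_side {n : ℕ} (p : ℕ) [Fact p.Prime] (a : Fin (n + 1) → ℤ) (x : ℤ) (hx : x ≠ 0)
    (δ : ℚ_[p][X]) (t c : ℚ_[p]) (hc : c ≠ 0) (u : ℚ_[p][X]) (h0 : (GZ ℚ_[p] a).eval t ≠ 0)
    (hs : IsSquare ((x : ℚ_[p]) * (GZ ℚ_[p] a).eval t))
    (hd : GZ ℚ_[p] a ∣ (C t - X) - C c * δ * u ^ 2) :
    (∃ y : ℚ_[p], IsUnit y ∧ y ^ 2 = aeval t (GZ ℚ_[p] (tw x a))) ∧
      GZ ℚ_[p] (tw x a) ∣ C (-c⁻¹) * (LinearMap.mulLeft ℚ_[p] t).charpoly - δ * u ^ 2 := by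
  have hx' : (x : ℚ_[p]) ≠ 0 := by exact_mod_cast hx
  constructor
  · obtain ⟨y, hy⟩ := hs
    refine ⟨y, ?_, ?_⟩
    · refine isUnit_iff_ne_zero.2 ?_
      rintro rfl
      rw [mul_zero] at hy
      exact mul_ne_zero hx' h0 hy
    · rw [sq, ← hy, GZ_tw, map_mul, aeval_C, coe_aeval_eq_eval]
      rfl
  · rw [GZ_tw, charpoly_self]
    have hu : IsUnit (C (x : ℚ_[p])) := isUnit_C.2 (isUnit_iff_ne_zero.2 hx')
    refine hu.mul_left_dvd.2 ?_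
    have e : C (-c⁻¹) * (X - C t) - δ * u ^ 2 = C c⁻¹ * ((C t - X) - C c * δ * u ^ 2) := by
      have h1 : C c⁻¹ * C c = (1 : ℚ_[p][X]) := by
        rw [← C_mul, inv_mul_cancel₀ hc, C_1]
      rw [C_neg]
      linear_combination (δ * u ^ 2) * h1
    rw [e]
    exact Dvd.dvd.mul_left hd _

theorem oddSel_of {n m : ℕ} (a : Fin (n + 1) → ℤ) (b : Fin (m + 1) → ℤ) (x y : ℤ) (hx : x ≠ 0)
    (hy : y ≠ 0) (δ ε : ℚ[X]) (hδ : IsCoprime δ (GZ ℚ a)) (hε : IsCoprime ε (GZ ℚ b))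
    (h : ∀ (p : ℕ) [Fact p.Prime], p ≠ 2 → ∃ (t c : ℚ_[p]) (u v : ℚ_[p][X]), c ≠ 0 ∧
      (GZ ℚ_[p] a).eval t ≠ 0 ∧ (GZ ℚ_[p] b).eval t ≠ 0 ∧
      IsSquare ((x : ℚ_[p]) * (GZ ℚ_[p] a).eval t) ∧ IsSquare ((y : ℚ_[p]) * (GZ ℚ_[p] b).eval t) ∧
      GZ ℚ_[p] a ∣ (C t - X) - C c * δ.map (algebraMap ℚ ℚ_[p]) * u ^ 2 ∧
      GZ ℚ_[p] b ∣ (C t - X) - C c * ε.map (algebraMap ℚ ℚ_[p]) * v ^ 2) :
    DQ.OddSel (tw x a) (tw y b) := by
  have hux : IsUnit (C (x : ℚ)) := isUnit_C.2 (isUnit_iff_ne_zero.2 (by exact_mod_cast hx))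
  have huy : IsUnit (C (y : ℚ)) := isUnit_C.2 (isUnit_iff_ne_zero.2 (by exact_mod_cast hy))
  refine ⟨δ, ε, ?_, ?_, ?_⟩
  · rw [GZ_tw]
    exact (isCoprime_mul_unit_left_right hux _ _).2 hδ
  · rw [GZ_tw]
    exact (isCoprime_mul_unit_left_right huy _ _).2 hε
  · intro p _ hp
    obtain ⟨t, c, u, v, hc, ha0, hb0, hsa, hsb, hda, hdb⟩ := h p hp
    obtain ⟨⟨y₁, hy₁, hy₁'⟩, hd₁⟩ := one_side p a x hx _ t c hc u ha0 hsa hda
    obtain ⟨⟨y₂, hy₂, hy₂'⟩, hd₂⟩ := one_side p b y hy _ t c hc v hb0 hsb hdb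
    refine ⟨ℚ_[p], inferInstance, inferInstance, inferInstance, t, y₁, y₂, -c⁻¹, u, v, ?_, hy₁,
      hy₂, neg_ne_zero.2 (inv_ne_zero hc), hy₁', hy₂', hd₁, hd₂⟩
    rw [Module.finrank_self]
    exact odd_one

lemma abs_tw_le {n : ℕ} (x : ℤ) (B H : ℕ) (hB : |x| ≤ B) (a : Fin (n + 1) → ℤ)
    (ha : ∀ i, |a i| ≤ (H : ℤ)) (i : Fin (n + 1)) : |tw x a i| ≤ ((B * H : ℕ) : ℤ) := by
  unfold tw
  rw [abs_mul]
  push_cast
  exact mul_le_mul hB (ha i) (abs_nonneg _) (by positivity)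

lemma tw_inj {n : ℕ} {x : ℤ} (hx : x ≠ 0) : Function.Injective (tw (n := n) x) := by
  intro a b h
  funext i
  exact mul_left_cancel₀ hx (congrFun h i)

theorem tw_small (n m : ℕ) (hn : 4 ≤ n) (he : Even n) (hm : 4 ≤ m) (hem : Even m) (x y : ℤ)
    (hx : x ≠ 0) (hy : y ≠ 0) (ε : ℝ) (hε : 0 < ε) :
    ∃ H₀ : ℕ, ∀ H : ℕ, H₀ ≤ H →
      (DQ.cnt n m (fun a b => DQ.OddSel (tw x a) (tw y b)) H : ℝ) ≤ ε * H ^ (n + m + 2) := by
  classical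
  obtain ⟨B, hBx, hBy, hB1⟩ : ∃ B : ℕ, |x| ≤ B ∧ |y| ≤ B ∧ 1 ≤ B := by
    refine ⟨x.natAbs + y.natAbs, ?_, ?_, ?_⟩
    · rw [Int.abs_eq_natAbs]
      push_cast
      have := abs_nonneg y
      linarith
    · rw [Int.abs_eq_natAbs]
      push_cast
      have := abs_nonneg x
      linarith
    · have := Int.natAbs_pos.2 hx
      omega
  have hBr : (0 : ℝ) < B := by exact_mod_cast hB1
  obtain ⟨H₀, hH₀⟩ := DQ.oddSel_small n m hn he hm hem (ε / (B : ℝ) ^ (n + m + 2))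
    (by positivity)
  refine ⟨H₀, fun H hH => ?_⟩
  have h1 := hH₀ (B * H) (hH.trans (Nat.le_mul_of_pos_left H hB1))
  have h2 : DQ.cnt n m (fun a b => DQ.OddSel (tw x a) (tw y b)) H ≤
      DQ.cnt n m (fun a b => DQ.OddSel a b) (B * H) := by
    unfold DQ.cnt
    refine card_le_card_of_injOn (fun z => (tw x z.1, tw y z.2)) ?_ ?_
    · intro z hz
      rw [mem_coe, mem_filter, mem_product, Fintype.mem_piFinset, Fintype.mem_piFinset] at hz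
      rw [mem_coe, mem_filter, mem_product, Fintype.mem_piFinset, Fintype.mem_piFinset]
      refine ⟨⟨fun i => ?_, fun i => ?_⟩, hz.2⟩
      · exact mem_Icc.2 (abs_le.1 (abs_tw_le x B H hBx z.1
          (fun i => abs_le.2 (mem_Icc.1 (hz.1.1 i))) i))
      · exact mem_Icc.2 (abs_le.1 (abs_tw_le y B H hBy z.2
          (fun i => abs_le.2 (mem_Icc.1 (hz.1.2 i))) i))
    · intro z _ z' _ h
      have h' := Prod.mk.inj h
      exact Prod.ext (tw_inj hx h'.1) (tw_inj hy h'.2)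
  have h3 : (DQ.cnt n m (fun a b => DQ.OddSel (tw x a) (tw y b)) H : ℝ) ≤
      (DQ.cnt n m (fun a b => DQ.OddSel a b) (B * H) : ℝ) := by exact_mod_cast h2
  refine h3.trans (h1.trans (le_of_eq ?_))
  push_cast
  rw [mul_pow]
  field_simp

end Stoll308.EA
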