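import Pool.Agent.Work.MP_308fa9_nt.EA.Twist
import Pool.Agent.Work.MP_308fa9_nt.EA.ThreeB
import Pool.Agent.Work.MP_308fa9_nt.EA.Inf
import Pool.Agent.Work.MP_308fa9_nt.EA.ToOdd

set_option autoImplicit false

/-!
The upper bound.
-/

namespace Stoll308.EA

open Polynomial Finset BF

/-- A squarefree number with prime factors `≤ P` is at most `P!`. -/
lemma abs_le_factorial {m : ℤ} (hm : Squarefree m) {P : ℕ}
    (h : ∀ p : ℕ, p.Prime → (p : ℤ) ∣ m → p ≤ P) : |m| ≤ (P.factorial : ℤ) := by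
  have hsq : Squarefree m.natAbs := Int.squarefree_natAbs.2 hm
  have h1 : m.natAbs ∣ P.factorial := by
    rw [← Nat.prod_primeFactors_of_squarefree hsq]
    apply Finset.prod_primes_dvd
    · intro p hp
      exact (Nat.prime_of_mem_primeFactors hp).prime
    · intro p hp
      have hpp := Nat.prime_of_mem_primeFactors hp
      apply (hpp.dvd_factorial).2
      apply h p hpp
      rw [Int.natCast_dvd]
      exact Nat.dvd_of_mem_primeFactors hp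
  have h2 := Nat.le_of_dvd P.factorial_pos h1
  rw [Int.abs_eq_natAbs]
  exact_mod_cast h2

variable {r s : ℕ} {n : Fin s → ℕ}

/-- A rational point, affine and not a branch point. -/
lemma sel_of_pt {R : Fin r → Finset (Fin s)} {a : ∀ i, Fin (n i + 1) → ℤ} {t : ℚ}
    (ht : Pt R a ℚ t) : Sel R a := by
  have hmap : ∀ (K : Type) [Field K] [CharZero K] (i : Fin s) (φ : ℚ →+* K),
      (GZ K (a i)).eval (φ t) = φ ((GZ ℚ (a i)).eval t) := by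
    intro K _ _ i φ
    have e : GZ K (a i) = (GZ ℚ (a i)).map φ := by
      rw [GZ, GZ, BF.Els.gz_map]
      simp
    rw [e, eval_map_apply]
  refine ⟨fun _ => C t - X, fun i => ?_, fun p _ _ => ?_⟩
  · obtain ⟨q, hq⟩ : (X - C t) ∣ GZ ℚ (a i) - C ((GZ ℚ (a i)).eval t) := X_sub_C_dvd_sub_C_eval
    have h1 : C ((GZ ℚ (a i)).eval t)⁻¹ * C ((GZ ℚ (a i)).eval t) = (1 : ℚ[X]) := by
      rw [← C_mul, inv_mul_cancel₀ (ht.1 i), C_1]
    exact ⟨C ((GZ ℚ (a i)).eval t)⁻¹ * q, C ((GZ ℚ (a i)).eval t)⁻¹, by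
      linear_combination C ((GZ ℚ (a i)).eval t)⁻¹ * hq + h1⟩
  · refine ⟨algebraMap ℚ ℚ_[p] t, 1, fun _ => 1, ⟨fun i => ?_, fun j => ?_⟩, one_ne_zero,
      fun i => ?_⟩
    · rw [hmap]
      exact (_root_.map_ne_zero _).2 (ht.1 i)
    · rw [prod_congr rfl fun i _ => hmap ℚ_[p] i (algebraMap ℚ ℚ_[p]), ← map_prod]
      exact (ht.2 j).map _
    · rw [Polynomial.map_sub, map_C, map_X]
      simp

/-- The exceptional tuples: three polynomials with a common zero modulo a prime `> P`. -/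
lemma three_union (n : Fin s → ℕ) (hn : ∀ i, 4 ≤ n i) (ε : ℝ) (hε : 0 < ε) :
    ∃ P H₀ : ℕ, 2 ≤ P ∧ ∀ H : ℕ, H₀ ≤ H →
      (cnt n (fun a => ∃ i₁ i₂ i₃, i₁ ≠ i₂ ∧ i₁ ≠ i₃ ∧ i₂ ≠ i₃ ∧ ∃ p : ℕ, p.Prime ∧ P < p ∧
        Three p (a i₁) (a i₂) (a i₃)) H : ℝ) ≤ ε * H ^ ∑ i, (n i + 1) := by
  classical
  set J : Finset (Fin s × Fin s × Fin s) :=
    univ.filter fun τ => τ.1 ≠ τ.2.1 ∧ τ.1 ≠ τ.2.2 ∧ τ.2.1 ≠ τ.2.2 with hJ
  set N : ℕ := ∑ i, (n i + 1) with hN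
  have h1 : ∀ τ : Fin s × Fin s × Fin s, ∃ P H₀ : ℕ, ∀ P' : ℕ, P ≤ P' → ∀ H : ℕ, H₀ ≤ H →
      (cnt3 (n τ.1) (n τ.2.1) (n τ.2.2)
        (fun a b c => ∃ p : ℕ, p.Prime ∧ P' < p ∧ Three p a b c) H : ℝ) ≤
        ε / ((J.card + 1) * 3 ^ N) * H ^ (n τ.1 + n τ.2.1 + n τ.2.2 + 3) := fun τ =>
    three_small _ _ _ (hn _) (hn _) (hn _) _ (by positivity)
  choose P₀ H₀ h1 using h1
  set P : ℕ := (∑ τ, P₀ τ) + 2 with hP
  have hPle : ∀ τ, P₀ τ ≤ P := by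
    intro τ
    have := Finset.single_le_sum (f := P₀) (fun _ _ => Nat.zero_le _) (mem_univ τ)
    omega
  refine ⟨P, (∑ τ, H₀ τ) + 1, by omega, fun H hH => ?_⟩
  have hH1 : 1 ≤ H := by omega
  have hHle : ∀ τ, H₀ τ ≤ H := by
    intro τ
    have := Finset.single_le_sum (f := H₀) (fun _ _ => Nat.zero_le _) (mem_univ τ)
    omega
  have hle : cnt n (fun a => ∃ i₁ i₂ i₃, i₁ ≠ i₂ ∧ i₁ ≠ i₃ ∧ i₂ ≠ i₃ ∧ ∃ p : ℕ, p.Prime ∧ P < p ∧
        Three p (a i₁) (a i₂) (a i₃)) H ≤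
      ∑ τ ∈ J, cnt n (fun a => ∃ p : ℕ, p.Prime ∧ P < p ∧
        Three p (a τ.1) (a τ.2.1) (a τ.2.2)) H := by
    refine le_trans (cnt_mono H ?_) (cnt_exists J (fun τ a => ∃ p : ℕ, p.Prime ∧ P < p ∧
        Three p (a τ.1) (a τ.2.1) (a τ.2.2)) H)
    rintro a - ⟨i₁, i₂, i₃, h12, h13, h23, h⟩
    exact ⟨(i₁, i₂, i₃), mem_filter.2 ⟨mem_univ _, h12, h13, h23⟩, h⟩
  have hτ : ∀ τ ∈ J, (cnt n (fun a => ∃ p : ℕ, p.Prime ∧ P < p ∧
        Three p (a τ.1) (a τ.2.1) (a τ.2.2)) H : ℝ) ≤ ε / (J.card + 1) * H ^ N := by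
    intro τ hτ
    rw [hJ, mem_filter] at hτ
    obtain ⟨-, h12, h13, h23⟩ := hτ
    set N' : ℕ := ∑ k ∈ {τ.1, τ.2.1, τ.2.2}ᶜ, (n k + 1) with hN'
    have e1 : (cnt n (fun a => ∃ p : ℕ, p.Prime ∧ P < p ∧
        Three p (a τ.1) (a τ.2.1) (a τ.2.2)) H : ℝ) ≤
        cnt3 (n τ.1) (n τ.2.1) (n τ.2.2) (fun a b c => ∃ p : ℕ, p.Prime ∧ P < p ∧ Three p a b c) H *
          (2 * H + 1) ^ N' := by
      exact_mod_cast cnt_three τ.1 τ.2.1 τ.2.2 h12 h13 h23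
        (fun a b c => ∃ p : ℕ, p.Prime ∧ P < p ∧ Three p a b c) H
    have e2 := h1 τ P (hPle τ) H (hHle τ)
    have e3 : N = (n τ.1 + n τ.2.1 + n τ.2.2 + 3) + N' := by
      rw [hN, hN', ← Finset.sum_add_sum_compl {τ.1, τ.2.1, τ.2.2},
        sum_insert (by simp [h12, h13]), sum_pair h23]
      ring
    have e4 : (3 : ℝ) ^ N' ≤ 3 ^ N := pow_le_pow_right₀ (by norm_num) (by omega)
    calc _ ≤ _ := e1
      _ ≤ (ε / ((J.card + 1) * 3 ^ N) * H ^ (n τ.1 + n τ.2.1 + n τ.2.2 + 3)) * (3 * H) ^ N' :=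
          mul_le_mul e2 (pow_le_three hH1 N') (by positivity) (by positivity)
      _ = ε / (J.card + 1) * H ^ N * (3 ^ N' / 3 ^ N) := by
          rw [mul_pow]
          conv_rhs => rw [e3, pow_add (H : ℝ)]
          rw [← e3]
          field_simp
      _ ≤ ε / (J.card + 1) * H ^ N * 1 := by
          apply mul_le_mul_of_nonneg_left _ (by positivity)
          rw [div_le_one (by positivity)]
          exact e4
      _ = _ := by rw [mul_one]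
  have hle' : (cnt n (fun a => ∃ i₁ i₂ i₃, i₁ ≠ i₂ ∧ i₁ ≠ i₃ ∧ i₂ ≠ i₃ ∧ ∃ p : ℕ, p.Prime ∧
        P < p ∧ Three p (a i₁) (a i₂) (a i₃)) H : ℝ) ≤
      ∑ τ ∈ J, (cnt n (fun a => ∃ p : ℕ, p.Prime ∧ P < p ∧
        Three p (a τ.1) (a τ.2.1) (a τ.2.2)) H : ℝ) := by exact_mod_cast hle
  refine (hle'.trans (sum_le_sum hτ)).trans ?_
  rw [sum_const, nsmul_eq_mul]
  have h3 : (J.card : ℝ) * (ε / (J.card + 1) * H ^ N) =
      (J.card / (J.card + 1)) * (ε * H ^ N) := by ring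
  rw [h3]
  apply mul_le_of_le_one_left (by positivity)
  rw [div_le_one (by positivity)]
  linarith

theorem neg_half (hs : 2 ≤ s) (hn : ∀ i, 4 ≤ n i) (he : ∀ i, Even (n i))
    (R : Fin r → Finset (Fin s)) (hR : Sep R) :
    Small n (fun a => HasPoint R a ℚ ∨ Sel R a) := by
  classical
  intro ε hε
  obtain ⟨P, H₁, hP2, h1⟩ := three_union n hn (ε / 2) (half_pos hε)
  set B1 : (∀ i, Fin (n i + 1) → ℤ) → Prop := fun a => ∃ i₁ i₂ i₃, i₁ ≠ i₂ ∧ i₁ ≠ i₃ ∧ i₂ ≠ i₃ ∧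
    ∃ p : ℕ, p.Prime ∧ P < p ∧ Three p (a i₁) (a i₂) (a i₃) with hB1
  set i0 : Fin s := ⟨0, by omega⟩ with hi0
  set i1 : Fin s := ⟨1, by omega⟩ with hi1
  have h01 : i0 ≠ i1 := by
    intro h
    have := congrArg Fin.val h
    simp [hi0, hi1] at this
  set J : Finset (ℤ × ℤ) := ((Icc (-(P.factorial : ℤ)) P.factorial) ×ˢ
    (Icc (-(P.factorial : ℤ)) P.factorial)).filter fun x => x.1 ≠ 0 ∧ x.2 ≠ 0 with hJ
  have hA : Small n (fun a => ∃ i ∈ (univ : Finset (Fin s)),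
      a i 0 = 0 ∨ IsSquare (a i 0) ∨ ¬ Irreducible (GZ ℚ (a i))) :=
    Small.exists univ (fun i a => a i 0 = 0 ∨ IsSquare (a i 0) ∨ ¬ Irreducible (GZ ℚ (a i)))
      fun i _ => small_one i (fun b => b 0 = 0 ∨ IsSquare (b 0) ∨ ¬ Irreducible (GZ ℚ b))
        fun ε hε => BF.reducible_small (n i) (by linarith [hn i]) ε hε
  have hI := inf_small n R hR (by omega)
  have hC : Small n (fun a => ∃ x ∈ J, DQ.OddSel (tw x.1 (a i0)) (tw x.2 (a i1))) :=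
    Small.exists J (fun x a => DQ.OddSel (tw x.1 (a i0)) (tw x.2 (a i1))) fun x hx => by
      rw [hJ, mem_filter] at hx
      exact small_two i0 i1 h01 (fun a b => DQ.OddSel (tw x.1 a) (tw x.2 b))
        fun ε hε => tw_small _ _ (hn _) (he _) (hn _) (he _) x.1 x.2 hx.2.1 hx.2.2 ε hε
  obtain ⟨H₂, h2⟩ := (hA.or (hI.or hC)) (ε / 2) (half_pos hε)
  refine ⟨max H₁ H₂, fun H hH => ?_⟩
  have e1 := h1 H ((le_max_left _ _).trans hH)
  have e2 := h2 H ((le_max_right _ _).trans hH)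
  have hle : cnt n (fun a => HasPoint R a ℚ ∨ Sel R a) H ≤ cnt n B1 H + cnt n (fun a =>
      (∃ i ∈ (univ : Finset (Fin s)), a i 0 = 0 ∨ IsSquare (a i 0) ∨
        ¬ Irreducible (GZ ℚ (a i))) ∨
      (∀ j, IsSquare (∏ i ∈ R j, ((a i 0 : ℤ) : ℚ))) ∨
        ∃ x ∈ J, DQ.OddSel (tw x.1 (a i0)) (tw x.2 (a i1))) H := by
    refine le_trans (cnt_mono H ?_) (cnt_or _ _ H)
    intro a _ ha
    by_cases hb1 : B1 a
    · exact Or.inl hb1
    right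
    by_cases hbA : ∃ i ∈ (univ : Finset (Fin s)), a i 0 = 0 ∨ IsSquare (a i 0) ∨
        ¬ Irreducible (GZ ℚ (a i))
    · exact Or.inl hbA
    right
    by_cases hbI : ∀ j, IsSquare (∏ i ∈ R j, ((a i 0 : ℤ) : ℚ))
    · exact Or.inl hbI
    right
    simp only [mem_univ, true_and, not_exists, not_or, not_not] at hbA
    have hirr : ∀ i, Irreducible (GZ ℚ (a i)) := fun i => (hbA i).2.2
    have ha0 : ∀ i, a i 0 ≠ 0 := fun i => (hbA i).1
    have hdeg : ∀ i, (GZ ℚ (a i)).natDegree = n i := by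
      intro i
      exact DQ.ElsC.gz_deg (a i) (by exact_mod_cast ha0 i)
    have hsel : Sel R a := by
      rcases ha with (⟨t, ht⟩ | hinf) | hsel
      · refine sel_of_pt (t := t) ⟨fun i hi => ?_, ht⟩
        have h3 := degree_eq_one_of_irreducible_of_root (hirr i) hi
        have h4 : (GZ ℚ (a i)).natDegree = 1 := natDegree_eq_of_degree_eq_some h3
        have h5 := hn i
        rw [hdeg i] at h4
        omega
      · exact absurd hinf hbI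
      · exact hsel
    obtain ⟨δ, hδ, hloc⟩ := hsel
    have htw : ∀ i, ∃ m : ℤ, Squarefree m ∧ ∀ (p : ℕ) [Fact p.Prime] (t c : ℚ_[p])
        (u : ℚ_[p][X]), c ≠ 0 → (GZ ℚ_[p] (a i)).eval t ≠ 0 →
        GZ ℚ_[p] (a i) ∣ (C t - X) - C c * (δ i).map (algebraMap ℚ ℚ_[p]) * u ^ 2 →
        IsSquare (((m : ℤ) : ℚ_[p]) * (GZ ℚ_[p] (a i)).eval t) := fun i =>
      exists_twist (by linarith [hn i]) (he i) (a i) (ha0 i) (δ i) (hδ i)
    choose m hm hmt using htw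
    have hle : ∀ i, |m i| ≤ (P.factorial : ℤ) := by
      intro i
      apply abs_le_factorial (hm i)
      intro p hp hpm
      by_contra hcon
      push Not at hcon
      have hF := Fact.mk hp
      obtain ⟨t, c, u, hpt, hc, hdvd⟩ := hloc p (by omega)
      obtain ⟨i₁, i₂, i₃, h12, h13, h23, h3⟩ := three_of_dvd he hR a p t hpt m hm
        (fun k => hmt k p t c (u k) hc (hpt.1 k) (hdvd k)) i hpm
      exact hb1 ⟨i₁, i₂, i₃, h12, h13, h23, p, hp, hcon, h3⟩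
    refine ⟨(m i0, m i1), ?_, ?_⟩
    · rw [hJ, mem_filter, mem_product, mem_Icc, mem_Icc]
      exact ⟨⟨abs_le.1 (hle i0), abs_le.1 (hle i1)⟩, (hm i0).ne_zero, (hm i1).ne_zero⟩
    · refine oddSel_of (a i0) (a i1) (m i0) (m i1) (hm i0).ne_zero (hm i1).ne_zero (δ i0) (δ i1)
        (hδ i0) (hδ i1) fun p _ hp2 => ?_
      obtain ⟨t, c, u, hpt, hc, hdvd⟩ := hloc p hp2
      exact ⟨t, c, u i0, u i1, hc, hpt.1 i0, hpt.1 i1,
        hmt i0 p t c (u i0) hc (hpt.1 i0) (hdvd i0), hmt i1 p t c (u i1) hc (hpt.1 i1) (hdvd i1),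
        hdvd i0, hdvd i1⟩
  have hle' : (cnt n (fun a => HasPoint R a ℚ ∨ Sel R a) H : ℝ) ≤ cnt n B1 H + cnt n (fun a =>
      (∃ i ∈ (univ : Finset (Fin s)), a i 0 = 0 ∨ IsSquare (a i 0) ∨
        ¬ Irreducible (GZ ℚ (a i))) ∨
      (∀ j, IsSquare (∏ i ∈ R j, ((a i 0 : ℤ) : ℚ))) ∨
        ∃ x ∈ J, DQ.OddSel (tw x.1 (a i0)) (tw x.2 (a i1))) H := by exact_mod_cast hle
  linarith

end Stoll308.EA
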