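import Pool.Agent.Work.MP_308fa9_nt.EA.Els
import Pool.Agent.Work.MP_308fa9_nt.EA.Neg

set_option autoImplicit false

/-!
The main theorem.
-/

namespace Stoll308.EA

open Polynomial Finset BF

theorem main {r s : ℕ} (hs : 2 ≤ s) (n : Fin s → ℕ) (hn : ∀ i, 4 ≤ n i) (he : ∀ i, Even (n i))
    (R : Fin r → Finset (Fin s)) (hR : Sep R) :
    (∃ c₀ : ℝ, 0 < c₀ ∧ ∃ H₀ : ℕ, ∀ H : ℕ, H₀ ≤ H →
      c₀ * H ^ ∑ i, (n i + 1) ≤ (cnt n (fun a => Smooth a ∧ ELS R a) H : ℝ)) ∧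
    ∀ ε : ℝ, 0 < ε → ∃ H₀ : ℕ, ∀ H : ℕ, H₀ ≤ H →
      (cnt n (fun a => HasPoint R a ℚ ∨ Sel R a) H : ℝ) ≤ ε * H ^ ∑ i, (n i + 1) := by
  refine ⟨?_, neg_half hs hn he R hR⟩
  obtain ⟨c₀, hc₀, H₀, h⟩ := els_half hs hn he
  refine ⟨c₀, hc₀, H₀, fun H hH => (h H hH).trans ?_⟩
  rw [Nat.cast_le]
  exact cnt_mono H fun a _ ha => ⟨ha.1, fun p hp => (ha.2.1 p).pt R, ha.2.2.pt R⟩

end Stoll308.EA
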