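import Pool.Agent.Work.MP_308fa9_nt.EA.Fib
import Pool.Agent.Work.MP_308fa9_nt.EA.Res
import Pool.Agent.Work.MP_308fa9_nt.DQ.ElsA

set_option autoImplicit false

/-!
Three or more polynomials modulo the primes `p > h`.
-/

namespace Stoll308.EA

open Polynomial Finset BF

variable {s : ℕ} {n : Fin s → ℕ}

/-- Two of the polynomials have a common root modulo `p`, or one of them has a multiple root. -/
theorem exists_root (hn : ∀ i, 4 ≤ n i) {p : ℕ} [Fact p.Prime] (a : ∀ i, Fin (n i + 1) → ℤ)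
    (h0 : ∀ i, ¬ (p : ℤ) ∣ a i 0) (S : Finset (Fin s)) (hS : 2 ≤ S.card)
    (h : SqS (AlgebraicClosure (ZMod p)) a S) :
    ∃ i ∈ S, ∃ j ∈ S, i ≠ j ∧ (¬ Squarefree (GZ (AlgebraicClosure (ZMod p)) (a i)) ∨
      ¬ IsCoprime (GZ (AlgebraicClosure (ZMod p)) (a i))
        (GZ (AlgebraicClosure (ZMod p)) (a j))) := by
  by_contra hcon
  push Not at hcon
  obtain ⟨c, u, hcu⟩ := h
  have hdeg : ∀ i, (GZ (AlgebraicClosure (ZMod p)) (a i)).natDegree = n i := by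
    intro i
    apply DQ.ElsC.gz_deg
    rw [Ne, BG.PEls.cast_eq_zero (p := p)]
    exact h0 i
  have hex : ∀ i ∈ S, ∃ j ∈ S, i ≠ j := by
    intro i _
    obtain ⟨j, hj, hji⟩ := Finset.exists_mem_ne (by omega : 1 < S.card) i
    exact ⟨j, hj, hji.symm⟩
  have hsq : Squarefree (∏ i ∈ S, GZ (AlgebraicClosure (ZMod p)) (a i)) := by
    apply Finset.squarefree_prod_of_pairwise_isCoprime
    · intro i hi j hj hij
      exact (hcon i hi j hj hij).2.isRelPrime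
    · intro i hi
      obtain ⟨j, hj, hij⟩ := hex i hi
      exact (hcon i hi j hj hij).1
  rw [hcu] at hsq
  have hu : IsUnit u := hsq u ⟨C c, by ring⟩
  have hud := natDegree_eq_zero_of_isUnit hu
  have h1 : (∏ i ∈ S, GZ (AlgebraicClosure (ZMod p)) (a i)).natDegree = 0 := by
    rw [hcu]
    have := natDegree_C_mul_le c (u ^ 2)
    have h2 := natDegree_pow_le (p := u) (n := 2)
    rw [hud] at h2
    omega
  have hne : ∀ i ∈ S, GZ (AlgebraicClosure (ZMod p)) (a i) ≠ 0 := by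
    intro i _ h3
    have h4 := hdeg i
    rw [h3, natDegree_zero] at h4
    have := hn i
    omega
  rw [natDegree_prod _ _ hne] at h1
  obtain ⟨i, hi⟩ : S.Nonempty := card_pos.1 (by omega)
  have h2 := (Finset.sum_eq_zero_iff.1 h1) i hi
  rw [hdeg i] at h2
  have := hn i
  omega

/-- `h / p + 1 ≤ 2` for `p > h`. -/
lemma sq_le_four {h p : ℕ} (hp : h < p) : ((h : ℝ) / p + 1) ^ 2 ≤ 4 := by
  have hp0 : (0 : ℝ) < p := by
    have : 0 < p := by omega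
    exact_mod_cast this
  have h1 : (h : ℝ) / p ≤ 1 := by
    rw [div_le_one hp0]
    exact_mod_cast hp.le
  have h2 : (0 : ℝ) ≤ (h : ℝ) / p := by positivity
  nlinarith

open Classical in
/-- The tuples for three given indices. -/
noncomputable def MS (n : Fin s → ℕ) (M h : ℕ) (S : Finset (Fin s)) (i j : Fin s) :
    Finset (∀ i, Fin (n i + 1) → ℤ) :=
  (tbox n h).filter fun x => (∀ i, Irreducible (GZ ℚ (BF.Els.co (M : ℤ) (x i)))) ∧
    (∀ i j, i ≠ j → IsCoprime (GZ ℚ (BF.Els.co (M : ℤ) (x i)))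
      (GZ ℚ (BF.Els.co (M : ℤ) (x j)))) ∧
    ∃ (p : ℕ) (_ : Fact p.Prime), h < p ∧ p ≠ 2 ∧ ¬ p ∣ M ∧
      SqS (AlgebraicClosure (ZMod p)) (coT (M : ℤ) x) S ∧
      (¬ Squarefree (GZ (AlgebraicClosure (ZMod p)) (coT (M : ℤ) x i)) ∨
        ¬ IsCoprime (GZ (AlgebraicClosure (ZMod p)) (coT (M : ℤ) x i))
          (GZ (AlgebraicClosure (ZMod p)) (coT (M : ℤ) x j)))

theorem card_MS (hn : ∀ i, 4 ≤ n i) (M : ℕ) (hM : 0 < M) (S : Finset (Fin s)) (i j l : Fin s)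
    (hij : i ≠ j) (hli : l ≠ i) (hlj : l ≠ j) (hlS : l ∈ S) :
    ∃ h₀ : ℕ, ∀ h : ℕ, h₀ ≤ h → ((MS n M h S i j).card : ℝ) ≤
      (4 * (3 * n i + n j + 1) * (h : ℝ) ^ (n l - 1)) * ∏ i ∈ {l}ᶜ, ((BF.Els.box (n i + 1) h).card : ℝ) := by
  classical
  obtain ⟨h₁, hd⟩ := DQ.disc_primes (n i) (hn i) M hM
  obtain ⟨h₂, hr⟩ := res_primes (n i) (n j) (2 * M) (by linarith [hn i]) (by linarith [hn j])
  refine ⟨max h₁ (max h₂ 1), fun h hh => ?_⟩
  have hh1 : h₁ ≤ h := (le_max_left _ _).trans hh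
  have hh2 : h₂ ≤ h := ((le_max_left _ _).trans (le_max_right _ _)).trans hh
  have hh3 : 1 ≤ h := ((le_max_right _ _).trans (le_max_right _ _)).trans hh
  have hsub : MS n M h S i j ⊆ tbox n h := by
    unfold MS
    exact filter_subset _ _
  apply card_pi_fib (fun i => BF.Els.box (n i + 1) h) l (MS n M h S i j) hsub _ (by positivity)
  intro a ha
  have hab := Fintype.mem_piFinset.1 (hsub ha)
  rw [MS, mem_filter] at ha
  obtain ⟨-, hirr, hcop, -⟩ := ha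
  have hMz : (0 : ℤ) < (M : ℤ) := by exact_mod_cast hM
  have hbd : ∀ k, ∀ e, |BF.Els.co (M : ℤ) (a k) e| ≤ ((2 * M * h : ℕ) : ℤ) := by
    intro k e
    have h1 := DQ.co_size hM (hab k) e
    rw [abs_of_pos h1.1]
    refine h1.2.trans ?_
    push_cast
    have : (1 : ℤ) ≤ h := by exact_mod_cast hh3
    nlinarith
  have hc0 : ∀ k, BF.Els.co (M : ℤ) (a k) 0 ≠ 0 := fun k => (DQ.co_size hM (hab k) 0).1.ne'
  obtain ⟨D, hD, hDp⟩ := hd h hh1 (a i) (hab i) (hirr i)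
  obtain ⟨T, hT, hTp⟩ := hr h hh2 (BF.Els.co (M : ℤ) (a i)) (BF.Els.co (M : ℤ) (a j)) (hbd i)
    (hbd j) (hc0 i) (hc0 j) (hcop i j hij)
  set U := (D ∪ T).filter fun p => p.Prime ∧ h < p ∧ p ≠ 2 ∧ ¬ p ∣ M with hU
  have hUc : (U.card : ℝ) ≤ 3 * n i + n j + 1 := by
    have h1 : U.card ≤ 3 * n i + n j + 1 := by
      have h2 : U.card ≤ (D ∪ T).card := by
        rw [hU]
        exact card_filter_le _ _
      have h3 := card_union_le D T
      omega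
    exact_mod_cast h1
  have hcov : ((BF.Els.box (n l + 1) h).filter fun y => Function.update a l y ∈ MS n M h S i j) ⊆
      U.biUnion fun p => (BF.Els.box (n l + 1) h).filter fun y =>
        Function.update a l y ∈ SB n (M : ℤ) h p S := by
    intro y hy
    rw [mem_filter] at hy
    obtain ⟨hyb, hy⟩ := hy
    have hyt := hsub hy
    have hyt' := Fintype.mem_piFinset.1 hyt
    rw [MS, mem_filter] at hy
    obtain ⟨-, -, -, p, hp, hhp, hp2, hpM, hsq, hor⟩ := hy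
    have hnd : ∀ k, ¬ (p : ℤ) ∣ BF.Els.co (M : ℤ) (Function.update a l y k) 0 := fun k =>
      DQ.ElsC.not_dvd_co hp.out hpM hhp (hyt' k) (by linarith [hn k])
    have hi : Function.update a l y i = a i := Function.update_of_ne hli.symm _ _
    have hj : Function.update a l y j = a j := Function.update_of_ne hlj.symm _ _
    have hndi := hnd i
    have hndj := hnd j
    rw [hi] at hndi
    rw [hj] at hndj
    simp only [coT, hi, hj] at hor
    rw [mem_biUnion]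
    refine ⟨p, ?_, ?_⟩
    · rw [hU, mem_filter, mem_union]
      refine ⟨?_, hp.out, hhp, hp2, hpM⟩
      rcases hor with hor | hor
      · exact Or.inl (hDp p hhp hpM hor)
      · exact Or.inr (hTp p hhp hndi hndj hor)
    · rw [mem_filter, SB, mem_filter]
      exact ⟨hyb, hyt, fun k _ hk => hnd k hk.1, hp, hsq⟩
  calc ((((BF.Els.box (n l + 1) h).filter fun y =>
        Function.update a l y ∈ MS n M h S i j).card : ℕ) : ℝ)
      ≤ ((∑ p ∈ U, ((BF.Els.box (n l + 1) h).filter fun y =>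
        Function.update a l y ∈ SB n (M : ℤ) h p S).card : ℕ) : ℝ) := by
        exact_mod_cast (card_le_card hcov).trans card_biUnion_le
    _ ≤ ∑ _p ∈ U, 4 * (h : ℝ) ^ (n l - 1) := by
        push_cast
        apply sum_le_sum
        intro p hp
        rw [hU, mem_filter] at hp
        obtain ⟨-, hp, hhp, hp2, hpM⟩ := hp
        refine (card_upd hn hp hp2 (by exact_mod_cast hpM) S l hlS a).trans ?_
        have h1 := sq_le_four hhp
        have h2 : (0 : ℝ) ≤ (h : ℝ) ^ (n l - 1) := by positivity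
        nlinarith
    _ = U.card * (4 * (h : ℝ) ^ (n l - 1)) := by rw [sum_const, nsmul_eq_mul]
    _ ≤ (3 * n i + n j + 1) * (4 * (h : ℝ) ^ (n l - 1)) :=
        mul_le_mul_of_nonneg_right hUc (by positivity)
    _ = _ := by ring

open Classical in
theorem multi_large (hn : ∀ i, 4 ≤ n i) (M : ℕ) (hM : 0 < M) (S : Finset (Fin s))
    (hS : 3 ≤ S.card) (ε : ℝ) (hε : 0 < ε) :
    ∃ h₀ : ℕ, ∀ h : ℕ, h₀ ≤ h →
      (((tbox n h).filter fun x => (∀ i, Irreducible (GZ ℚ (BF.Els.co (M : ℤ) (x i)))) ∧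
        (∀ i j, i ≠ j → IsCoprime (GZ ℚ (BF.Els.co (M : ℤ) (x i)))
          (GZ ℚ (BF.Els.co (M : ℤ) (x j)))) ∧
        ∃ (p : ℕ) (_ : Fact p.Prime), h < p ∧ p ≠ 2 ∧ ¬ p ∣ M ∧
          SqS (AlgebraicClosure (ZMod p)) (coT (M : ℤ) x) S).card : ℝ) ≤
        ε * (h : ℝ) ^ ∑ i, (n i + 1) := by
  set J : Finset (Fin s × Fin s × Fin s) := univ.filter fun τ =>
    τ.1 ≠ τ.2.1 ∧ τ.2.2 ≠ τ.1 ∧ τ.2.2 ≠ τ.2.1 ∧ τ.2.2 ∈ S with hJ
  have key : ∀ τ : Fin s × Fin s × Fin s, ∃ h₀ : ℕ, τ ∈ J → ∀ h : ℕ, h₀ ≤ h →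
      ((MS n M h S τ.1 τ.2.1).card : ℝ) ≤
        (4 * (3 * n τ.1 + n τ.2.1 + 1) * (h : ℝ) ^ (n τ.2.2 - 1)) *
          ∏ i ∈ {τ.2.2}ᶜ, ((BF.Els.box (n i + 1) h).card : ℝ) := by
    intro τ
    by_cases hτ : τ ∈ J
    · have hτ' := hτ
      rw [hJ, mem_filter] at hτ'
      obtain ⟨-, h1, h2, h3, h4⟩ := hτ'
      obtain ⟨h₀, hh⟩ := card_MS hn M hM S τ.1 τ.2.1 τ.2.2 h1 h2 h3 h4
      exact ⟨h₀, fun _ => hh⟩
    · exact ⟨0, fun h => absurd h hτ⟩
  choose H₀ hk using key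
  obtain ⟨K, hK⟩ : ∃ K : ℕ, K = ∑ τ ∈ J, 4 * (3 * n τ.1 + n τ.2.1 + 1) := ⟨_, rfl⟩
  refine ⟨(∑ τ, H₀ τ) + ⌈(K : ℝ) / ε⌉₊ + 1, fun h hh => ?_⟩
  have hh1 : 1 ≤ h := by omega
  have hHle : ∀ τ, H₀ τ ≤ h := by
    intro τ
    have := Finset.single_le_sum (f := H₀) (fun _ _ => Nat.zero_le _) (mem_univ τ)
    omega
  have hKh : (K : ℝ) ≤ ε * h := by
    have h1 : (K : ℝ) / ε ≤ ⌈(K : ℝ) / ε⌉₊ := Nat.le_ceil _
    have h2 : ((⌈(K : ℝ) / ε⌉₊ : ℕ) : ℝ) ≤ h := by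
      have : ⌈(K : ℝ) / ε⌉₊ ≤ h := by omega
      exact_mod_cast this
    rw [mul_comm]
    exact (div_le_iff₀ hε).1 (h1.trans h2)
  have hh1r : (1 : ℝ) ≤ h := by exact_mod_cast hh1
  have hcov : ((tbox n h).filter fun x => (∀ i, Irreducible (GZ ℚ (BF.Els.co (M : ℤ) (x i)))) ∧
        (∀ i j, i ≠ j → IsCoprime (GZ ℚ (BF.Els.co (M : ℤ) (x i)))
          (GZ ℚ (BF.Els.co (M : ℤ) (x j)))) ∧
        ∃ (p : ℕ) (_ : Fact p.Prime), h < p ∧ p ≠ 2 ∧ ¬ p ∣ M ∧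
          SqS (AlgebraicClosure (ZMod p)) (coT (M : ℤ) x) S) ⊆
      J.biUnion fun τ => MS n M h S τ.1 τ.2.1 := by
    intro x hx
    rw [mem_filter] at hx
    obtain ⟨hxt, hirr, hcop, p, hp, hhp, hp2, hpM, hsq⟩ := hx
    have hxt' := Fintype.mem_piFinset.1 hxt
    obtain ⟨i, hi, j, hj, hij, hor⟩ := exists_root hn (coT (M : ℤ) x)
      (fun k => DQ.ElsC.not_dvd_co hp.out hpM hhp (hxt' k) (by linarith [hn k])) S (by omega) hsq
    obtain ⟨l, hl⟩ : ((S.erase i).erase j).Nonempty := by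
      rw [← card_pos]
      have h1 := card_erase_of_mem hi
      have h2 : (S.erase i).card - 1 ≤ ((S.erase i).erase j).card := pred_card_le_card_erase
      omega
    rw [mem_erase, mem_erase] at hl
    rw [mem_biUnion]
    refine ⟨(i, j, l), ?_, ?_⟩
    · rw [hJ, mem_filter]
      exact ⟨mem_univ _, hij, hl.2.1, hl.1, hl.2.2⟩
    · rw [MS, mem_filter]
      exact ⟨hxt, hirr, hcop, p, hp, hhp, hp2, hpM, hsq, hor⟩
  have hτ : ∀ τ ∈ J, ((MS n M h S τ.1 τ.2.1).card : ℝ) ≤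
      (4 * (3 * n τ.1 + n τ.2.1 + 1) : ℕ) * ((h : ℝ) ^ (∑ i, (n i + 1)) / h) := by
    intro τ hτ
    refine (hk τ hτ h (hHle τ)).trans ?_
    have e1 : (h : ℝ) ^ (n τ.2.2 - 1) * ∏ i ∈ {τ.2.2}ᶜ, ((BF.Els.box (n i + 1) h).card : ℝ) ≤
        (h : ℝ) ^ (∑ i, (n i + 1)) / h := by
      rw [le_div_iff₀ (by positivity), prod_congr rfl fun i _ => by rw [BF.Els.card_box]]
      push_cast
      rw [prod_pow_eq_pow_sum, ← pow_add, ← pow_succ]
      apply pow_le_pow_right₀ hh1r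
      rw [Fintype.sum_eq_add_sum_compl τ.2.2]
      omega
    calc _ = (4 * (3 * n τ.1 + n τ.2.1 + 1) : ℕ) * ((h : ℝ) ^ (n τ.2.2 - 1) *
          ∏ i ∈ {τ.2.2}ᶜ, ((BF.Els.box (n i + 1) h).card : ℝ)) := by push_cast; ring
      _ ≤ _ := mul_le_mul_of_nonneg_left e1 (by positivity)
  calc _ ≤ ((∑ τ ∈ J, (MS n M h S τ.1 τ.2.1).card : ℕ) : ℝ) := by
        exact_mod_cast (card_le_card hcov).trans card_biUnion_le
    _ ≤ ∑ τ ∈ J, ((4 * (3 * n τ.1 + n τ.2.1 + 1) : ℕ) : ℝ) *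
          ((h : ℝ) ^ (∑ i, (n i + 1)) / h) := by
        push_cast
        have := sum_le_sum hτ
        push_cast at this
        exact this
    _ = K * ((h : ℝ) ^ (∑ i, (n i + 1)) / h) := by
        rw [← sum_mul, hK]
        push_cast
        rfl
    _ ≤ (ε * h) * ((h : ℝ) ^ (∑ i, (n i + 1)) / h) :=
        mul_le_mul_of_nonneg_right hKh (by positivity)
    _ = ε * (h : ℝ) ^ (∑ i, (n i + 1)) := by
        field_simp

end Stoll308.EA
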