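import Pool.Agent.Work.MP_308fa9_nt.EA.Even
import Pool.Agent.Work.MP_308fa9_nt.EA.Cnt
import Pool.Agent.Work.MP_308fa9_nt.BE.ElsC

set_option autoImplicit false

/-!
Few triples of polynomials have a common zero modulo a prime `P < p ≤ H`.
-/

namespace Stoll308.EA

open Polynomial Finset BF

/-- Fibres over all the coordinates but one, which is in a residue class. -/
lemma card_fibre {n : ℕ} (H p : ℕ) (hp : p.Prime) (l : Fin (n + 1))
    (P : (Fin (n + 1) → ℤ) → Prop) [DecidablePred P]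
    (h : ∀ a, P a → ∃ v : ℤ, ∀ y, P (Function.update a l y) → (p : ℤ) ∣ y - v) :
    (((hbox n H).filter P).card : ℝ) ≤
      (2 * (H : ℝ) + 1) ^ n * ((2 * (H : ℝ) + 1) / p + 1) := by
  classical
  have h1 := card_pi_fib (fun _ : Fin (n + 1) => Icc (-(H : ℤ)) (H : ℤ)) l
    ((hbox n H).filter P) (filter_subset _ _) ((2 * (H : ℝ) + 1) / p + 1) (by positivity) (by
      intro a ha
      rw [mem_filter] at ha
      obtain ⟨v, hv⟩ := h a ha.2
      have h2 := BE.ap_card_le (-(H : ℤ) - 1) (H : ℤ) (p : ℤ) v (by exact_mod_cast hp.pos)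
        (by omega)
      have h3 : ((Icc (-(H : ℤ)) (H : ℤ)).filter fun y => Function.update a l y ∈
          (hbox n H).filter P) ⊆ (Ioc (-(H : ℤ) - 1) (H : ℤ)).filter fun y => (p : ℤ) ∣ y - v := by
        intro y hy
        rw [mem_filter, mem_Icc, mem_filter] at hy
        rw [mem_filter, mem_Ioc]
        exact ⟨⟨by omega, hy.1.2⟩, hv y hy.2.2⟩
      have h4 : (((Icc (-(H : ℤ)) (H : ℤ)).filter fun y => Function.update a l y ∈
          (hbox n H).filter P).card : ℝ) ≤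
          (((Ioc (-(H : ℤ) - 1) (H : ℤ)).filter fun y => (p : ℤ) ∣ y - v).card : ℝ) := by
        exact_mod_cast card_le_card h3
      refine h4.trans (h2.trans (le_of_eq ?_))
      push_cast
      ring)
  refine h1.trans (le_of_eq ?_)
  have h2 : ∀ i ∈ ({l}ᶜ : Finset (Fin (n + 1))),
      ((Icc (-(H : ℤ)) (H : ℤ)).card : ℝ) = 2 * (H : ℝ) + 1 := by
    intro i _
    rw [Int.card_Icc]
    have e1 : ((H : ℤ) + 1 - -(H : ℤ)).toNat = 2 * H + 1 := by omega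
    rw [e1]
    push_cast
    ring
  rw [prod_congr rfl h2, prod_const, card_compl, Fintype.card_fin, card_singleton,
    Nat.add_sub_cancel, mul_comm]

/-- One linear condition modulo `p`. -/
theorem card_root {n : ℕ} (H p : ℕ) (hp : p.Prime) (x : ℤ) :
    (((hbox n H).filter fun a => (p : ℤ) ∣ (GZ ℤ a).eval x).card : ℝ) ≤
      (2 * (H : ℝ) + 1) ^ n * ((2 * (H : ℝ) + 1) / p + 1) := by
  classical
  apply card_fibre H p hp (Fin.last n)
  intro a ha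
  refine ⟨a (Fin.last n), fun y hy => ?_⟩
  have h1 : ∀ b : Fin (n + 1) → ℤ, (GZ ℤ b).eval x =
      ∑ i : Fin n, b i.castSucc * x ^ (n - (i : ℕ)) + b (Fin.last n) := by
    intro b
    rw [BF.Els.gz_eval, Fin.sum_univ_castSucc]
    simp
  rw [h1] at ha hy
  have h2 := dvd_sub hy ha
  have h3 : ∑ i : Fin n, Function.update a (Fin.last n) y i.castSucc * x ^ (n - (i : ℕ)) =
      ∑ i : Fin n, a i.castSucc * x ^ (n - (i : ℕ)) := by
    refine sum_congr rfl fun i _ => ?_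
    rw [Function.update_of_ne (Fin.castSucc_lt_last i).ne]
  rw [h3, Function.update_self] at h2
  have h4 : ∑ i : Fin n, a i.castSucc * x ^ (n - (i : ℕ)) + y -
      (∑ i : Fin n, a i.castSucc * x ^ (n - (i : ℕ)) + a (Fin.last n)) = y - a (Fin.last n) := by
    ring
  rwa [h4] at h2

/-- The leading coefficient is divisible by `p`. -/
theorem card_lead {n : ℕ} (H p : ℕ) (hp : p.Prime) :
    (((hbox n H).filter fun a => (p : ℤ) ∣ a 0).card : ℝ) ≤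
      (2 * (H : ℝ) + 1) ^ n * ((2 * (H : ℝ) + 1) / p + 1) := by
  classical
  apply card_fibre H p hp 0
  intro a _
  refine ⟨0, fun y hy => ?_⟩
  rw [Function.update_self] at hy
  rwa [sub_zero]

/-- A large box. -/
lemma le_two {n H p : ℕ} (hp : p.Prime) (hpH : p ≤ H) {c : ℝ}
    (h : c ≤ (2 * (H : ℝ) + 1) ^ n * ((2 * (H : ℝ) + 1) / p + 1)) :
    c ≤ (2 * (H : ℝ) + 1) ^ (n + 1) * (2 / p) := by
  have hp0 : (0 : ℝ) < p := by exact_mod_cast hp.pos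
  have h1 : (1 : ℝ) ≤ (2 * (H : ℝ) + 1) / p := by
    rw [le_div_iff₀ hp0, one_mul]
    have : (p : ℝ) ≤ H := by exact_mod_cast hpH
    have h0 : (0 : ℝ) ≤ H := Nat.cast_nonneg _
    linarith
  refine h.trans ?_
  calc (2 * (H : ℝ) + 1) ^ n * ((2 * (H : ℝ) + 1) / p + 1)
      ≤ (2 * (H : ℝ) + 1) ^ n * ((2 * (H : ℝ) + 1) / p + (2 * (H : ℝ) + 1) / p) := by
        gcongr
    _ = _ := by ring

/-- The triples for one prime. -/
lemma three_card (n m k H p : ℕ) (hp : p.Prime) (hpH : p ≤ H) :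
    (cnt3 n m k (fun a b c => Three p a b c) H : ℝ) ≤
      16 * ((p : ℝ) ^ 2)⁻¹ * (2 * (H : ℝ) + 1) ^ (n + m + k + 3) := by
  classical
  have hp0 : (0 : ℝ) < p := by exact_mod_cast hp.pos
  have hp1 : (1 : ℝ) ≤ p := by exact_mod_cast hp.one_le
  set L : ∀ n : ℕ, Finset (Fin (n + 1) → ℤ) :=
    fun n => (hbox n H).filter fun a => (p : ℤ) ∣ a 0 with hL
  set Z : ∀ n : ℕ, ℕ → Finset (Fin (n + 1) → ℤ) :=
    fun n x => (hbox n H).filter fun a => (p : ℤ) ∣ (GZ ℤ a).eval (x : ℤ) with hZ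
  have hsub : ((hbox n H ×ˢ hbox m H ×ˢ hbox k H).filter fun x => Three p x.1 x.2.1 x.2.2) ⊆
      (L n ×ˢ L m ×ˢ L k) ∪ (range p).biUnion fun x => Z n x ×ˢ Z m x ×ˢ Z k x := by
    rintro ⟨a, b, c⟩ h
    rw [mem_filter, mem_product, mem_product] at h
    obtain ⟨⟨h1, h2, h3⟩, h4⟩ := h
    rw [mem_union]
    rcases h4 with ⟨e1, e2, e3⟩ | ⟨x, e1, e2, e3⟩
    · left
      rw [mem_product, mem_product]
      exact ⟨mem_filter.2 ⟨h1, e1⟩, mem_filter.2 ⟨h2, e2⟩, mem_filter.2 ⟨h3, e3⟩⟩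
    · right
      have hpz : (0 : ℤ) < p := by exact_mod_cast hp.pos
      have hx0 : 0 ≤ x % (p : ℤ) := Int.emod_nonneg _ hpz.ne'
      have hx1 : x % (p : ℤ) < p := Int.emod_lt_of_pos _ hpz
      have hxn : (((x % (p : ℤ)).toNat : ℕ) : ℤ) = x % (p : ℤ) := Int.toNat_of_nonneg hx0
      have key : ∀ {q : ℕ} (d : Fin (q + 1) → ℤ), (p : ℤ) ∣ (GZ ℤ d).eval x →
          (p : ℤ) ∣ (GZ ℤ d).eval (((x % (p : ℤ)).toNat : ℕ) : ℤ) := by
        intro q d hd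
        rw [hxn]
        have e4 : (p : ℤ) ∣ x - x % (p : ℤ) := Int.dvd_self_sub_emod
        have e5 := e4.trans (sub_dvd_eval_sub x (x % (p : ℤ)) (GZ ℤ d))
        have e6 := dvd_sub hd e5
        rwa [sub_sub_cancel] at e6
      rw [mem_biUnion]
      refine ⟨(x % (p : ℤ)).toNat, mem_range.2 (by omega), ?_⟩
      rw [mem_product, mem_product]
      exact ⟨mem_filter.2 ⟨h1, key a e1⟩, mem_filter.2 ⟨h2, key b e2⟩,
        mem_filter.2 ⟨h3, key c e3⟩⟩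
  have hLc : ∀ q, ((L q).card : ℝ) ≤ (2 * (H : ℝ) + 1) ^ (q + 1) * (2 / p) := fun q =>
    le_two hp hpH (card_lead H p hp)
  have hZc : ∀ q x, ((Z q x).card : ℝ) ≤ (2 * (H : ℝ) + 1) ^ (q + 1) * (2 / p) := fun q x =>
    le_two hp hpH (card_root H p hp x)
  have hprod : ∀ {x y z : ℝ}, 0 ≤ x → 0 ≤ y → 0 ≤ z →
      x ≤ (2 * (H : ℝ) + 1) ^ (n + 1) * (2 / p) → y ≤ (2 * (H : ℝ) + 1) ^ (m + 1) * (2 / p) →
      z ≤ (2 * (H : ℝ) + 1) ^ (k + 1) * (2 / p) →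
      x * (y * z) ≤ (2 * (H : ℝ) + 1) ^ (n + m + k + 3) * (2 / p) ^ 3 := by
    intro x y z hx hy hz h1 h2 h3
    calc x * (y * z) ≤ ((2 * (H : ℝ) + 1) ^ (n + 1) * (2 / p)) *
        (((2 * (H : ℝ) + 1) ^ (m + 1) * (2 / p)) * ((2 * (H : ℝ) + 1) ^ (k + 1) * (2 / p))) := by
          gcongr
      _ = _ := by ring
  have h1 : (cnt3 n m k (fun a b c => Three p a b c) H : ℝ) ≤
      (((L n ×ˢ L m ×ˢ L k) ∪ (range p).biUnion fun x => Z n x ×ˢ Z m x ×ˢ Z k x).card : ℝ) := by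
    unfold cnt3
    rw [Nat.cast_le]
    convert card_le_card hsub
  have h2 : (((L n ×ˢ L m ×ˢ L k) ∪ (range p).biUnion fun x => Z n x ×ˢ Z m x ×ˢ Z k x).card : ℝ) ≤
      ((L n ×ˢ L m ×ˢ L k).card : ℝ) + ∑ x ∈ range p, ((Z n x ×ˢ Z m x ×ˢ Z k x).card : ℝ) := by
    have := (card_union_le (L n ×ˢ L m ×ˢ L k)
      ((range p).biUnion fun x => Z n x ×ˢ Z m x ×ˢ Z k x)).trans
      (Nat.add_le_add_left card_biUnion_le _)
    exact_mod_cast this
  have h3 : ((L n ×ˢ L m ×ˢ L k).card : ℝ) ≤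
      (2 * (H : ℝ) + 1) ^ (n + m + k + 3) * (2 / p) ^ 3 := by
    rw [card_product, card_product, Nat.cast_mul, Nat.cast_mul]
    exact hprod (Nat.cast_nonneg _) (Nat.cast_nonneg _) (Nat.cast_nonneg _) (hLc _) (hLc _) (hLc _)
  have h4 : ∀ x ∈ range p, ((Z n x ×ˢ Z m x ×ˢ Z k x).card : ℝ) ≤
      (2 * (H : ℝ) + 1) ^ (n + m + k + 3) * (2 / p) ^ 3 := by
    intro x _
    rw [card_product, card_product, Nat.cast_mul, Nat.cast_mul]
    exact hprod (Nat.cast_nonneg _) (Nat.cast_nonneg _) (Nat.cast_nonneg _) (hZc _ _) (hZc _ _)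
      (hZc _ _)
  have h5 := sum_le_sum h4
  rw [sum_const, card_range, nsmul_eq_mul] at h5
  have h6 : (2 * (H : ℝ) + 1) ^ (n + m + k + 3) * (2 / p) ^ 3 +
      p * ((2 * (H : ℝ) + 1) ^ (n + m + k + 3) * (2 / p) ^ 3) ≤
      16 * ((p : ℝ) ^ 2)⁻¹ * (2 * (H : ℝ) + 1) ^ (n + m + k + 3) := by
    have e1 : (1 + (p : ℝ)) * (2 / p) ^ 3 ≤ 16 * ((p : ℝ) ^ 2)⁻¹ := by
      have e2 : (1 + (p : ℝ)) * (2 / p) ^ 3 = (8 * (1 + p) / p) * ((p : ℝ) ^ 2)⁻¹ := by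
        field_simp
        ring
      rw [e2]
      have e3 : 8 * (1 + (p : ℝ)) / p ≤ 16 := by
        rw [div_le_iff₀ hp0]
        linarith
      exact mul_le_mul_of_nonneg_right e3 (by positivity)
    calc _ = ((1 + (p : ℝ)) * (2 / p) ^ 3) * (2 * (H : ℝ) + 1) ^ (n + m + k + 3) := by ring
      _ ≤ _ := mul_le_mul_of_nonneg_right e1 (by positivity)
  linarith

theorem three_mid (n m k : ℕ) (ε : ℝ) (hε : 0 < ε) :
    ∃ P : ℕ, ∀ P' : ℕ, P ≤ P' → ∀ H : ℕ, 1 ≤ H →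
      (cnt3 n m k (fun a b c => ∃ p : ℕ, p.Prime ∧ P' < p ∧ p ≤ H ∧ Three p a b c) H : ℝ) ≤
        ε * H ^ (n + m + k + 3) := by
  classical
  refine ⟨max 1 ⌈16 * 3 ^ (n + m + k + 3) / ε⌉₊, fun P hP H hH => ?_⟩
  have hP1 : 1 ≤ P := (le_max_left _ _).trans hP
  have hP2 : 16 * 3 ^ (n + m + k + 3) / ε ≤ P :=
    (Nat.le_ceil _).trans (by exact_mod_cast (le_max_right _ _).trans hP)
  have hP0 : (0 : ℝ) < P := by exact_mod_cast hP1
  set J : Finset ℕ := (Ioc P H).filter Nat.Prime with hJ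
  have h1 : cnt3 n m k (fun a b c => ∃ p : ℕ, p.Prime ∧ P < p ∧ p ≤ H ∧ Three p a b c) H ≤
      ∑ p ∈ J, cnt3 n m k (fun a b c => Three p a b c) H := by
    unfold cnt3
    refine le_trans (card_le_card ?_) (card_biUnion_le (s := J))
    intro a ha
    simp only [mem_filter, mem_biUnion] at ha ⊢
    obtain ⟨h1, p, hp, h2, h3, h4⟩ := ha
    exact ⟨p, mem_filter.2 ⟨mem_Ioc.2 ⟨h2, h3⟩, hp⟩, h1, h4⟩
  have h2 : (cnt3 n m k (fun a b c => ∃ p : ℕ, p.Prime ∧ P < p ∧ p ≤ H ∧ Three p a b c) H : ℝ) ≤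
      ∑ p ∈ J, 16 * ((p : ℝ) ^ 2)⁻¹ * (2 * (H : ℝ) + 1) ^ (n + m + k + 3) := by
    refine (Nat.cast_le.2 h1).trans ?_
    rw [Nat.cast_sum]
    refine sum_le_sum fun p hp => ?_
    rw [hJ, mem_filter, mem_Ioc] at hp
    exact three_card n m k H p hp.2 hp.1.2
  refine h2.trans ?_
  rw [← sum_mul, ← mul_sum]
  rcases le_total P H with hPH | hPH
  · have h6 : ∑ p ∈ J, ((p : ℝ) ^ 2)⁻¹ ≤ (P : ℝ)⁻¹ := by
      refine (sum_le_sum_of_subset_of_nonneg (filter_subset _ _) fun _ _ _ => by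
        positivity).trans ((sum_Ioc_inv_sq_le_sub (by omega) hPH).trans ?_)
      have : (0 : ℝ) ≤ (H : ℝ)⁻¹ := by positivity
      linarith
    have h7 : (16 * (P : ℝ)⁻¹) * 3 ^ (n + m + k + 3) ≤ ε := by
      rw [div_le_iff₀ hε] at hP2
      rw [mul_comm, ← mul_assoc, ← div_eq_mul_inv, div_le_iff₀ hP0]
      linarith
    calc 16 * (∑ p ∈ J, ((p : ℝ) ^ 2)⁻¹) * (2 * (H : ℝ) + 1) ^ (n + m + k + 3)
        ≤ 16 * (P : ℝ)⁻¹ * (3 * H) ^ (n + m + k + 3) := by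
          refine mul_le_mul (mul_le_mul_of_nonneg_left h6 (by norm_num)) (pow_le_three hH _)
            (by positivity) (by positivity)
      _ = (16 * (P : ℝ)⁻¹) * 3 ^ (n + m + k + 3) * (H : ℝ) ^ (n + m + k + 3) := by
          rw [mul_pow]
          ring
      _ ≤ ε * H ^ (n + m + k + 3) := mul_le_mul_of_nonneg_right h7 (by positivity)
  · have h6 : J = ∅ := by
      rw [hJ, Ioc_eq_empty_of_le hPH, filter_empty]
    rw [h6, sum_empty, mul_zero, zero_mul]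
    positivity

end Stoll308.EA
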