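import Pool.Agent.Work.MP_308fa9_nt.EA.Defs
import Pool.Agent.Work.MP_308fa9_nt.BF.Basic
import Pool.Agent.Work.MP_308fa9_nt.BF.PairEx
import Pool.Agent.Work.MP_308fa9_nt.BG.HankL

set_option autoImplicit false

/-!
The square class of the value of the polynomial at a local point is global.
-/

namespace Stoll308.EA

open Polynomial Finset BF Matrix BG

/-- A rational number is a squarefree integer times a square. -/
lemma rat_squarefree (m : ℚ) (hm : m ≠ 0) :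
    ∃ (k : ℤ) (q : ℚ), Squarefree k ∧ q ≠ 0 ∧ m = k * q ^ 2 := by
  set z : ℤ := m.num * m.den with hz
  have hz0 : z ≠ 0 := mul_ne_zero (Rat.num_ne_zero.2 hm) (by exact_mod_cast m.den_nz)
  obtain ⟨s, b, h1, h2⟩ := Nat.sq_mul_squarefree z.natAbs
  have hb : b ≠ 0 := by
    rintro rfl
    apply hz0
    rw [← Int.natAbs_eq_zero, ← h1]
    simp
  have hden : (m.den : ℚ) ≠ 0 := by exact_mod_cast m.den_nz
  refine ⟨z.sign * s, b / m.den, ?_, ?_, ?_⟩
  · rw [← Int.squarefree_natAbs, Int.natAbs_mul, Int.natAbs_sign_of_ne_zero hz0, one_mul]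
    simpa using h2
  · exact div_ne_zero (by exact_mod_cast hb) hden
  · have h3 : (z : ℚ) = z.sign * (b ^ 2 * s) := by
      have h4 : z = z.sign * ((b : ℤ) ^ 2 * s) := by
        conv_lhs => rw [← Int.sign_mul_natAbs z]
        rw [← h1]
        push_cast
        ring
      exact_mod_cast h4
    have h5 : m * m.den ^ 2 = z := by
      rw [hz]
      push_cast
      have h6 : m * m.den = m.num := Rat.mul_den_eq_num m
      calc m * m.den ^ 2 = (m * m.den) * m.den := by ring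
        _ = _ := by rw [h6]
    have h7 : m = z / m.den ^ 2 := by
      rw [eq_div_iff (pow_ne_zero 2 hden)]
      exact h5
    calc m = (z : ℚ) / m.den ^ 2 := h7
      _ = _ := by
        rw [h3]
        push_cast
        field_simp

/-- The multiplication by a constant. -/
lemma det_mulMat_C {K : Type*} [Field K] {n : ℕ} (F : K[X]) (hF : F.Monic)
    (hn : F.natDegree = n) (c : K) : (mulMat n F (C c)).det = c ^ n := by
  have h1 : mulMat n F (C c) = c • (1 : Matrix (Fin n) (Fin n) K) := by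
    rw [← HankL.mulMat_one F hF hn]
    ext i j
    have e1 : mulMat n F (C c) i j = ((C c * X ^ (i : ℕ)) %ₘ F).coeff (j : ℕ) := rfl
    have e2 : mulMat n F 1 i j = ((1 * X ^ (i : ℕ)) %ₘ F).coeff (j : ℕ) := rfl
    rw [Matrix.smul_apply, e1, e2, one_mul, ← smul_eq_C_mul, smul_modByMonic, coeff_smul]
  rw [h1, det_smul, det_one, mul_one, Fintype.card_fin]

/-- `m = a₀ N(δ)` up to squares. -/
theorem exists_twist {n : ℕ} (hn : 1 ≤ n) (he : Even n) (a : Fin (n + 1) → ℤ) (h0 : a 0 ≠ 0)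
    (δ : ℚ[X]) (hδ : IsCoprime δ (GZ ℚ a)) :
    ∃ m : ℤ, Squarefree m ∧ ∀ (p : ℕ) [Fact p.Prime] (t c : ℚ_[p]) (u : ℚ_[p][X]), c ≠ 0 →
      (GZ ℚ_[p] a).eval t ≠ 0 →
      GZ ℚ_[p] a ∣ (C t - X) - C c * δ.map (algebraMap ℚ ℚ_[p]) * u ^ 2 →
      IsSquare (((m : ℤ) : ℚ_[p]) * (GZ ℚ_[p] a).eval t) := by
  have h0Q : ((a 0 : ℤ) : ℚ) ≠ 0 := by exact_mod_cast h0
  set F : ℚ[X] := mon ℚ a with hF
  have hFm : F.Monic := BF.LocLat.mon_monic a h0Q
  have hFn : F.natDegree = n := BF.LocLat.mon_natDegree a h0Q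
  have hFd : F ∣ GZ ℚ a := Dvd.intro_left _ (BF.LocLat.GZ_eq a h0Q).symm
  have hco : IsCoprime δ F := hδ.of_isCoprime_of_dvd_right hFd
  have hN : (mulMat n F δ).det ≠ 0 := mulMat_det_ne_zero F δ hFm hFn hco
  obtain ⟨k, q, hk, hq, hkq⟩ := rat_squarefree ((a 0 : ℤ) * (mulMat n F δ).det)
    (mul_ne_zero h0Q hN)
  refine ⟨k, hk, ?_⟩
  intro p _ t c u hc ht hdvd
  have h0p : ((a 0 : ℤ) : ℚ_[p]) ≠ 0 := by exact_mod_cast h0
  have hGm : (mon ℚ_[p] a).Monic := BF.LocLat.mon_monic a h0p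
  have hGn : (mon ℚ_[p] a).natDegree = n := BF.LocLat.mon_natDegree a h0p
  have hGd : mon ℚ_[p] a ∣ GZ ℚ_[p] a := Dvd.intro_left _ (BF.LocLat.GZ_eq a h0p).symm
  have hmap : mon ℚ_[p] a = F.map (algebraMap ℚ ℚ_[p]) := by
    rw [hF]
    exact (BF.PairEx.mon_map (algebraMap ℚ ℚ_[p]) a).symm
  have h1 := HankL.mulMat_congr (n := n) (mon ℚ_[p] a) _ _ hGm (hGd.trans hdvd)
  have h2 := congrArg Matrix.det h1
  rw [HankL.mulMat_lin_det _ hGm hGn, HankL.mulMat_mul _ _ _ hGm hGn,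
    HankL.mulMat_mul _ _ _ hGm hGn, det_mul, det_mul, sq u, HankL.mulMat_mul _ _ _ hGm hGn,
    det_mul, det_mulMat_C _ hGm hGn] at h2
  have h3 : (mulMat n (mon ℚ_[p] a) (δ.map (algebraMap ℚ ℚ_[p]))).det =
      algebraMap ℚ ℚ_[p] (mulMat n F δ).det := by
    rw [hmap, HankL.mulMat_map _ _ _ hFm, RingHom.map_det]
    rfl
  rw [h3] at h2
  obtain ⟨e, he⟩ := he
  have h4 : (GZ ℚ_[p] a).eval t = (a 0 : ℚ_[p]) * (mon ℚ_[p] a).eval t := by
    have h5 := congrArg (fun g => g.eval t) (BF.LocLat.GZ_eq a h0p)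
    simpa [eval_mul, eval_C] using h5
  have hqp : (algebraMap ℚ ℚ_[p] q) ≠ 0 := (_root_.map_ne_zero _).2 hq
  have h6 : (a 0 : ℚ_[p]) * algebraMap ℚ ℚ_[p] (mulMat n F δ).det =
      (k : ℚ_[p]) * (algebraMap ℚ ℚ_[p] q) ^ 2 := by
    have h7 := congrArg (algebraMap ℚ ℚ_[p]) hkq
    rw [map_mul, map_mul, map_pow, map_intCast, map_intCast] at h7
    exact h7
  set d := algebraMap ℚ ℚ_[p] (mulMat n F δ).det with hd
  set q' := algebraMap ℚ ℚ_[p] q with hq'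
  set v := (mulMat n (mon ℚ_[p] a) u).det with hv
  refine ⟨(a 0 : ℚ_[p]) * d * c ^ e * v / q', ?_⟩
  have hce : c ^ n = c ^ e * c ^ e := by rw [← pow_add, ← he]
  rw [h4, h2, hce]
  have h8 : (k : ℚ_[p]) = (a 0 : ℚ_[p]) * d / q' ^ 2 := by
    rw [eq_div_iff (pow_ne_zero 2 hqp)]
    exact h6.symm
  rw [h8]
  field_simp

end Stoll308.EA
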