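import Pool.Agent.Work.MP_308fa9_nt.DQ.Weil

set_option autoImplicit false

/-!
Common square values of several polynomials modulo a large prime.
-/

namespace Stoll308.EA

open Polynomial Finset

open Pool.Agent.Work.MP_2b9663_nt in
theorem exists_all_sq {p : ℕ} [hp : Fact p.Prime] (hp2 : p ≠ 2) {s : ℕ} (f : Fin s → (ZMod p)[X])
    (hbig : (2 ^ s * (∑ i, (f i).natDegree + 1)) ^ 2 ≤ p)
    (h : ∀ S : Finset (Fin s), S.Nonempty → ∀ e u, ∏ i ∈ S, f i ≠ C e * u ^ 2) :
    ∃ x : ZMod p, ∀ i, ∃ y : ZMod p, y ≠ 0 ∧ y ^ 2 = (f i).eval x := by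
  classical
  have hf0 : ∀ i, f i ≠ 0 := by
    intro i hi
    apply h {i} (singleton_nonempty i) 0 0
    rw [prod_singleton, hi]; simp
  by_contra hcon
  have hno : ∀ x : ZMod p, ¬ ∀ i, quadraticChar (ZMod p) ((f i).eval x) = 1 := by
    intro x hx
    apply hcon
    refine ⟨x, fun i => ?_⟩
    have hi := hx i
    have hfx : (f i).eval x ≠ 0 := by
      intro h0
      rw [h0] at hi
      simp at hi
    rw [quadraticChar_one_iff_isSquare hfx] at hi
    obtain ⟨y, hy⟩ := hi
    refine ⟨y, ?_, by rw [hy, sq]⟩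
    rintro rfl
    exact hfx (by rw [hy, mul_zero])
  have hZ : ∀ g : (ZMod p)[X], g ≠ 0 →
      (univ.filter fun x : ZMod p => g.eval x = 0).card ≤ g.natDegree := by
    intro g hg
    refine le_trans ?_ (card_roots' g)
    refine le_trans ?_ (Multiset.toFinset_card_le _)
    apply card_le_card
    intro x hx
    rw [mem_filter] at hx
    rw [Multiset.mem_toFinset, mem_roots hg]
    exact hx.2
  have hb : ∀ a : ZMod p, 0 ≤ 1 + quadraticChar (ZMod p) a ∧ 1 + quadraticChar (ZMod p) a ≤ 2 := by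
    intro a
    by_cases ha : a = 0
    · rw [ha, quadraticChar_zero]; norm_num
    · rcases quadraticChar_dichotomy ha with h' | h'
      · rw [h']; norm_num
      · rw [h']; norm_num
  have hle : ∀ x : ZMod p, ∏ i, (1 + quadraticChar (ZMod p) ((f i).eval x)) ≤
      2 ^ s * ∑ i, (if (f i).eval x = 0 then (1 : ℤ) else 0) := by
    intro x
    by_cases hz : ∃ i, (f i).eval x = 0
    · obtain ⟨i, hi⟩ := hz
      have h1 : ∏ i, (1 + quadraticChar (ZMod p) ((f i).eval x)) ≤ 2 ^ s := by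
        calc ∏ i, (1 + quadraticChar (ZMod p) ((f i).eval x)) ≤ ∏ _i : Fin s, (2 : ℤ) :=
              prod_le_prod (fun i _ => (hb _).1) (fun i _ => (hb _).2)
          _ = 2 ^ s := by simp
      have h2 : (1 : ℤ) ≤ ∑ i, (if (f i).eval x = 0 then (1 : ℤ) else 0) := by
        calc (1 : ℤ) = if (f i).eval x = 0 then (1 : ℤ) else 0 := by rw [if_pos hi]
          _ ≤ _ := single_le_sum (f := fun i => if (f i).eval x = 0 then (1 : ℤ) else 0)
              (fun j _ => by split_ifs <;> norm_num) (mem_univ i)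
      calc _ ≤ (2 : ℤ) ^ s * 1 := by rw [mul_one]; exact h1
        _ ≤ _ := by
          apply mul_le_mul_of_nonneg_left h2
          positivity
    · have hz' : ∀ i, (f i).eval x ≠ 0 := fun i hi => hz ⟨i, hi⟩
      have hn := hno x
      have : ∃ i, quadraticChar (ZMod p) ((f i).eval x) ≠ 1 := by
        by_contra hc
        exact hn fun i => by_contra fun h' => hc ⟨i, h'⟩
      obtain ⟨i, hi⟩ := this
      have hi' : quadraticChar (ZMod p) ((f i).eval x) = -1 := by
        rcases quadraticChar_dichotomy (hz' i) with h' | h'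
        · exact absurd h' hi
        · exact h'
      rw [prod_eq_zero (mem_univ i) (by rw [hi']; norm_num)]
      apply mul_nonneg (by positivity)
      exact sum_nonneg fun j _ => by split_ifs <;> norm_num
  have hsum : ∑ x : ZMod p, ∏ i, (1 + quadraticChar (ZMod p) ((f i).eval x)) ≤
      2 ^ s * ∑ i, ((f i).natDegree : ℤ) := by
    refine (sum_le_sum fun x _ => hle x).trans ?_
    rw [← mul_sum, sum_comm]
    apply mul_le_mul_of_nonneg_left _ (by positivity)
    apply sum_le_sum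
    intro i _
    rw [← sum_filter, sum_const, nsmul_eq_mul, mul_one]
    exact_mod_cast hZ (f i) (hf0 i)
  have hsum2 : ∑ x : ZMod p, ∏ i, (1 + quadraticChar (ZMod p) ((f i).eval x)) =
      ∑ S ∈ (univ : Finset (Fin s)).powerset, charSum (ZMod p) (∏ i ∈ S, f i) := by
    have h1 : ∀ x : ZMod p, ∏ i, (1 + quadraticChar (ZMod p) ((f i).eval x)) =
        ∑ S ∈ (univ : Finset (Fin s)).powerset,
          quadraticChar (ZMod p) ((∏ i ∈ S, f i).eval x) := by
      intro x
      rw [prod_one_add]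
      refine sum_congr rfl fun S _ => ?_
      rw [eval_prod, map_prod]
    rw [sum_congr rfl fun x _ => h1 x, sum_comm]
    rfl
  have hsum3 : ∑ S ∈ (univ : Finset (Fin s)).powerset, charSum (ZMod p) (∏ i ∈ S, f i) =
      (p : ℤ) + ∑ S ∈ (univ : Finset (Fin s)).powerset.erase ∅,
        charSum (ZMod p) (∏ i ∈ S, f i) := by
    rw [← add_sum_erase _ _ (mem_powerset.2 (empty_subset univ))]
    congr 1
    rw [prod_empty, charSum]
    simp
  set D : ℝ := ∑ i, ((f i).natDegree : ℝ) with hD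
  have hD0 : 0 ≤ D := sum_nonneg fun i _ => Nat.cast_nonneg _
  have hsq0 : 0 ≤ Real.sqrt (p : ℝ) := Real.sqrt_nonneg _
  have hw : ∀ S ∈ (univ : Finset (Fin s)).powerset.erase ∅,
      -(D * Real.sqrt p) ≤ (charSum (ZMod p) (∏ i ∈ S, f i) : ℝ) := by
    intro S hS
    have hS0 : S.Nonempty := nonempty_of_ne_empty (ne_of_mem_erase hS)
    have h1 := (abs_le.1 (DQ.weil_charSum hp2 (∏ i ∈ S, f i) (h S hS0))).1
    refine le_trans ?_ h1
    rw [neg_le_neg_iff]
    apply mul_le_mul_of_nonneg_right _ hsq0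
    have h2 : (((∏ i ∈ S, f i).natDegree : ℕ) : ℝ) ≤ D := by
      rw [natDegree_prod S f fun i _ => hf0 i, hD]
      push_cast
      exact sum_le_sum_of_subset_of_nonneg (subset_univ S) fun i _ _ => Nat.cast_nonneg _
    linarith
  have hwsum : -(((2 : ℝ) ^ s - 1) * (D * Real.sqrt p)) ≤
      ∑ S ∈ (univ : Finset (Fin s)).powerset.erase ∅,
        (charSum (ZMod p) (∏ i ∈ S, f i) : ℝ) := by
    have h1 := card_nsmul_le_sum _ _ _ hw
    rw [card_erase_of_mem (mem_powerset.2 (empty_subset univ)), card_powerset, card_univ,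
      Fintype.card_fin, nsmul_eq_mul, Nat.cast_sub (Nat.one_le_two_pow)] at h1
    push_cast at h1
    linarith
  rw [hsum2, hsum3] at hsum
  have hmainR : (p : ℝ) + ∑ S ∈ (univ : Finset (Fin s)).powerset.erase ∅,
        (charSum (ZMod p) (∏ i ∈ S, f i) : ℝ) ≤ 2 ^ s * D := by
    rw [hD]
    exact_mod_cast hsum
  have h6 : (2 : ℝ) ^ s * (D + 1) ≤ Real.sqrt p := by
    apply Real.le_sqrt_of_sq_le
    rw [hD]
    exact_mod_cast hbig
  have h7 : Real.sqrt p * Real.sqrt p = p := Real.mul_self_sqrt (Nat.cast_nonneg p)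
  have h8 : (1 : ℝ) ≤ 2 ^ s := one_le_pow₀ (by norm_num)
  have h9 : (2 : ℝ) ^ s * (D + 1) * Real.sqrt p ≤ p := by
    calc _ ≤ Real.sqrt p * Real.sqrt p := mul_le_mul_of_nonneg_right h6 hsq0
      _ = p := h7
  have h10 : (2 : ℝ) ^ s * (2 ^ s * (D + 1)) ≤ 2 ^ s * Real.sqrt p :=
    mul_le_mul_of_nonneg_left h6 (by positivity)
  have h11 : (2 : ℝ) ^ s * (D + 1) ≤ 2 ^ s * (2 ^ s * (D + 1)) := by
    have : 0 ≤ (2 : ℝ) ^ s * (D + 1) := by positivity
    nlinarith
  have h12 : 0 ≤ D * Real.sqrt p := mul_nonneg hD0 hsq0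
  nlinarith

end Stoll308.EA
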